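import Pool.Agent.U856.DE.D13
import Pool.Agent.U856.EH.M10

set_option autoImplicit false

/-! Weights fixed in advance: few exceptions. -/

namespace Pool.Agent.U856.DE
open Finset Filter
open Pool.Agent.R311.DEH (g1 g2 Tq ev_pow_exp)
open Pool.Agent.TH212.EH (En large tau_pow_div markov)
open Pool.Agent.W93.LV (log2_le inv_phi_le)

lemma TT_FF (g lam : ℕ → ℝ) (Q N : ℕ) : TT (fun n => ArithmeticFunction.vonMangoldt n) (FF g lam Q) 1 N =
    ∑ q ∈ Icc 1 Q, lam q * Tq g q N := by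
  unfold TT FF Tq
  have h1 : ∀ q ∈ Icc 1 Q, lam q * ∑ n ∈ (Ico 1 N).filter (fun n => n ≡ N [MOD q]), ArithmeticFunction.vonMangoldt n * g (N - n) =
      ∑ n ∈ Ico 1 N, if q ∣ N - n then lam q * (ArithmeticFunction.vonMangoldt n * g (N - n)) else 0 := by
    intro q _
    rw [mul_sum, sum_filter]
    apply sum_congr rfl
    intro n hn
    rw [mem_Ico] at hn
    have h2 : n ≡ N [MOD q] ↔ q ∣ N - n := Nat.modEq_iff_dvd' hn.2.le
    by_cases h : q ∣ N - n
    · rw [if_pos (h2.2 h), if_pos h]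
    · rw [if_neg (fun hh => h (h2.1 hh)), if_neg h]
  rw [sum_congr rfl h1, sum_comm]
  have h3 : (Ico 1 N).filter (fun n => n ≡ N [MOD 1]) = Ico 1 N := by
    apply filter_true_of_mem
    intro n _
    exact Nat.modEq_one
  rw [h3]
  apply sum_congr rfl
  intro n _
  rw [← sum_filter, mul_sum, mul_sum]
  apply sum_congr rfl
  intro q _
  ring

lemma nonc (g : ℕ → ℝ) (hg : g = g1 ∨ g = g2) (q N X : ℕ) (hN : N ≤ X) (h : ¬ q.Coprime N) :
    |Tq g q N| ≤ (1 + Real.log X) * ((Nat.log 2 X + 1 : ℝ) * Real.log X) := by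
  have hX : 0 ≤ Real.log (X : ℝ) := Real.log_natCast_nonneg X
  obtain ⟨r, hr, hrq, hra⟩ := Nat.Prime.not_coprime_iff_dvd.1 h
  unfold Tq
  refine (abs_sum_le_sum_abs _ _).trans ?_
  calc ∑ n ∈ (Ico 1 N).filter (fun n => n ≡ N [MOD q]), |ArithmeticFunction.vonMangoldt n * g (N - n)|
      ≤ ∑ n ∈ (Ico 1 N).filter (fun n => n ≡ N [MOD q]), (1 + Real.log X) * ArithmeticFunction.vonMangoldt n := by
        apply sum_le_sum
        intro n hn
        rw [mem_filter, mem_Ico] at hn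
        rw [abs_mul, abs_of_nonneg ArithmeticFunction.vonMangoldt_nonneg, mul_comm]
        exact mul_le_mul_of_nonneg_right (g_abs g hg _ X (by omega)) ArithmeticFunction.vonMangoldt_nonneg
    _ ≤ ∑ n ∈ (Icc 1 X).filter (fun n => r ∣ n), (1 + Real.log X) * ArithmeticFunction.vonMangoldt n := by
        apply sum_le_sum_of_subset_of_nonneg
        · intro u hu
          rw [mem_filter, mem_Ico] at hu
          rw [mem_filter, mem_Icc]
          exact ⟨⟨hu.1.1, by omega⟩, (hu.2.dvd_iff hrq).2 hra⟩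
        · intro u _ _
          exact mul_nonneg (by linarith) ArithmeticFunction.vonMangoldt_nonneg
    _ ≤ _ := by
        rw [← mul_sum]
        exact mul_le_mul_of_nonneg_left (Pool.Agent.H373R2.T7.lam_mult_prime X r hr) (by linarith)

/-- the discrepancy with weights -/
noncomputable def WD (g lam : ℕ → ℝ) (Q N : ℕ) : ℝ :=
  ∑ q ∈ (Icc 1 Q).filter (fun q => q.Coprime N), lam q * (Tq g q N - 1 / (Nat.totient q : ℝ) * Tq g 1 N)

open Classical in
lemma WD_le (g lam : ℕ → ℝ) (hg : g = g1 ∨ g = g2) (Q N X T : ℕ) (Bm : ℝ) (hBm : 0 ≤ Bm) (hN : N ≤ X) (hX1 : 1 ≤ X) (hQX : Q ≤ X)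
    (hlam : ∀ q, |lam q| ≤ Bm * (q.divisors.card : ℝ) ^ T) :
    |WD g lam Q N| ≤ |TT (fun n => ArithmeticFunction.vonMangoldt n) (FF g lam Q) 1 N| +
      Bm * (1 + Real.log X) ^ (2 ^ (T + 1)) * |Tq g 1 N| + Bm * (3 * Q * (1 + Real.log X) ^ (2 ^ T + 3)) := by
  obtain ⟨ℓ, hℓ⟩ : ∃ ℓ, ℓ = 1 + Real.log (X : ℝ) := ⟨_, rfl⟩
  have hX : 0 ≤ Real.log (X : ℝ) := Real.log_natCast_nonneg X
  have hℓ1 : 1 ≤ ℓ := by linarith
  rw [← hℓ]
  have hlogQ : 1 + Real.log (Q : ℝ) ≤ ℓ := by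
    rw [hℓ]
    rcases Nat.eq_zero_or_pos Q with h0 | h0
    · rw [h0]
      simp only [Nat.cast_zero, Real.log_zero]
      linarith
    · have := Real.log_le_log (by exact_mod_cast h0 : (0 : ℝ) < Q) (by exact_mod_cast hQX : (Q : ℝ) ≤ X)
      linarith
  have hlogQ0 := Real.log_natCast_nonneg Q
  have hsplit : WD g lam Q N = ∑ q ∈ Icc 1 Q, lam q * Tq g q N - ∑ q ∈ (Icc 1 Q).filter (fun q => ¬ q.Coprime N), lam q * Tq g q N -
      (∑ q ∈ (Icc 1 Q).filter (fun q => q.Coprime N), lam q * (1 / (Nat.totient q : ℝ))) * Tq g 1 N := by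
    have h1 : ∑ q ∈ Icc 1 Q, lam q * Tq g q N = ∑ q ∈ (Icc 1 Q).filter (fun q => q.Coprime N), lam q * Tq g q N +
        ∑ q ∈ (Icc 1 Q).filter (fun q => ¬ q.Coprime N), lam q * Tq g q N := (sum_filter_add_sum_filter_not _ _ _).symm
    have h2 : WD g lam Q N = ∑ q ∈ (Icc 1 Q).filter (fun q => q.Coprime N), lam q * Tq g q N -
        (∑ q ∈ (Icc 1 Q).filter (fun q => q.Coprime N), lam q * (1 / (Nat.totient q : ℝ))) * Tq g 1 N := by
      unfold WD
      rw [sum_mul, ← sum_sub_distrib]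
      apply sum_congr rfl
      intro q _
      ring
    rw [h2, h1]
    ring
  rw [hsplit, ← TT_FF]
  refine (abs_sub _ _).trans ?_
  have b1 : |(∑ q ∈ (Icc 1 Q).filter (fun q => q.Coprime N), lam q * (1 / (Nat.totient q : ℝ))) * Tq g 1 N| ≤
      Bm * ℓ ^ (2 ^ (T + 1)) * |Tq g 1 N| := by
    rw [abs_mul]
    apply mul_le_mul_of_nonneg_right _ (abs_nonneg _)
    refine (abs_sum_le_sum_abs _ _).trans ?_
    refine (sum_le_sum_of_subset_of_nonneg (filter_subset _ _) (fun _ _ _ => abs_nonneg _)).trans ?_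
    have h1 : ∀ q ∈ Icc 1 Q, |lam q * (1 / (Nat.totient q : ℝ))| ≤ Bm * ((q.divisors.card : ℝ) ^ (T + 1) / q) := by
      intro q hq
      rw [mem_Icc] at hq
      have hq0 : (0 : ℝ) < q := by exact_mod_cast hq.1
      rw [abs_mul, abs_of_nonneg (show 0 ≤ 1 / (Nat.totient q : ℝ) by positivity)]
      refine (mul_le_mul (hlam q) (inv_phi_le q hq.1) (by positivity) (by positivity)).trans (le_of_eq ?_)
      rw [pow_succ]
      ring
    refine (sum_le_sum h1).trans ?_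
    rw [← mul_sum]
    apply mul_le_mul_of_nonneg_left _ hBm
    refine (tau_pow_div (T + 1) Q).trans ?_
    exact pow_le_pow_left₀ (by linarith) hlogQ _
  have b2 : |∑ q ∈ (Icc 1 Q).filter (fun q => ¬ q.Coprime N), lam q * Tq g q N| ≤ Bm * (3 * Q * ℓ ^ (2 ^ T + 3)) := by
    refine (abs_sum_le_sum_abs _ _).trans ?_
    have h1 : ∀ q ∈ (Icc 1 Q).filter (fun q => ¬ q.Coprime N), |lam q * Tq g q N| ≤ Bm * (q.divisors.card : ℝ) ^ T * (3 * ℓ ^ 3) := by
      intro q hq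
      rw [mem_filter] at hq
      rw [abs_mul]
      apply mul_le_mul (hlam q) _ (abs_nonneg _) (by positivity)
      refine (nonc g hg q N X hN hq.2).trans ?_
      have h2 := log2_le X hX1
      rw [← hℓ]
      have h3 : ((Nat.log 2 X + 1 : ℝ) * Real.log X) ≤ 3 * ℓ ^ 2 := by
        have h4 : (Nat.log 2 X + 1 : ℝ) ≤ 3 * ℓ := by rw [hℓ]; linarith
        have h5 : Real.log X ≤ ℓ := by rw [hℓ]; linarith
        calc (Nat.log 2 X + 1 : ℝ) * Real.log X ≤ (3 * ℓ) * ℓ := mul_le_mul h4 h5 hX (by positivity)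
          _ = _ := by ring
      calc ℓ * ((Nat.log 2 X + 1 : ℝ) * Real.log X) ≤ ℓ * (3 * ℓ ^ 2) := mul_le_mul_of_nonneg_left h3 (by positivity)
        _ = _ := by ring
    refine (sum_le_sum h1).trans ?_
    refine (sum_le_sum_of_subset_of_nonneg (filter_subset _ _) (fun _ _ _ => by positivity)).trans ?_
    rw [← sum_mul, ← mul_sum]
    have h3 := tau_sum T Q (Real.log Q) le_rfl
    calc Bm * (∑ q ∈ Icc 1 Q, (q.divisors.card : ℝ) ^ T) * (3 * ℓ ^ 3) ≤ Bm * (Q * ℓ ^ (2 ^ T)) * (3 * ℓ ^ 3) := by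
          apply mul_le_mul_of_nonneg_right _ (by positivity)
          apply mul_le_mul_of_nonneg_left _ hBm
          refine h3.trans ?_
          apply mul_le_mul_of_nonneg_left _ (Nat.cast_nonneg _)
          exact pow_le_pow_left₀ (by linarith) hlogQ _
      _ = _ := by rw [pow_add]; ring
  have b3 : |TT (fun n => ArithmeticFunction.vonMangoldt n) (FF g lam Q) 1 N - ∑ q ∈ (Icc 1 Q).filter (fun q => ¬ q.Coprime N), lam q * Tq g q N| ≤
      |TT (fun n => ArithmeticFunction.vonMangoldt n) (FF g lam Q) 1 N| + Bm * (3 * Q * ℓ ^ (2 ^ T + 3)) :=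
    (abs_sub _ _).trans (add_le_add le_rfl b2)
  linarith

/-- the indicator function of `1` -/
noncomputable def one1 (q : ℕ) : ℝ := if q = 1 then 1 else 0

lemma TT_one (g : ℕ → ℝ) (N : ℕ) : TT (fun n => ArithmeticFunction.vonMangoldt n) (FF g one1 1) 1 N = Tq g 1 N := by
  rw [TT_FF]
  simp [one1]

open Classical in
/-- **Weights fixed in advance, for families of nearly minimal energy.** -/
theorem fam_pre (c : ℝ) (hc : 0 < c) (hc1 : c ≤ 1) (p B C T U W : ℕ) : ∃ N0 : ℕ, ∀ N : ℕ, N0 ≤ N →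
    ∀ (ι : Type) [Fintype ι] (v : ι → ℤ), (∀ i, |v i| ≤ B * N) → (En p v : ℝ) * N ≤ Real.log N ^ C * (Fintype.card ι : ℝ) ^ (2 * p) →
    ∀ H : Finset ℤ, (H.card : ℝ) ≤ Real.log N ^ W → (∀ τ ∈ H, |τ| ≤ B * N) →
    ∀ lam : ℕ → ℝ, (∀ q, |lam q| ≤ Real.log N ^ T * (q.divisors.card : ℝ) ^ T) → ∀ Q : ℕ,
    (Q : ℝ) ≤ N * Real.exp (-(Real.log N) ^ c) →
    ((univ.filter (fun i : ι => ∃ τ ∈ H, 0 < v i + τ ∧ ∃ g : ℕ → ℝ, (g = g1 ∨ g = g2) ∧
      (N : ℝ) / Real.log N ^ U < |WD g lam Q (v i + τ).toNat|)).card : ℝ) ≤ Fintype.card ι / Real.log N ^ U := by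
  obtain ⟨n1, h1⟩ := Pool.Agent.U856.EH.order_pos p C
  by_cases hp : 1 ≤ p
  swap
  · refine ⟨n1, fun N hN ι _ v _ hE => ?_⟩
    exact absurd (h1 N hN ι v hE) hp
  obtain ⟨B1, hB1⟩ : ∃ B1, B1 = 2 * B + 1 := ⟨_, rfl⟩
  obtain ⟨k, hk⟩ : ∃ k, k = T + 2 ^ (T + 1) + 1 := ⟨_, rfl⟩
  obtain ⟨E, hE⟩ : ∃ E, E = k + U + (W + 1) + U + 1 := ⟨_, rfl⟩
  obtain ⟨n2, h2⟩ := fam_mean c hc hc1 p B1 C T E hp
  obtain ⟨n2', h2'⟩ := fam_mean c hc hc1 p B1 C 0 E hp
  obtain ⟨n3, h3⟩ := eventually_atTop.1 (Pool.Agent.R311.DEH.tlog.eventually (ev_pow_exp c (6 * 3 ^ (2 ^ T + 3)) hc (T + (2 ^ T + 3) + U)))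
  obtain ⟨n4, h4⟩ := large (max (max (Real.log B1) 9) (3 ^ (2 ^ (T + 1)) : ℝ)) (n1 + n2 + n2' + n3 + 3)
  refine ⟨n4, fun N hN ι _ v hv hEn H hH hHB lam hlam Q hQ => ?_⟩
  obtain ⟨hNn, hLK, hL1⟩ := h4 N hN
  have c3 := h3 N (by omega)
  obtain ⟨X, hX⟩ : ∃ X : ℕ, X = B1 * N := ⟨_, rfl⟩
  have hN0 : (0 : ℝ) < N := by exact_mod_cast (by omega : 0 < N)
  have hNX : N ≤ X := by rw [hX]; exact Nat.le_mul_of_pos_left _ (by omega)
  have hBB1 : ((B : ℕ) : ℤ) * N ≤ (B1 : ℕ) * N := by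
    apply mul_le_mul_of_nonneg_right _ (by positivity)
    exact_mod_cast (by omega : B ≤ B1)
  have c2 := h2 N (by omega) X hNX (by rw [hX]) ι v (fun i => (hv i).trans hBB1) hEn lam hlam Q hQ
  have c2' := h2' N (by omega) X hNX (by rw [hX]) ι v (fun i => (hv i).trans hBB1) hEn one1 (by
    intro q
    rw [pow_zero, pow_zero, mul_one]
    unfold one1
    split_ifs <;> simp) 1 (by
    have e1 : Real.log (N : ℝ) ^ c ≤ Real.log N := by
      calc Real.log (N : ℝ) ^ c ≤ Real.log (N : ℝ) ^ (1 : ℝ) := Real.rpow_le_rpow_of_exponent_le hL1 hc1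
        _ = _ := Real.rpow_one _
    have e2 : Real.exp (-Real.log (N : ℝ)) ≤ Real.exp (-(Real.log (N : ℝ)) ^ c) := Real.exp_le_exp.2 (by linarith)
    rw [Real.exp_neg, Real.exp_log hN0] at e2
    calc ((1 : ℕ) : ℝ) = N * (N : ℝ)⁻¹ := by rw [mul_inv_cancel₀ hN0.ne', Nat.cast_one]
      _ ≤ _ := mul_le_mul_of_nonneg_left e2 hN0.le)
  have hexp : Real.exp ((Real.log (N : ℝ) / 2) ^ c) ≤ Real.exp ((Real.log (N : ℝ)) ^ c) := by
    apply Real.exp_le_exp.2
    exact Real.rpow_le_rpow (by linarith) (by linarith) hc.le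
  obtain ⟨L, hL⟩ : ∃ L, L = Real.log (N : ℝ) := ⟨_, rfl⟩
  rw [← hL] at hLK hL1 hlam c2 c2' c3 hEn hH hexp hQ ⊢
  have k1 : Real.log (B1 : ℝ) ≤ L := ((le_max_left _ _).trans (le_max_left _ _)).trans hLK
  have k2 : 9 ≤ L := ((le_max_right _ _).trans (le_max_left _ _)).trans hLK
  have k3 : (3 : ℝ) ^ (2 ^ (T + 1)) ≤ L := (le_max_right _ _).trans hLK
  have hL0 : 0 < L := by linarith
  obtain ⟨ℓ, hℓ⟩ : ∃ ℓ, ℓ = 1 + Real.log (X : ℝ) := ⟨_, rfl⟩
  have hXr : (X : ℝ) = B1 * N := by rw [hX]; push_cast; ring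
  have hB1r : (1 : ℝ) ≤ B1 := by exact_mod_cast (by omega : 1 ≤ B1)
  have hX0 : (0 : ℝ) < X := by rw [hXr]; positivity
  have hℓL : ℓ ≤ 3 * L := by
    rw [hℓ, hXr, Real.log_mul (by positivity) hN0.ne', ← hL]
    linarith
  have hℓ0 : 0 < ℓ := by
    rw [hℓ]
    have := Real.log_natCast_nonneg X
    linarith
  have hQN : (Q : ℝ) ≤ N := by
    refine hQ.trans (mul_le_of_le_one_right hN0.le ?_)
    rw [Real.exp_le_one_iff]
    have : 0 ≤ L ^ c := Real.rpow_nonneg hL0.le c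
    linarith
  -- the error from the moduli not coprime to the argument
  have herr : L ^ T * (3 * Q * ℓ ^ (2 ^ T + 3)) ≤ N / L ^ U / 2 := by
    have e1 : L ^ T * (3 * Q * ℓ ^ (2 ^ T + 3)) ≤ (3 * 3 ^ (2 ^ T + 3)) * L ^ (T + (2 ^ T + 3)) * Q := by
      calc L ^ T * (3 * Q * ℓ ^ (2 ^ T + 3)) ≤ L ^ T * (3 * Q * (3 * L) ^ (2 ^ T + 3)) := by
            apply mul_le_mul_of_nonneg_left _ (by positivity)
            apply mul_le_mul_of_nonneg_left _ (by positivity)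
            exact pow_le_pow_left₀ hℓ0.le hℓL _
        _ = _ := by rw [mul_pow, pow_add L T]; ring
    have e2 : 6 * 3 ^ (2 ^ T + 3) * L ^ (T + (2 ^ T + 3) + U) ≤ Real.exp (L ^ c) := by
      refine le_trans ?_ (c3.trans hexp)
      apply mul_le_mul_of_nonneg_left _ (by positivity)
      exact pow_le_pow_left₀ hL0.le (by linarith) _
    have e3 : Real.exp (L ^ c) * Real.exp (-L ^ c) = 1 := by rw [← Real.exp_add]; simp
    have hexp0 := Real.exp_pos (-L ^ c)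
    refine e1.trans ?_
    rw [div_div, le_div_iff₀ (by positivity)]
    calc 3 * 3 ^ (2 ^ T + 3) * L ^ (T + (2 ^ T + 3)) * Q * (L ^ U * 2) = (6 * 3 ^ (2 ^ T + 3) * L ^ (T + (2 ^ T + 3) + U)) * Q := by
          rw [pow_add L (T + (2 ^ T + 3)) U]; ring
      _ ≤ Real.exp (L ^ c) * (N * Real.exp (-L ^ c)) := mul_le_mul e2 hQ (Nat.cast_nonneg _) (by positivity)
      _ = N * (Real.exp (L ^ c) * Real.exp (-L ^ c)) := by ring
      _ = N := by rw [e3, mul_one]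
  -- one shift
  obtain ⟨Bd, hBd⟩ : ∃ Bd : (ℕ → ℝ) → ℤ → Finset ι, Bd = fun g τ => univ.filter (fun i : ι => 0 < v i + τ ∧
      (N : ℝ) / L ^ U < |WD g lam Q (v i + τ).toNat|) := ⟨_, rfl⟩
  have hone : ∀ g : ℕ → ℝ, (g = g1 ∨ g = g2) → ∀ τ ∈ H, ((Bd g τ).card : ℝ) ≤ 4 * (Fintype.card ι / L ^ (U + (W + 1) + 1)) := by
    intro g hg τ hτ
    obtain ⟨I, hI⟩ : ∃ I : Finset ι, I = univ.filter (fun i : ι => 0 < v i + τ) := ⟨_, rfl⟩
    have hI1 : ∀ i ∈ I, v i + τ = ((v i + τ).toNat : ℤ) := by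
      intro i hi
      rw [hI, mem_filter] at hi
      rw [Int.toNat_of_nonneg (by omega)]
    have hI2 : ∀ i ∈ I, (v i + τ).toNat ≤ X := by
      intro i _
      have a1 := (abs_le.1 (hv i)).2
      have a2 := (abs_le.1 (hHB τ hτ)).2
      have a3 : v i + τ ≤ X := by
        rw [hX, hB1]
        push_cast
        have : (0 : ℤ) ≤ N := by positivity
        linarith
      omega
    have m1 := c2 g hg τ I (fun i => (v i + τ).toNat) hI1 hI2
    have m2 := c2' g hg τ I (fun i => (v i + τ).toNat) hI1 hI2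
    obtain ⟨F, hF⟩ : ∃ F : ι → ℝ, F = fun i => if 0 < v i + τ then
        |TT (fun n => ArithmeticFunction.vonMangoldt n) (FF g lam Q) 1 (v i + τ).toNat| + L ^ T * ℓ ^ (2 ^ (T + 1)) * |Tq g 1 (v i + τ).toNat| else 0 := ⟨_, rfl⟩
    have hFsum : ∑ i, F i ≤ 2 * (L ^ k) * (N * Fintype.card ι / L ^ E) := by
      have e1 : ∑ i, F i = ∑ i ∈ I, |TT (fun n => ArithmeticFunction.vonMangoldt n) (FF g lam Q) 1 (v i + τ).toNat| +
          L ^ T * ℓ ^ (2 ^ (T + 1)) * ∑ i ∈ I, |TT (fun n => ArithmeticFunction.vonMangoldt n) (FF g one1 1) 1 (v i + τ).toNat| := by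
        rw [hF]
        simp only
        rw [← sum_filter, ← hI, sum_add_distrib, mul_sum]
        simp only [TT_one]
      rw [e1]
      have e2 : L ^ T * ℓ ^ (2 ^ (T + 1)) ≤ L ^ k := by
        calc L ^ T * ℓ ^ (2 ^ (T + 1)) ≤ L ^ T * (3 * L) ^ (2 ^ (T + 1)) := by
              apply mul_le_mul_of_nonneg_left _ (by positivity)
              exact pow_le_pow_left₀ hℓ0.le hℓL _
          _ = (3 : ℝ) ^ (2 ^ (T + 1)) * L ^ (T + 2 ^ (T + 1)) := by rw [mul_pow, pow_add]; ring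
          _ ≤ L * L ^ (T + 2 ^ (T + 1)) := mul_le_mul_of_nonneg_right k3 (by positivity)
          _ = L ^ k := by rw [hk, pow_succ L (T + 2 ^ (T + 1))]; ring
      have e3 : 1 ≤ L ^ k := one_le_pow₀ hL1
      have e4 : 0 ≤ ∑ i ∈ I, |TT (fun n => ArithmeticFunction.vonMangoldt n) (FF g one1 1) 1 (v i + τ).toNat| := sum_nonneg fun _ _ => abs_nonneg _
      have e5 : 0 ≤ ∑ i ∈ I, |TT (fun n => ArithmeticFunction.vonMangoldt n) (FF g lam Q) 1 (v i + τ).toNat| := sum_nonneg fun _ _ => abs_nonneg _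
      calc _ ≤ L ^ k * (N * Fintype.card ι / L ^ E) + L ^ k * (N * Fintype.card ι / L ^ E) := by
            apply add_le_add
            · exact (le_mul_of_one_le_left e5 e3).trans (mul_le_mul_of_nonneg_left m1 (by positivity))
            · exact mul_le_mul e2 m2 e4 (by positivity)
        _ = _ := by ring
    have hmk := markov (fun i : ι => 0 < v i + τ ∧ (N : ℝ) / L ^ U < |WD g lam Q (v i + τ).toNat|) F (N / L ^ U / 2)
      (2 * (L ^ k) * (N * Fintype.card ι / L ^ E)) (by positivity) (by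
        rintro i ⟨hi1, hi2⟩
        rw [hF]
        simp only
        rw [if_pos hi1]
        have hiI : i ∈ I := by rw [hI, mem_filter]; exact ⟨mem_univ _, hi1⟩
        have e1 := WD_le g lam hg Q (v i + τ).toNat X T (L ^ T) (by positivity) (hI2 i hiI) (by omega) (by
          have : (Q : ℝ) ≤ X := hQN.trans (by exact_mod_cast hNX)
          exact_mod_cast this) hlam
        rw [← hℓ] at e1
        linarith) (by
        intro i
        rw [hF]
        simp only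
        split_ifs <;> positivity) hFsum
    rw [hBd]
    simp only
    refine hmk.trans (le_of_eq ?_)
    rw [hE, show k + U + (W + 1) + U + 1 = k + (U + (W + 1) + 1) + U by ring, pow_add L (k + (U + (W + 1) + 1)) U, pow_add L k]
    field_simp
    ring
  have hsub : univ.filter (fun i : ι => ∃ τ ∈ H, 0 < v i + τ ∧ ∃ g : ℕ → ℝ, (g = g1 ∨ g = g2) ∧
      (N : ℝ) / L ^ U < |WD g lam Q (v i + τ).toNat|) ⊆ H.biUnion (fun τ => Bd g1 τ ∪ Bd g2 τ) := by
    intro i hi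
    rw [mem_filter] at hi
    obtain ⟨_, τ, hτ, h0, g, hg, hlt⟩ := hi
    rw [mem_biUnion]
    refine ⟨τ, hτ, ?_⟩
    rw [mem_union]
    rcases hg with rfl | rfl
    · left
      rw [hBd]
      simp only [mem_filter]
      exact ⟨mem_univ _, h0, hlt⟩
    · right
      rw [hBd]
      simp only [mem_filter]
      exact ⟨mem_univ _, h0, hlt⟩
  have hcard : ((univ.filter (fun i : ι => ∃ τ ∈ H, 0 < v i + τ ∧ ∃ g : ℕ → ℝ, (g = g1 ∨ g = g2) ∧
      (N : ℝ) / L ^ U < |WD g lam Q (v i + τ).toNat|)).card : ℝ) ≤ ∑ τ ∈ H, (8 * (Fintype.card ι / L ^ (U + (W + 1) + 1))) := by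
    have q1 := (card_le_card hsub).trans card_biUnion_le
    have q2 : ((∑ τ ∈ H, (Bd g1 τ ∪ Bd g2 τ).card : ℕ) : ℝ) ≤ ∑ τ ∈ H, (8 * (Fintype.card ι / L ^ (U + (W + 1) + 1))) := by
      push_cast
      apply sum_le_sum
      intro τ hτ
      have e1 : ((Bd g1 τ ∪ Bd g2 τ).card : ℝ) ≤ (Bd g1 τ).card + (Bd g2 τ).card := by exact_mod_cast card_union_le (Bd g1 τ) (Bd g2 τ)
      have e2 := hone g1 (Or.inl rfl) τ hτ
      have e3 := hone g2 (Or.inr rfl) τ hτ
      linarith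
    exact le_trans (by exact_mod_cast q1) q2
  refine hcard.trans ?_
  rw [sum_const, nsmul_eq_mul]
  calc (H.card : ℝ) * (8 * (Fintype.card ι / L ^ (U + (W + 1) + 1))) ≤ L ^ W * (8 * (Fintype.card ι / L ^ (U + (W + 1) + 1))) :=
        mul_le_mul_of_nonneg_right hH (by positivity)
    _ = 8 / L ^ 2 * (Fintype.card ι / L ^ U) := by
        rw [show U + (W + 1) + 1 = U + W + 2 by ring, pow_add L (U + W) 2, pow_add L U W]
        field_simp
    _ ≤ 1 * (Fintype.card ι / L ^ U) := by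
        apply mul_le_mul_of_nonneg_right _ (by positivity)
        rw [div_le_one (by positivity)]
        nlinarith
    _ = _ := one_mul _

end Pool.Agent.U856.DE
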