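import Pool.Agent.U856.DE.D10

set_option autoImplicit false

/-! The discrepancies at all integers near almost all polynomial values. -/

namespace Pool.Agent.U856.DE
open Finset Polynomial
open Pool.Agent.R311.DEH (g1 g2 D Tq)
open Pool.Agent.TH212.EH (large)
open Pool.Agent.TH823.Fam (poly_size log_pow_small)

lemma D_nonneg (g : ℕ → ℝ) (N : ℕ) (Q : ℝ) : 0 ≤ D g N Q := sum_nonneg fun _ _ => abs_nonneg _

lemma markov' (I : Finset ℕ) (F : ℕ → ℝ) (hF : ∀ m ∈ I, 0 ≤ F m) (t b : ℝ) (ht : 0 < t) (P : ℕ → Prop) [DecidablePred P]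
    (hP : ∀ m ∈ I, P m → t < F m) (hb : ∑ m ∈ I, F m ≤ b) : ((I.filter P).card : ℝ) ≤ b / t := by
  rw [le_div_iff₀ ht]
  refine le_trans ?_ hb
  calc ((I.filter P).card : ℝ) * t = ∑ m ∈ I.filter P, t := by rw [sum_const, nsmul_eq_mul]
    _ ≤ ∑ m ∈ I.filter P, F m := sum_le_sum fun m hm => by
        rw [mem_filter] at hm
        exact (hP m hm.1 hm.2).le
    _ ≤ ∑ m ∈ I, F m := sum_le_sum_of_subset_of_nonneg (filter_subset _ _) fun m hm _ => hF m hm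

/-- the level -/
lemma lev_num (θ : ℝ) (h0 : 0 < θ) (h1 : θ ≤ 1) (d s B2 x Q : ℕ) (hB2 : 1 ≤ B2) (hx : 2 ≤ x) (hs : (d : ℝ) + 1 ≤ s * (1 - θ * d))
    (hL : (s : ℝ) * Real.log B2 ≤ Real.log x) (hQ : (Q : ℝ) ≤ ((B2 * x ^ d : ℕ) : ℝ) ^ θ) :
    (Q : ℝ) ^ s * (x : ℝ) ^ d ≤ (x : ℝ) ^ s := by
  have hx0 : (0 : ℝ) < x := by exact_mod_cast (by omega : 0 < x)
  have hB0 : (0 : ℝ) < B2 := by exact_mod_cast hB2
  have hlx : 0 < Real.log (x : ℝ) := Real.log_pos (by exact_mod_cast (by omega : 1 < x))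
  rcases Nat.eq_zero_or_pos Q with hQ0 | hQ0
  · subst hQ0
    have hs0 : s ≠ 0 := by
      rintro rfl
      simp only [Nat.cast_zero, zero_mul] at hs
      have : (0 : ℝ) ≤ d := Nat.cast_nonneg _
      linarith
    rw [Nat.cast_zero, zero_pow hs0, zero_mul]
    positivity
  · have hQr : (0 : ℝ) < Q := by exact_mod_cast hQ0
    have hXr : (0 : ℝ) < ((B2 * x ^ d : ℕ) : ℝ) := by
      push_cast
      positivity
    have h2 : Real.log (Q : ℝ) ≤ θ * (Real.log B2 + d * Real.log x) := by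
      have h3 := Real.log_le_log hQr hQ
      rw [Real.log_rpow hXr] at h3
      push_cast at h3
      rw [Real.log_mul hB0.ne' (by positivity), Real.log_pow] at h3
      exact h3
    rw [← Real.log_le_log_iff (by positivity) (by positivity), Real.log_mul (by positivity) (by positivity), Real.log_pow, Real.log_pow, Real.log_pow]
    have hlB : 0 ≤ Real.log (B2 : ℝ) := Real.log_natCast_nonneg B2
    have hs0 : (0 : ℝ) ≤ s := Nat.cast_nonneg _
    calc (s : ℝ) * Real.log Q + d * Real.log x ≤ s * (θ * (Real.log B2 + d * Real.log x)) + d * Real.log x := by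
          have := mul_le_mul_of_nonneg_left h2 hs0
          linarith
      _ = θ * (s * Real.log B2) + (s * θ * d + d) * Real.log x := by ring
      _ ≤ 1 * Real.log x + (s * θ * d + d) * Real.log x := by
          have h5 : θ * (s * Real.log B2) ≤ 1 * Real.log x := mul_le_mul h1 hL (by positivity) (by norm_num)
          linarith
      _ = (s * θ * d + d + 1) * Real.log x := by ring
      _ ≤ s * Real.log x := by
          apply mul_le_mul_of_nonneg_right _ hlx.le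
          linarith

open Classical in
/-- **The discrepancies at all integers near almost all values of a polynomial.** -/
theorem poly_abs (f : ℤ[X]) (hd : 2 ≤ f.natDegree) (θ : ℝ) (h0 : 0 < θ) (hθ : θ * f.natDegree < 1) (A U W B : ℕ) :
    ∃ x0 : ℕ, ∀ x : ℕ, x0 ≤ x → ∀ c : ℤ, |c| ≤ B * (x : ℤ) ^ f.natDegree →
    (((Icc 1 x).filter (fun m : ℕ => ∃ N : ℕ, |(N : ℝ) - ((c + f.eval (m : ℤ) : ℤ) : ℝ)| ≤ Real.log x ^ W ∧
      ∃ g : ℕ → ℝ, (g = g1 ∨ g = g2) ∧ (N : ℝ) / Real.log N ^ A < D g N ((N : ℝ) ^ θ))).card : ℝ) ≤ x / Real.log x ^ U := by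
  obtain ⟨j, hj⟩ : ∃ j, f.natDegree = j + 2 := ⟨f.natDegree - 2, by omega⟩
  obtain ⟨b, n0, hsmall⟩ := small_val f (by omega) (U + W + 2)
  rw [hj] at hθ hsmall ⊢
  have hθ1 : θ ≤ 1 := by
    have h2 : (2 : ℝ) ≤ ((j + 2 : ℕ) : ℝ) := by exact_mod_cast (by omega : 2 ≤ j + 2)
    nlinarith
  obtain ⟨s, hs1⟩ : ∃ s : ℕ, (((j + 2 : ℕ) : ℝ) + 1) / (1 - θ * (j + 2 : ℕ)) ≤ s := exists_nat_ge _
  have hθ2 : 0 < 1 - θ * ((j + 2 : ℕ) : ℝ) := by linarith
  have hs2 : ((j + 2 : ℕ) : ℝ) + 1 ≤ s * (1 - θ * (j + 2 : ℕ)) := (div_le_iff₀ hθ2).1 hs1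
  have hs : 2 ≤ s := by
    have h2 : (2 : ℝ) ≤ s := by
      have h3 : s * (1 - θ * ((j + 2 : ℕ) : ℝ)) ≤ s := by
        have : (0 : ℝ) ≤ s := Nat.cast_nonneg _
        have h4 : 0 ≤ θ * ((j + 2 : ℕ) : ℝ) := by positivity
        nlinarith
      have h4 : (2 : ℝ) ≤ ((j + 2 : ℕ) : ℝ) := by exact_mod_cast (by omega : 2 ≤ j + 2)
      linarith
    exact_mod_cast h2
  obtain ⟨Af0, hAf0⟩ := poly_size f
  obtain ⟨Af, hAf⟩ : ∃ Af, Af = Af0 + 1 := ⟨_, rfl⟩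
  obtain ⟨B2, hB2⟩ : ∃ B2, B2 = B + Af + 1 := ⟨_, rfl⟩
  obtain ⟨A', hA'⟩ : ∃ A', A' = b + A + 1 := ⟨_, rfl⟩
  obtain ⟨E, hE⟩ : ∃ E, E = A' + (U + W + 2) := ⟨_, rfl⟩
  obtain ⟨n1, hdisc⟩ := disc_sum f j hj Af s B2 E (by omega) hs
  obtain ⟨n2, hlp⟩ := log_pow_small (W + b + 2)
  obtain ⟨n3, h3⟩ := large (max (max 7 (1 + Real.log B2)) (max (s * Real.log B2) (((j + 4 : ℕ) : ℝ) ^ A))) (max (max n0 n1) (max n2 3))
  refine ⟨n3, fun x hx c hc => ?_⟩
  obtain ⟨hxn, hLK, hL1⟩ := h3 x hx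
  have hx_0 : n0 ≤ x := ((le_max_left _ _).trans (le_max_left _ _)).trans hxn
  have hx_1 : n1 ≤ x := ((le_max_right _ _).trans (le_max_left _ _)).trans hxn
  have hx_2 : n2 ≤ x := ((le_max_left _ _).trans (le_max_right _ _)).trans hxn
  have hx3 : 3 ≤ x := ((le_max_right _ _).trans (le_max_right _ _)).trans hxn
  have hlog := hlp x hx_2
  have hsm := hsmall x hx_0
  have hds := hdisc x hx_1
  obtain ⟨L, hL⟩ : ∃ L, L = Real.log (x : ℝ) := ⟨_, rfl⟩
  rw [← hL] at hLK hL1 hlog hsm hds ⊢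
  have k1 : 7 ≤ L := ((le_max_left _ _).trans (le_max_left _ _)).trans hLK
  have k2 : 1 + Real.log (B2 : ℝ) ≤ L := ((le_max_right _ _).trans (le_max_left _ _)).trans hLK
  have k3 : (s : ℝ) * Real.log B2 ≤ L := ((le_max_left _ _).trans (le_max_right _ _)).trans hLK
  have k4 : ((j + 4 : ℕ) : ℝ) ^ A ≤ L := ((le_max_right _ _).trans (le_max_right _ _)).trans hLK
  have hL0 : 0 < L := by linarith
  have hx0 : (0 : ℝ) < x := by exact_mod_cast (by omega : 0 < x)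
  have hx1r : (1 : ℝ) ≤ x := by exact_mod_cast (by omega : 1 ≤ x)
  have hxd0 : (0 : ℝ) < (x : ℝ) ^ (j + 2) := by positivity
  obtain ⟨X, hX⟩ : ∃ X : ℕ, X = B2 * x ^ (j + 2) := ⟨_, rfl⟩
  have hXr : (X : ℝ) = B2 * (x : ℝ) ^ (j + 2) := by rw [hX]; push_cast; ring
  have hB2r : (1 : ℝ) ≤ B2 := by exact_mod_cast (by omega : 1 ≤ B2)
  have hX1 : (x : ℝ) ^ (j + 2) ≤ X := by rw [hXr]; exact le_mul_of_one_le_left hxd0.le hB2r
  have hX0 : (0 : ℝ) < X := hxd0.trans_le hX1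
  obtain ⟨Q, hQ⟩ : ∃ Q, Q = ⌊(X : ℝ) ^ θ⌋₊ := ⟨_, rfl⟩
  have hQs : (Q : ℝ) ^ s * (x : ℝ) ^ (j + 2) ≤ (x : ℝ) ^ s := by
    apply lev_num θ h0 hθ1 (j + 2) s B2 x Q (by omega) (by omega) hs2 (by rw [← hL]; exact k3)
    rw [← hX, hQ]
    exact Nat.floor_le (by positivity)
  have hQx : Q ≤ x := by
    have h4 : (Q : ℝ) ^ s ≤ (x : ℝ) ^ s := by
      refine le_trans ?_ hQs
      exact le_mul_of_one_le_right (by positivity) (one_le_pow₀ hx1r)
    have h5 : (Q : ℝ) ≤ x := (pow_le_pow_iff_left₀ (Nat.cast_nonneg _) hx0.le (by omega)).1 h4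
    exact_mod_cast h5
  have hfB : ∀ m ∈ Icc 1 (x : ℤ), |f.eval m| ≤ Af * (x : ℤ) ^ (j + 2) := by
    intro m hm
    rw [mem_Icc] at hm
    have h4 := hAf0 x (by omega) m.toNat (by rw [mem_Icc]; omega)
    rw [Int.toNat_of_nonneg (by omega), hj] at h4
    refine h4.trans ?_
    rw [hAf]
    apply mul_le_mul_of_nonneg_right _ (by positivity)
    push_cast
    linarith
  obtain ⟨w, hw⟩ : ∃ w : ℕ, w = ⌈L ^ W⌉₊ := ⟨_, rfl⟩
  have hLW1 : 1 ≤ L ^ W := one_le_pow₀ hL1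
  have hwle : (w : ℝ) ≤ 2 * L ^ W := by
    have h7 := (Nat.ceil_lt_add_one (show 0 ≤ L ^ W by positivity)).le
    rw [hw]
    linarith
  have hwge : L ^ W ≤ w := by rw [hw]; exact Nat.le_ceil _
  have hLWx : 4 * L ^ (b + 2) * L ^ W ≤ x := by
    calc 4 * L ^ (b + 2) * L ^ W = 4 * L ^ (W + b + 2) := by rw [mul_assoc, ← pow_add]; congr 2; omega
      _ ≤ x := hlog
  have hwx : (w : ℝ) ≤ (x : ℝ) ^ (j + 2) := by
    have h4 : (x : ℝ) ≤ (x : ℝ) ^ (j + 2) := le_self_pow₀ hx1r (by omega)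
    have h5 : 1 ≤ L ^ (b + 2) := one_le_pow₀ hL1
    nlinarith
  have hbx : 4 * L ^ 2 ≤ (x : ℝ) ^ (j + 2) / L ^ b := by
    rw [le_div_iff₀ (by positivity)]
    have h4 : (x : ℝ) ≤ (x : ℝ) ^ (j + 2) := le_self_pow₀ hx1r (by omega)
    have h5 : 4 * L ^ 2 * L ^ b = 4 * L ^ (b + 2) := by rw [pow_add]; ring
    rw [h5]
    have h6 : 0 ≤ 4 * L ^ (b + 2) := by positivity
    nlinarith
  obtain ⟨H, hH⟩ : ∃ H : Finset ℤ, H = Icc (-(w : ℤ)) w := ⟨_, rfl⟩
  have hHc : (H.card : ℝ) ≤ L ^ (W + 1) := by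
    have h4 : H.card = 2 * w + 1 := by rw [hH]; exact cardI' w
    rw [h4]
    push_cast
    rw [pow_succ]
    nlinarith
  -- the exceptional sets
  obtain ⟨Sm, hSm⟩ : ∃ Sm : ℤ → Finset ℕ, Sm = fun h => (Icc 1 x).filter (fun m : ℕ =>
    ((|c + h + f.eval (m : ℤ)| : ℤ) : ℝ) ≤ (x : ℝ) ^ (j + 2) / L ^ b) := ⟨_, rfl⟩
  obtain ⟨Ih, hIh⟩ : ∃ Ih : ℤ → Finset ℕ, Ih = fun h => (Icc 1 x).filter (fun m : ℕ => 1 ≤ c + h + f.eval (m : ℤ)) := ⟨_, rfl⟩
  obtain ⟨Nh, hNh⟩ : ∃ Nh : ℤ → ℕ → ℕ, Nh = fun (h : ℤ) (m : ℕ) => (c + h + f.eval (m : ℤ)).toNat := ⟨_, rfl⟩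
  obtain ⟨Bd, hBd⟩ : ∃ Bd : (ℕ → ℝ) → ℤ → Finset ℕ, Bd = fun g h => (Ih h).filter (fun m : ℕ =>
    (x : ℝ) ^ (j + 2) / L ^ A' < D g (Nh h m) ((Nh h m : ℝ) ^ θ)) := ⟨_, rfl⟩
  have hSmc : ∀ h ∈ H, ((Sm h).card : ℝ) ≤ x / L ^ (U + W + 2) := by
    intro h _
    rw [hSm]
    exact hsm (c + h)
  have hNX : ∀ h ∈ H, ∀ m ∈ Ih h, Nh h m ≤ X := by
    intro h hh m hm
    rw [hIh] at hm
    simp only [mem_filter, mem_Icc] at hm
    rw [hH, mem_Icc, ← abs_le] at hh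
    have h4 : |f.eval (m : ℤ)| ≤ Af * (x : ℤ) ^ (j + 2) := hfB m (by rw [mem_Icc]; omega)
    have h5 : (w : ℤ) ≤ (x : ℤ) ^ (j + 2) := by exact_mod_cast hwx
    have h6 : c + h + f.eval (m : ℤ) ≤ X := by
      have e1 := le_abs_self c
      have e2 := le_abs_self h
      have e3 := le_abs_self (f.eval (m : ℤ))
      rw [hX, hB2]
      push_cast
      nlinarith
    rw [hNh]
    simp only
    omega
  have hBdc : ∀ g : ℕ → ℝ, (g = g1 ∨ g = g2) → ∀ h ∈ H, ((Bd g h).card : ℝ) ≤ x / L ^ (U + W + 2) := by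
    intro g hg h hh
    have h4 := hds X hX1 (by rw [hXr]) hfB Q hQx hQs g hg (c + h) (Ih h) (Nh h) (by rw [hIh]; exact filter_subset _ _) (by
      intro m hm
      rw [hIh] at hm
      simp only [mem_filter, mem_Icc] at hm
      rw [hNh]
      simp only
      rw [Int.toNat_of_nonneg (by omega)]) (hNX h hh) (fun m => (Nh h m : ℝ) ^ θ) (by
      intro m hm
      rw [hQ]
      apply Nat.floor_le_floor
      exact Real.rpow_le_rpow (Nat.cast_nonneg _) (by exact_mod_cast hNX h hh m hm) h0.le)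
    have h5 := markov' (Ih h) (fun m => D g (Nh h m) ((Nh h m : ℝ) ^ θ)) (fun m _ => D_nonneg _ _ _) ((x : ℝ) ^ (j + 2) / L ^ A')
      (x ^ (j + 2) * x / L ^ E) (by positivity) (fun m => (x : ℝ) ^ (j + 2) / L ^ A' < D g (Nh h m) ((Nh h m : ℝ) ^ θ)) (fun m _ hm => hm) h4
    rw [hBd]
    refine h5.trans (le_of_eq ?_)
    rw [hE, pow_add L A' (U + W + 2)]
    field_simp
  obtain ⟨Ex, hEx⟩ : ∃ Ex : Finset ℕ, Ex = (Icc 1 x).filter (fun m : ℕ => ∃ N : ℕ, |(N : ℝ) - ((c + f.eval (m : ℤ) : ℤ) : ℝ)| ≤ L ^ W ∧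
      ∃ g : ℕ → ℝ, (g = g1 ∨ g = g2) ∧ (N : ℝ) / Real.log N ^ A < D g N ((N : ℝ) ^ θ)) := ⟨_, rfl⟩
  rw [← hEx]
  have hsub : Ex ⊆ H.biUnion (fun h => Sm h ∪ (Bd g1 h ∪ Bd g2 h)) := by
    intro m hm
    rw [hEx, mem_filter] at hm
    obtain ⟨hm1, N, hN1, g, hg, hN2⟩ := hm
    obtain ⟨h, hh⟩ : ∃ h : ℤ, h = (N : ℤ) - (c + f.eval (m : ℤ)) := ⟨_, rfl⟩
    have hNeq : c + h + f.eval (m : ℤ) = N := by rw [hh]; ring
    have hhH : h ∈ H := by
      rw [hH, mem_Icc, ← abs_le]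
      have h4 : ((|h| : ℤ) : ℝ) ≤ w := by
        rw [hh]
        push_cast
        push_cast at hN1
        exact hN1.trans hwge
      exact_mod_cast h4
    rw [mem_biUnion]
    refine ⟨h, hhH, ?_⟩
    rw [mem_union]
    by_cases hsmN : ((|c + h + f.eval (m : ℤ)| : ℤ) : ℝ) ≤ (x : ℝ) ^ (j + 2) / L ^ b
    · left
      rw [hSm]
      simp only [mem_filter]
      exact ⟨hm1, hsmN⟩
    · right
      rw [not_le, hNeq] at hsmN
      have hNr : (x : ℝ) ^ (j + 2) / L ^ b < N := by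
        have : ((|(N : ℤ)| : ℤ) : ℝ) = N := by
          rw [abs_of_nonneg (by positivity)]
          simp
        rwa [this] at hsmN
      have hN3 : (3 : ℝ) ≤ N := by nlinarith
      have hmI : m ∈ Ih h := by
        rw [hIh]
        simp only [mem_filter]
        refine ⟨hm1, ?_⟩
        rw [hNeq]
        have : 3 ≤ N := by exact_mod_cast hN3
        omega
      have hNhN : Nh h m = N := by
        rw [hNh]
        simp only
        rw [hNeq]
        simp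
      have hNX' : N ≤ X := by rw [← hNhN]; exact hNX h hhH m hmI
      have hlN : Real.log (N : ℝ) ≤ (j + 4 : ℕ) * L := by
        have e1 : Real.log (N : ℝ) ≤ Real.log X := Real.log_le_log (by linarith) (by exact_mod_cast hNX')
        rw [hXr, Real.log_mul (by positivity) hxd0.ne', Real.log_pow, ← hL] at e1
        push_cast at e1 ⊢
        nlinarith
      have hlN0 : 0 < Real.log (N : ℝ) := Real.log_pos (by linarith)
      have hlow : (x : ℝ) ^ (j + 2) / L ^ A' ≤ (N : ℝ) / Real.log N ^ A := by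
        rw [div_le_div_iff₀ (by positivity) (by positivity)]
        calc (x : ℝ) ^ (j + 2) * Real.log N ^ A ≤ (x : ℝ) ^ (j + 2) * ((j + 4 : ℕ) * L) ^ A := by
              apply mul_le_mul_of_nonneg_left _ hxd0.le
              exact pow_le_pow_left₀ hlN0.le hlN _
          _ = (x : ℝ) ^ (j + 2) / L ^ b * (((j + 4 : ℕ) : ℝ) ^ A * L ^ (b + A)) := by
              rw [mul_pow, pow_add L b A]
              field_simp
          _ ≤ N * (L * L ^ (b + A)) := by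
              apply mul_le_mul hNr.le _ (by positivity) (by linarith)
              exact mul_le_mul_of_nonneg_right k4 (by positivity)
          _ = N * L ^ A' := by rw [hA', pow_succ]; ring
      have hfin : (x : ℝ) ^ (j + 2) / L ^ A' < D g (Nh h m) ((Nh h m : ℝ) ^ θ) := by
        rw [hNhN]
        exact lt_of_le_of_lt hlow hN2
      rw [mem_union]
      rcases hg with rfl | rfl
      · left
        rw [hBd]
        simp only [mem_filter]
        exact ⟨hmI, hfin⟩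
      · right
        rw [hBd]
        simp only [mem_filter]
        exact ⟨hmI, hfin⟩
  have hcard : (Ex.card : ℝ) ≤ ∑ h ∈ H, (3 * (x / L ^ (U + W + 2))) := by
    have h4 : Ex.card ≤ ∑ h ∈ H, (Sm h ∪ (Bd g1 h ∪ Bd g2 h)).card := (card_le_card hsub).trans card_biUnion_le
    have h5 : ((∑ h ∈ H, (Sm h ∪ (Bd g1 h ∪ Bd g2 h)).card : ℕ) : ℝ) ≤ ∑ h ∈ H, (3 * (x / L ^ (U + W + 2))) := by
      push_cast
      apply sum_le_sum
      intro h hh
      have e1 := card_union_le (Sm h) (Bd g1 h ∪ Bd g2 h)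
      have e2 := card_union_le (Bd g1 h) (Bd g2 h)
      have e3 : ((Sm h ∪ (Bd g1 h ∪ Bd g2 h)).card : ℝ) ≤ (Sm h).card + ((Bd g1 h).card + (Bd g2 h).card) := by
        exact_mod_cast (by omega : (Sm h ∪ (Bd g1 h ∪ Bd g2 h)).card ≤ (Sm h).card + ((Bd g1 h).card + (Bd g2 h).card))
      have e4 := hSmc h hh
      have e5 := hBdc g1 (Or.inl rfl) h hh
      have e6 := hBdc g2 (Or.inr rfl) h hh
      linarith
    exact le_trans (by exact_mod_cast h4) h5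
  refine hcard.trans ?_
  rw [sum_const, nsmul_eq_mul]
  calc (H.card : ℝ) * (3 * (x / L ^ (U + W + 2))) ≤ L ^ (W + 1) * (3 * (x / L ^ (U + W + 2))) :=
        mul_le_mul_of_nonneg_right hHc (by positivity)
    _ = 3 / L * (x / L ^ U) := by
        rw [show U + W + 2 = U + (W + 1) + 1 by ring, pow_succ L (U + (W + 1)), pow_add L U (W + 1)]
        field_simp
    _ ≤ 1 * (x / L ^ U) := by
        apply mul_le_mul_of_nonneg_right _ (by positivity)
        rw [div_le_one hL0]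
        linarith
    _ = _ := one_mul _

end Pool.Agent.U856.DE
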