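import Pool.Agent.H373R2.T7.BilE

set_option autoImplicit false

/-! Convolutions along families of integers, split into residue classes. -/

namespace Pool.Agent.U856.DE
open Finset
open Pool.Agent.H807R2.Dav
open Pool.Agent.H373R2.T7

/-- the inequalities of Cauchy and Hölder for three factors -/
lemma holder3 {τ : Type*} (s : Finset τ) (g x y : τ → ℝ) (δ : ℝ) (hg : ∀ t ∈ s, 0 ≤ g t) (hgδ : ∀ t ∈ s, g t ≤ δ)
    (hx : ∀ t ∈ s, 0 ≤ x t) (hy : ∀ t ∈ s, 0 ≤ y t) (p : ℕ) (hp : 1 ≤ p) :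
    (∑ t ∈ s, g t * (√(x t) * √(y t))) ^ (2 * p) ≤
      (∑ t ∈ s, x t) ^ p * ((∑ t ∈ s, g t ^ 2) ^ (p - 1) * (δ ^ 2 * ∑ t ∈ s, y t ^ p)) := by
  have h1 : (∑ t ∈ s, g t * (√(x t) * √(y t))) ^ 2 ≤ (∑ t ∈ s, x t) * ∑ t ∈ s, g t ^ 2 * y t := by
    have h2 := sum_mul_sq_le_sq_mul_sq s (fun t => √(x t)) (fun t => g t * √(y t))
    have h3 : ∑ t ∈ s, √(x t) * (g t * √(y t)) = ∑ t ∈ s, g t * (√(x t) * √(y t)) :=
      sum_congr rfl fun t _ => by ring
    have h4 : ∑ t ∈ s, √(x t) ^ 2 = ∑ t ∈ s, x t := sum_congr rfl fun t ht => Real.sq_sqrt (hx t ht)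
    have h5 : ∑ t ∈ s, (g t * √(y t)) ^ 2 = ∑ t ∈ s, g t ^ 2 * y t :=
      sum_congr rfl fun t ht => by rw [mul_pow, Real.sq_sqrt (hy t ht)]
    rw [h3, h4, h5] at h2
    exact h2
  have hX : 0 ≤ ∑ t ∈ s, x t := sum_nonneg hx
  have hG : 0 ≤ ∑ t ∈ s, g t ^ 2 := sum_nonneg fun _ _ => by positivity
  have hGy : 0 ≤ ∑ t ∈ s, g t ^ 2 * y t := sum_nonneg fun t ht => mul_nonneg (by positivity) (hy t ht)
  have h6 : (∑ t ∈ s, g t ^ 2 * y t) ^ p ≤ (∑ t ∈ s, g t ^ 2) ^ (p - 1) * ∑ t ∈ s, g t ^ 2 * y t ^ p := by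
    rcases hG.eq_or_lt with h0 | h0
    · have h7 : ∀ t ∈ s, g t ^ 2 = 0 := (sum_eq_zero_iff_of_nonneg fun _ _ => by positivity).1 h0.symm
      have h8 : ∑ t ∈ s, g t ^ 2 * y t = 0 := sum_eq_zero fun t ht => by rw [h7 t ht, zero_mul]
      rw [h8, zero_pow (by omega)]
      exact mul_nonneg (by positivity) (sum_nonneg fun t ht => mul_nonneg (by positivity) (pow_nonneg (hy t ht) _))
    · obtain ⟨S, hS⟩ : ∃ S, S = ∑ t ∈ s, g t ^ 2 := ⟨_, rfl⟩
      rw [← hS] at h0 ⊢
      have h7 := Real.pow_arith_mean_le_arith_mean_pow s (fun t => g t ^ 2 / S) y (fun t _ => by positivity) (by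
        rw [← sum_div, ← hS, div_self h0.ne']) hy p
      have h8 : ∑ t ∈ s, g t ^ 2 / S * y t = (∑ t ∈ s, g t ^ 2 * y t) / S := by
        rw [sum_div]
        exact sum_congr rfl fun t _ => by ring
      have h9 : ∑ t ∈ s, g t ^ 2 / S * y t ^ p = (∑ t ∈ s, g t ^ 2 * y t ^ p) / S := by
        rw [sum_div]
        exact sum_congr rfl fun t _ => by ring
      rw [h8, h9, div_pow, div_le_div_iff₀ (by positivity) h0] at h7
      have h10 : S ^ p = S ^ (p - 1) * S := by
        rw [← pow_succ]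
        congr 1
        omega
      rw [h10, ← mul_assoc] at h7
      have h11 := le_of_mul_le_mul_right h7 h0
      linarith
  have h12 : ∑ t ∈ s, g t ^ 2 * y t ^ p ≤ δ ^ 2 * ∑ t ∈ s, y t ^ p := by
    rw [mul_sum]
    apply sum_le_sum
    intro t ht
    exact mul_le_mul_of_nonneg_right (pow_le_pow_left₀ (hg t ht) (hgδ t ht) 2) (pow_nonneg (hy t ht) _)
  rw [pow_mul]
  calc ((∑ t ∈ s, g t * (√(x t) * √(y t))) ^ 2) ^ p ≤ ((∑ t ∈ s, x t) * ∑ t ∈ s, g t ^ 2 * y t) ^ p :=
        pow_le_pow_left₀ (by positivity) h1 p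
    _ = (∑ t ∈ s, x t) ^ p * (∑ t ∈ s, g t ^ 2 * y t) ^ p := mul_pow _ _ _
    _ ≤ _ := by
        apply mul_le_mul_of_nonneg_left _ (by positivity)
        exact h6.trans (mul_le_mul_of_nonneg_left h12 (by positivity))

/-- the identity of Parseval -/
lemma pars {ι : Type*} (I : Finset ι) (C : ι → ℂ) (φ : ι → ℤ) (M : ℕ) (hM : 1 ≤ M)
    (hinj : ∀ i ∈ I, ∀ j ∈ I, (M : ℤ) ∣ φ i - φ j → i = j) :
    ∑ t ∈ range M, ‖∑ i ∈ I, C i * ee ((t : ℝ) * ((φ i : ℝ) / M))‖ ^ 2 = M * ∑ i ∈ I, ‖C i‖ ^ 2 := by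
  have h1 := sq_expand I C φ M hM
  have h2 : ∑ i ∈ I, ∑ j ∈ I, C i * (starRingEnd ℂ) (C j) * (if (M : ℤ) ∣ φ i - φ j then (M : ℂ) else 0) =
      ∑ i ∈ I, (M : ℂ) * ((‖C i‖ ^ 2 : ℝ) : ℂ) := by
    apply sum_congr rfl
    intro i hi
    rw [sum_eq_single i]
    · rw [sub_self, if_pos (dvd_zero _), Complex.mul_conj']
      push_cast
      ring
    · intro j hj hne
      rw [if_neg, mul_zero]
      intro hd
      exact hne (hinj i hi j hj hd).symm
    · intro h; exact absurd hi h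
  rw [h2, ← mul_sum] at h1
  have h3 : (((∑ t ∈ range M, ‖∑ i ∈ I, C i * ee ((t : ℝ) * ((φ i : ℝ) / M))‖ ^ 2 : ℝ)) : ℂ) =
      ((M * ∑ i ∈ I, ‖C i‖ ^ 2 : ℝ) : ℂ) := by
    rw [h1]
    push_cast
    rfl
  exact_mod_cast h3

/-- the sum of the family over one class -/
noncomputable def SS {σ : Type*} (s : Finset σ) (c : σ → ℝ) (v : σ → ℤ) (κ : σ → ℕ) (q R a : ℕ) (t : ℕ) : ℂ :=
  ∑ i ∈ s.filter (fun i => κ i = a), (c i : ℂ) * ee ((t : ℝ) * (((-(v i / q) : ℤ) : ℝ) / R))

/-- the twisted convolution -/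
noncomputable def TT (Lam g : ℕ → ℝ) (q N : ℕ) : ℝ :=
  ∑ n ∈ (Ico 1 N).filter (fun n => n ≡ N [MOD q]), Lam n * g (N - n)

/-- convolution of a sequence with the multiples of `q` along a family, in terms of the moments of the exponential sums of the
family over classes -/
theorem conv_bound {σ : Type*} (s : Finset σ) (c : σ → ℝ) (v : σ → ℤ) (N : σ → ℕ) (hv : ∀ i ∈ s, v i = N i) (κ : σ → ℕ) (A : ℕ)
    (hκ : ∀ i ∈ s, κ i < A) (β : ℕ → ℕ) (q : ℕ) (hq : 1 ≤ q) (hβ : ∀ i ∈ s, N i % q = β (κ i)) (X : ℕ) (hN : ∀ i ∈ s, N i ≤ X)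
    (Lam g : ℕ → ℝ) (δ V G2 J : ℝ) (hδ : ∀ α : ℝ, ‖∑ r ∈ Icc 1 (X / q), (g (q * r) : ℂ) * ee ((r : ℝ) * α)‖ ≤ δ)
    (hV : ∑ a ∈ range A, ∑ n ∈ (Icc 1 X).filter (fun n => n % q = β a), Lam n ^ 2 ≤ V)
    (hG : ∑ r ∈ Icc 1 (X / q), g (q * r) ^ 2 ≤ G2) (R : ℕ) (hR : 2 * (X / q) < R) (p : ℕ) (hp : 1 ≤ p)
    (hJ : ∑ t ∈ range R, (∑ a ∈ range A, ‖SS s c v κ q R a t‖ ^ 2) ^ p ≤ R * J) :
    |∑ i ∈ s, c i * TT Lam g q (N i)| ^ (2 * p) ≤ V ^ p * (G2 ^ (p - 1) * (δ ^ 2 * J)) := by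
  have hR1 : 1 ≤ R := by omega
  have hR0 : (0 : ℝ) < R := by exact_mod_cast hR1
  obtain ⟨Y, hY⟩ : ∃ Y, Y = X / q := ⟨_, rfl⟩
  rw [← hY] at hδ hG hR
  obtain ⟨GS, hGS⟩ : ∃ GS : ℕ → ℂ, GS = fun t : ℕ => ∑ r ∈ Icc 1 Y, (g (q * r) : ℂ) * ee ((t : ℝ) * (((r : ℤ) : ℝ) / R)) := ⟨_, rfl⟩
  obtain ⟨LS, hLS⟩ : ∃ LS : ℕ → ℕ → ℂ, LS = fun a t : ℕ => ∑ n ∈ (Icc 1 X).filter (fun n => n % q = β a),
      (Lam n : ℂ) * ee ((t : ℝ) * ((((n / q : ℕ) : ℤ) : ℝ) / R)) := ⟨_, rfl⟩
  -- the Fourier identity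
  have hid : (R : ℂ) * ((∑ i ∈ s, c i * TT Lam g q (N i) : ℝ) : ℂ) =
      ∑ t ∈ range R, GS t * ∑ a ∈ range A, LS a t * SS s c v κ q R a t := by
    have h1 : ∀ t ∈ range R, GS t * ∑ a ∈ range A, LS a t * SS s c v κ q R a t =
        ∑ a ∈ range A, ∑ i ∈ s.filter (fun i => κ i = a), ∑ n ∈ (Icc 1 X).filter (fun n => n % q = β a), ∑ r ∈ Icc 1 Y,
          (c i : ℂ) * Lam n * g (q * r) * ee ((t : ℝ) * (((((n / q : ℕ) : ℤ) + r - v i / q : ℤ) : ℝ) / R)) := by
      intro t _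
      rw [mul_sum]
      apply sum_congr rfl
      intro a _
      rw [hGS, hLS]
      unfold SS
      simp only
      rw [mul_sum, mul_sum]
      apply sum_congr rfl
      intro i _
      rw [sum_mul]
      symm
      rw [sum_comm]
      symm
      apply sum_congr rfl
      intro r _
      rw [sum_mul, mul_sum]
      apply sum_congr rfl
      intro n _
      have h2 : ee ((t : ℝ) * (((((n / q : ℕ) : ℤ) + r - v i / q : ℤ) : ℝ) / R)) =
          ee ((t : ℝ) * ((((n / q : ℕ) : ℤ) : ℝ) / R)) * ee ((t : ℝ) * (((r : ℤ) : ℝ) / R)) * ee ((t : ℝ) * (((-(v i / q) : ℤ) : ℝ) / R)) := by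
        rw [← ee_add, ← ee_add]
        congr 1
        push_cast
        ring
      rw [h2]
      ring
    rw [sum_congr rfl h1, sum_comm]
    have h2 : ∀ a ∈ range A, ∑ t ∈ range R, ∑ i ∈ s.filter (fun i => κ i = a), ∑ n ∈ (Icc 1 X).filter (fun n => n % q = β a), ∑ r ∈ Icc 1 Y,
        (c i : ℂ) * Lam n * g (q * r) * ee ((t : ℝ) * (((((n / q : ℕ) : ℤ) + r - v i / q : ℤ) : ℝ) / R)) =
        ∑ i ∈ s.filter (fun i => κ i = a), (R : ℂ) * ((c i * TT Lam g q (N i) : ℝ) : ℂ) := by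
      intro a _
      rw [sum_comm]
      apply sum_congr rfl
      intro i hi
      rw [mem_filter] at hi
      have hvi := hv i hi.1
      have hNi := hN i hi.1
      have hβi : N i % q = β a := by rw [hβ i hi.1, hi.2]
      rw [sum_comm]
      have h3 : ∀ n ∈ (Icc 1 X).filter (fun n => n % q = β a), ∑ t ∈ range R, ∑ r ∈ Icc 1 Y,
          (c i : ℂ) * Lam n * g (q * r) * ee ((t : ℝ) * (((((n / q : ℕ) : ℤ) + r - v i / q : ℤ) : ℝ) / R)) =
          if n < N i then (R : ℂ) * ((c i * (Lam n * g (N i - n)) : ℝ) : ℂ) else 0 := by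
        intro n hn
        rw [mem_filter, mem_Icc] at hn
        rw [sum_comm]
        have h4 : ∀ r ∈ Icc 1 Y, ∑ t ∈ range R,
            (c i : ℂ) * Lam n * g (q * r) * ee ((t : ℝ) * (((((n / q : ℕ) : ℤ) + r - v i / q : ℤ) : ℝ) / R)) =
            if n + q * r = N i then (R : ℂ) * ((c i * (Lam n * g (N i - n)) : ℝ) : ℂ) else 0 := by
          intro r hr
          rw [mem_Icc] at hr
          rw [← mul_sum, orth R hR1]
          have hvq : v i / q = ((N i / q : ℕ) : ℤ) := by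
            rw [hvi]
            push_cast
            rfl
          have hnY : n / q ≤ Y := by rw [hY]; exact Nat.div_le_div_right hn.1.2
          have hNY : N i / q ≤ Y := by rw [hY]; exact Nat.div_le_div_right hNi
          have e1 := Nat.div_add_mod n q
          have e2 := Nat.div_add_mod (N i) q
          rw [hn.2] at e1
          rw [hβi] at e2
          rw [hvq]
          generalize n / q = a1 at hnY e1 ⊢
          generalize N i / q = a2 at hNY e2 ⊢
          by_cases h5 : n + q * r = N i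
          · have h6 : a2 = a1 + r := by
              have h7 : q * a2 = q * (a1 + r) := by
                rw [mul_add]; omega
              exact Nat.eq_of_mul_eq_mul_left hq h7
            rw [if_pos h5, if_pos]
            · have h8 : N i - n = q * r := by omega
              rw [h8]
              push_cast
              ring
            · rw [h6]
              push_cast
              simp
          · rw [if_neg h5, if_neg, mul_zero]
            intro hd
            have h6 : |(a1 : ℤ) + r - (a2 : ℤ)| < R := by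
              rw [abs_lt]
              constructor <;> omega
            have h7 := Int.eq_zero_of_abs_lt_dvd hd h6
            have h8 : a2 = a1 + r := by omega
            apply h5
            rw [h8, mul_add] at e2
            omega
        rw [sum_congr rfl h4]
        by_cases h5 : n < N i
        · rw [if_pos h5]
          have h6 : q ∣ N i - n := by
            rw [← Nat.modEq_iff_dvd' h5.le]
            show n % q = N i % q
            rw [hn.2, hβi]
          obtain ⟨r₀, hr₀⟩ := h6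
          rw [sum_eq_single r₀]
          · rw [if_pos (by omega)]
          · intro r _ hne
            rw [if_neg]
            intro h7
            apply hne
            have h8 : q * r = q * r₀ := by omega
            exact Nat.eq_of_mul_eq_mul_left hq h8
          · intro hr
            exfalso
            apply hr
            rw [mem_Icc]
            have h7 : 1 ≤ r₀ := by
              by_contra hcon
              have : r₀ = 0 := by omega
              subst this
              omega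
            refine ⟨h7, ?_⟩
            rw [hY, Nat.le_div_iff_mul_le hq]
            rw [mul_comm]
            omega
        · rw [if_neg h5]
          apply sum_eq_zero
          intro r hr
          rw [mem_Icc] at hr
          rw [if_neg]
          intro h6
          have : 1 ≤ q * r := Nat.mul_pos hq hr.1
          omega
      rw [sum_congr rfl h3, ← sum_filter, filter_filter]
      unfold TT
      push_cast
      rw [mul_sum, mul_sum]
      have h5 : (Icc 1 X).filter (fun n => n % q = β a ∧ n < N i) = (Ico 1 (N i)).filter (fun n => n ≡ N i [MOD q]) := by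
        ext n
        rw [mem_filter, mem_filter, mem_Icc, mem_Ico]
        have h6 : n ≡ N i [MOD q] ↔ n % q = β a := by
          show n % q = N i % q ↔ _
          rw [hβi]
        rw [h6]
        omega
      rw [h5]
    rw [sum_congr rfl h2]
    have h3 : ∀ a ∈ range A, ∑ i ∈ s.filter (fun i => κ i = a), (R : ℂ) * ((c i * TT Lam g q (N i) : ℝ) : ℂ) =
        ∑ i ∈ s with κ i = a, (R : ℂ) * ((c i * TT Lam g q (N i) : ℝ) : ℂ) := fun _ _ => rfl
    rw [sum_fiberwise_of_maps_to (fun i hi => mem_range.2 (hκ i hi)), ← mul_sum]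
    push_cast
    rfl
  -- the pointwise bound
  have hpt : (R : ℝ) * |∑ i ∈ s, c i * TT Lam g q (N i)| ≤ ∑ t ∈ range R, ‖GS t‖ *
      (√(∑ a ∈ range A, ‖LS a t‖ ^ 2) * √(∑ a ∈ range A, ‖SS s c v κ q R a t‖ ^ 2)) := by
    have h1 : (R : ℝ) * |∑ i ∈ s, c i * TT Lam g q (N i)| = ‖(R : ℂ) * ((∑ i ∈ s, c i * TT Lam g q (N i) : ℝ) : ℂ)‖ := by
      rw [norm_mul, Complex.norm_real, Complex.norm_natCast, Real.norm_eq_abs]
    rw [h1, hid]
    refine (norm_sum_le _ _).trans (sum_le_sum fun t _ => ?_)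
    rw [norm_mul]
    apply mul_le_mul_of_nonneg_left _ (norm_nonneg _)
    refine (norm_sum_le _ _).trans ?_
    have h2 := sum_mul_sq_le_sq_mul_sq (range A) (fun a => ‖LS a t‖) (fun a => ‖SS s c v κ q R a t‖)
    have h3 : ∑ a ∈ range A, ‖LS a t * SS s c v κ q R a t‖ = ∑ a ∈ range A, ‖LS a t‖ * ‖SS s c v κ q R a t‖ :=
      sum_congr rfl fun a _ => norm_mul _ _
    rw [h3, ← Real.sqrt_mul (sum_nonneg fun _ _ => by positivity)]
    exact Real.le_sqrt_of_sq_le h2
  -- Parseval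
  have hLSq : ∑ t ∈ range R, ∑ a ∈ range A, ‖LS a t‖ ^ 2 ≤ R * V := by
    rw [sum_comm]
    refine le_trans (le_of_eq ?_) (mul_le_mul_of_nonneg_left hV hR0.le)
    rw [mul_sum]
    apply sum_congr rfl
    intro a _
    rw [hLS]
    rw [pars _ _ (fun n => ((n / q : ℕ) : ℤ)) R hR1]
    · congr 1
      apply sum_congr rfl
      intro n _
      rw [Complex.norm_real, Real.norm_eq_abs, sq_abs]
    · intro i hi j hj hd
      rw [mem_filter, mem_Icc] at hi hj
      have h1 : i / q ≤ Y := by rw [hY]; exact Nat.div_le_div_right hi.1.2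
      have h2 : j / q ≤ Y := by rw [hY]; exact Nat.div_le_div_right hj.1.2
      have e1 := Nat.div_add_mod i q
      have e2 := Nat.div_add_mod j q
      rw [hi.2] at e1
      rw [hj.2] at e2
      generalize i / q = a1 at h1 e1 hd
      generalize j / q = a2 at h2 e2 hd
      have h3 : |(a1 : ℤ) - (a2 : ℤ)| < R := by
        rw [abs_lt]; constructor <;> omega
      have h4 := Int.eq_zero_of_abs_lt_dvd hd h3
      have h5 : a1 = a2 := by omega
      rw [h5] at e1
      omega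
  have hGSq : ∑ t ∈ range R, ‖GS t‖ ^ 2 ≤ R * G2 := by
    refine le_trans (le_of_eq ?_) (mul_le_mul_of_nonneg_left hG hR0.le)
    rw [hGS]
    rw [pars _ _ (fun r : ℕ => (r : ℤ)) R hR1]
    · congr 1
      apply sum_congr rfl
      intro n _
      rw [Complex.norm_real, Real.norm_eq_abs, sq_abs]
    · intro i hi j hj hd
      rw [mem_Icc] at hi hj
      have h3 : |(i : ℤ) - (j : ℤ)| < R := by
        rw [abs_lt]; constructor <;> omega
      have h4 := Int.eq_zero_of_abs_lt_dvd hd h3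
      omega
  have hGδ : ∀ t ∈ range R, ‖GS t‖ ≤ δ := by
    intro t _
    have h1 := hδ ((t : ℝ) / R)
    rw [hGS]
    refine le_trans (le_of_eq ?_) h1
    congr 1
    apply sum_congr rfl
    intro r _
    congr 2
    push_cast
    ring
  have hV0 : 0 ≤ V := le_trans (sum_nonneg fun _ _ => sum_nonneg fun _ _ => by positivity) hV
  have hG0 : 0 ≤ G2 := le_trans (sum_nonneg fun _ _ => by positivity) hG
  have hJ0 : 0 ≤ (R : ℝ) * J := le_trans (sum_nonneg fun _ _ => pow_nonneg (sum_nonneg fun _ _ => by positivity) _) hJ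
  have h1 := holder3 (range R) (fun t => ‖GS t‖) (fun t => ∑ a ∈ range A, ‖LS a t‖ ^ 2)
    (fun t => ∑ a ∈ range A, ‖SS s c v κ q R a t‖ ^ 2) δ (fun _ _ => norm_nonneg _) hGδ
    (fun _ _ => sum_nonneg fun _ _ => by positivity) (fun _ _ => sum_nonneg fun _ _ => by positivity) p hp
  have h2 : ((R : ℝ) * |∑ i ∈ s, c i * TT Lam g q (N i)|) ^ (2 * p) ≤
      (R * V) ^ p * ((R * G2) ^ (p - 1) * (δ ^ 2 * (R * J))) := by
    refine (pow_le_pow_left₀ (by positivity) hpt (2 * p)).trans (h1.trans ?_)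
    have a1 : 0 ≤ ∑ t ∈ range R, ∑ a ∈ range A, ‖LS a t‖ ^ 2 := sum_nonneg fun _ _ => sum_nonneg fun _ _ => by positivity
    have a2 : 0 ≤ ∑ t ∈ range R, ‖GS t‖ ^ 2 := sum_nonneg fun _ _ => by positivity
    have a3 : 0 ≤ ∑ t ∈ range R, (∑ a ∈ range A, ‖SS s c v κ q R a t‖ ^ 2) ^ p :=
      sum_nonneg fun _ _ => pow_nonneg (sum_nonneg fun _ _ => by positivity) _
    apply mul_le_mul (pow_le_pow_left₀ a1 hLSq p) _ (by positivity) (by positivity)
    apply mul_le_mul (pow_le_pow_left₀ a2 hGSq _) _ (by positivity) (by positivity)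
    exact mul_le_mul_of_nonneg_left hJ (by positivity)
  have h3 : (R * V) ^ p * ((R * G2) ^ (p - 1) * (δ ^ 2 * (R * J))) =
      (R : ℝ) ^ (2 * p) * (V ^ p * (G2 ^ (p - 1) * (δ ^ 2 * J))) := by
    have h4 : (R : ℝ) ^ (2 * p) = R ^ p * (R ^ (p - 1) * R) := by
      rw [← pow_succ, ← pow_add]
      congr 1
      omega
    rw [h4, mul_pow, mul_pow]
    ring
  rw [h3, mul_pow] at h2
  exact le_of_mul_le_mul_left h2 (by positivity)

end Pool.Agent.U856.DE
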