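import Pool.Agent.U856.DE.D9
import Pool.Agent.TH823.Fam.Fam2

set_option autoImplicit false

/-! Small values of polynomials; the first moment of the discrepancies. -/

namespace Pool.Agent.U856.DE
open Finset Polynomial
open Pool.Agent.R311.DEH (g1 g2 D Tq)
open Pool.Agent.TH212.EH (tau_pow_div large)
open Pool.Agent.H373R2.T7 (energy)
open Pool.Agent.TH823.Fam (energy_poly')

/-- the inequality of Cauchy for the fibres of a map -/
lemma fib_sq {α : Type*} [DecidableEq α] (S : Finset α) (φ : α → ℤ) (V : Finset ℤ) (h : ∀ a ∈ S, φ a ∈ V) :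
    S.card ^ 2 ≤ V.card * ((S ×ˢ S).filter (fun q => φ q.1 = φ q.2)).card := by
  have h1 : S.card = ∑ v ∈ V, (S.filter (fun a => φ a = v)).card := card_eq_sum_card_fiberwise h
  have h2 : ((S ×ˢ S).filter (fun q => φ q.1 = φ q.2)).card = ∑ v ∈ V, (S.filter (fun a => φ a = v)).card ^ 2 := by
    rw [card_eq_sum_card_fiberwise (f := fun q : α × α => φ q.1) (t := V)]
    · apply sum_congr rfl
      intro v _
      rw [sq, ← card_product]
      congr 1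
      ext q
      simp only [mem_filter, mem_product]
      constructor
      · rintro ⟨⟨⟨a1, a2⟩, a3⟩, a4⟩
        exact ⟨⟨a1, a4⟩, a2, by rw [← a3, a4]⟩
      · rintro ⟨⟨a1, a4⟩, a2, a3⟩
        exact ⟨⟨⟨a1, a2⟩, by rw [a4, a3]⟩, a4⟩
    · intro q hq
      rw [mem_coe, mem_filter, mem_product] at hq
      exact h _ hq.1.1
  rw [h2]
  conv_lhs => rw [h1]
  exact sq_sum_le_card_mul_sum_sq

open Classical in
/-- few small values -/
lemma small_val (f : ℤ[X]) (hd : 1 ≤ f.natDegree) (U : ℕ) : ∃ b x0 : ℕ, ∀ x : ℕ, x0 ≤ x → ∀ c : ℤ,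
    (((Icc 1 x).filter (fun m : ℕ => ((|c + f.eval (m : ℤ)| : ℤ) : ℝ) ≤ (x : ℝ) ^ f.natDegree / Real.log x ^ b)).card : ℝ) ≤ x / Real.log x ^ U := by
  obtain ⟨p, C, hC, hE⟩ := energy_poly' f hd
  obtain ⟨n1, h1⟩ := Pool.Agent.TH823.Fam.log_pow_small (2 * p * U + 1)
  obtain ⟨n2, h2⟩ := large (max 1 ((2 * p + 1) * C)) (max n1 3)
  refine ⟨2 * p * U + 1, n2, fun x hx c => ?_⟩
  obtain ⟨hxn, hLK, hL1⟩ := h2 x hx
  have hlog := h1 x ((le_max_left _ _).trans hxn)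
  have hx3 : 3 ≤ x := (le_max_right _ _).trans hxn
  obtain ⟨L, hL⟩ : ∃ L, L = Real.log (x : ℝ) := ⟨_, rfl⟩
  rw [← hL] at hLK hL1 hlog ⊢
  have hLC : (2 * p + 1) * C ≤ L := (le_max_right _ _).trans hLK
  have hL0 : 0 < L := by linarith
  have hx0 : (0 : ℝ) < x := by exact_mod_cast (by omega : 0 < x)
  obtain ⟨d, hd'⟩ : ∃ d, d = f.natDegree := ⟨_, rfl⟩
  rw [← hd'] at hE hd ⊢
  obtain ⟨S, hS⟩ : ∃ S, S = (Icc 1 x).filter (fun m : ℕ => ((|c + f.eval (m : ℤ)| : ℤ) : ℝ) ≤ (x : ℝ) ^ d / L ^ (2 * p * U + 1)) := ⟨_, rfl⟩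
  rw [← hS]
  obtain ⟨Y, hY⟩ : ∃ Y : ℕ, Y = ⌊(x : ℝ) ^ d / L ^ (2 * p * U + 1)⌋₊ := ⟨_, rfl⟩
  have hYle : (Y : ℝ) ≤ (x : ℝ) ^ d / L ^ (2 * p * U + 1) := by rw [hY]; exact Nat.floor_le (by positivity)
  have hxd : (x : ℝ) ≤ (x : ℝ) ^ d := le_self_pow₀ (by exact_mod_cast (by omega : 1 ≤ x)) (by omega)
  have hone : 1 ≤ (x : ℝ) ^ d / L ^ (2 * p * U + 1) := by
    rw [le_div_iff₀ (by positivity), one_mul]
    have : 0 ≤ L ^ (2 * p * U + 1) := by positivity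
    linarith
  have hmem : ∀ m ∈ S, |c + f.eval (m : ℤ)| ≤ (Y : ℤ) := by
    intro m hm
    rw [hS, mem_filter] at hm
    have h3 : ((|c + f.eval (m : ℤ)|).toNat : ℝ) ≤ (x : ℝ) ^ d / L ^ (2 * p * U + 1) := by
      have h4 : (((|c + f.eval (m : ℤ)|).toNat : ℤ) : ℝ) = ((|c + f.eval (m : ℤ)| : ℤ) : ℝ) := by
        rw [Int.toNat_of_nonneg (abs_nonneg _)]
      rw [← Int.cast_natCast, h4]
      exact hm.2
    have h5 : (|c + f.eval (m : ℤ)|).toNat ≤ Y := by rw [hY]; exact Nat.le_floor h3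
    have h6 := Int.toNat_of_nonneg (abs_nonneg (c + f.eval (m : ℤ)))
    omega
  -- the tuples
  have h3 := fib_sq (Fintype.piFinset fun _ : Fin p => S) (fun w => ∑ i, (c + f.eval ((w i : ℕ) : ℤ))) (Icc (-((p * Y : ℕ) : ℤ)) ((p * Y : ℕ) : ℤ)) (by
    intro w hw
    rw [Fintype.mem_piFinset] at hw
    rw [mem_Icc, ← abs_le]
    refine (abs_sum_le_sum_abs _ _).trans ?_
    refine (sum_le_sum fun i _ => hmem _ (hw i)).trans ?_
    rw [sum_const, card_univ, Fintype.card_fin, nsmul_eq_mul]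
    push_cast
    rfl)
  have h4 : (((Fintype.piFinset fun _ : Fin p => S) ×ˢ (Fintype.piFinset fun _ : Fin p => S)).filter
      (fun q => ∑ i, (c + f.eval ((q.1 i : ℕ) : ℤ)) = ∑ i, (c + f.eval ((q.2 i : ℕ) : ℤ)))).card ≤
      energy p x (fun m => c + f.eval (m : ℤ)) := by
    unfold energy
    apply card_le_card
    intro q hq
    rw [mem_filter, mem_product, Fintype.mem_piFinset, Fintype.mem_piFinset] at hq ⊢
    have hSI : S ⊆ Icc 1 x := by rw [hS]; exact filter_subset _ _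
    exact ⟨⟨fun i => hSI (hq.1.1 i), fun i => hSI (hq.1.2 i)⟩, hq.2⟩
  rw [Fintype.card_piFinset, prod_const, card_univ, Fintype.card_fin, Int.card_Icc] at h3
  have h5 : S.card ^ p ^ 1 = S.card ^ p := by rw [pow_one]
  have h6 : (((p * Y : ℕ) : ℤ) + 1 - -((p * Y : ℕ) : ℤ)).toNat = 2 * (p * Y) + 1 := by omega
  rw [h6] at h3
  have h7 : (S.card : ℝ) ^ (2 * p) ≤ (2 * (p * Y) + 1) * (energy p x (fun m => c + f.eval (m : ℤ)) : ℝ) := by
    have h8 := h3.trans (Nat.mul_le_mul_left _ h4)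
    have h9 : (((S.card ^ p) ^ 2 : ℕ) : ℝ) ≤ (((2 * (p * Y) + 1) * energy p x (fun m => c + f.eval (m : ℤ)) : ℕ) : ℝ) := by exact_mod_cast h8
    push_cast at h9
    rw [mul_comm 2 p, pow_mul]
    exact h9
  have h8 : (S.card : ℝ) ^ (2 * p) ≤ (x : ℝ) ^ (2 * p) / L ^ (2 * p * U) := by
    have hE' : (energy p x (fun m => c + f.eval (m : ℤ)) : ℝ) ≤ C * (x : ℝ) ^ (2 * p) / (x : ℝ) ^ d := by
      rw [le_div_iff₀ (by positivity)]
      exact hE x (by omega) c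
    have hY2 : (2 * ((p : ℝ) * Y) + 1) ≤ (2 * p + 1) * ((x : ℝ) ^ d / L ^ (2 * p * U + 1)) := by
      have hp0 : (0 : ℝ) ≤ p := Nat.cast_nonneg _
      nlinarith
    calc (S.card : ℝ) ^ (2 * p) ≤ (2 * (p * Y) + 1) * (energy p x (fun m => c + f.eval (m : ℤ)) : ℝ) := h7
      _ ≤ ((2 * p + 1) * ((x : ℝ) ^ d / L ^ (2 * p * U + 1))) * (C * (x : ℝ) ^ (2 * p) / (x : ℝ) ^ d) := by
          apply mul_le_mul hY2 hE' (Nat.cast_nonneg _) (by positivity)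
      _ = ((2 * p + 1) * C) / L * ((x : ℝ) ^ (2 * p) / L ^ (2 * p * U)) := by
          rw [pow_succ]
          field_simp
      _ ≤ 1 * ((x : ℝ) ^ (2 * p) / L ^ (2 * p * U)) := by
          apply mul_le_mul_of_nonneg_right _ (by positivity)
          rw [div_le_one hL0]
          exact hLC
      _ = _ := one_mul _
  rcases Nat.eq_zero_or_pos p with h0 | h0
  · subst h0
    exfalso
    have hE0 := hE x (by omega) c
    have h9 : energy 0 x (fun m => c + f.eval (m : ℤ)) = 1 := by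
      unfold energy
      simp
    rw [h9] at hE0
    simp only [Nat.cast_one, one_mul, mul_zero, pow_zero, mul_one] at hE0
    have h10 : (2 * ((0 : ℕ) : ℝ) + 1) * C = C := by simp
    rw [h10] at hLC
    have h11 : 4 * L ^ (2 * 0 * U + 1) = 4 * L := by simp
    rw [h11] at hlog
    linarith
  · have h9 : (x : ℝ) ^ (2 * p) / L ^ (2 * p * U) = (x / L ^ U) ^ (2 * p) := by
      rw [div_pow, ← pow_mul, mul_comm U (2 * p)]
    rw [h9] at h8
    exact (pow_le_pow_iff_left₀ (Nat.cast_nonneg _) (by positivity) (by omega)).1 h8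

open Classical in
/-- the first moment of the discrepancies -/
lemma disc_sum (f : ℤ[X]) (j : ℕ) (hf : f.natDegree = j + 2) (A s B E : ℕ) (hA : 1 ≤ A) (hs : 2 ≤ s) :
    ∃ x0 : ℕ, ∀ x : ℕ, x0 ≤ x → ∀ X : ℕ, (x : ℝ) ^ (j + 2) ≤ X → (X : ℝ) ≤ B * (x : ℝ) ^ (j + 2) →
    (∀ m ∈ Icc 1 (x : ℤ), |f.eval m| ≤ A * (x : ℤ) ^ (j + 2)) → ∀ Q : ℕ, Q ≤ x →
    (Q : ℝ) ^ s * (x : ℝ) ^ (j + 2) ≤ (x : ℝ) ^ s → ∀ g : ℕ → ℝ, (g = g1 ∨ g = g2) →
    ∀ (c : ℤ) (I : Finset ℕ) (N : ℕ → ℕ), I ⊆ Icc 1 x → (∀ m ∈ I, c + f.eval (m : ℤ) = N m) → (∀ m ∈ I, N m ≤ X) →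
    ∀ lev : ℕ → ℝ, (∀ m ∈ I, ⌊lev m⌋₊ ≤ Q) →
    ∑ m ∈ I, D g (N m) (lev m) ≤ x ^ (j + 2) * x / Real.log x ^ E := by
  obtain ⟨n1, h1⟩ := sum_q f j hf A s B (E + 5) hA hs
  obtain ⟨n2, h2⟩ := large (max (1 + Real.log B) ((1 + (j + 4 : ℕ) ^ 4) * B)) (max n1 3)
  refine ⟨n2, fun x hx X hX1 hX2 hB Q hQ hQs g hg c I N hI hv hN lev hlev => ?_⟩
  obtain ⟨hxn, hLK, hL1⟩ := h2 x hx
  have c1 := h1 x ((le_max_left _ _).trans hxn) X hX1 hX2 hB Q hQ hQs g hg c I N hI hv hN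
  have hx3 : 3 ≤ x := (le_max_right _ _).trans hxn
  obtain ⟨L, hL⟩ : ∃ L, L = Real.log (x : ℝ) := ⟨_, rfl⟩
  rw [← hL] at hLK hL1 c1 ⊢
  have k1 : 1 + Real.log (B : ℝ) ≤ L := (le_max_left _ _).trans hLK
  have k2 : (1 + ((j + 4 : ℕ) : ℝ) ^ 4) * B ≤ L := (le_max_right _ _).trans hLK
  have hL0 : 0 < L := by linarith
  have hx0 : (0 : ℝ) < x := by exact_mod_cast (by omega : 0 < x)
  have hxd0 : (0 : ℝ) < (x : ℝ) ^ (j + 2) := by positivity
  have hX0 : (0 : ℝ) < X := hxd0.trans_le hX1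
  have hB0 : (0 : ℝ) < B := by
    by_contra hcon
    have : (B : ℝ) ≤ 0 := not_lt.1 hcon
    nlinarith
  have hxX : (x : ℝ) ≤ X := by
    refine le_trans ?_ hX1
    exact le_self_pow₀ (by exact_mod_cast (by omega : 1 ≤ x)) (by omega)
  rcases Nat.eq_zero_or_pos Q with hQ0 | hQ0
  · have h3 : ∀ m ∈ I, D g (N m) (lev m) = 0 := by
      intro m hm
      have h4 := hlev m hm
      unfold D
      have h5 : ⌊lev m⌋₊ = 0 := by omega
      rw [h5]
      simp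
    rw [sum_eq_zero h3]
    positivity
  obtain ⟨S, hS⟩ : ∃ S, S = ∑ q ∈ Icc 1 Q, ∑ m ∈ I, |Tq g q (N m)| := ⟨_, rfl⟩
  rw [← hS] at c1
  have hS1 : ∑ m ∈ I, |Tq g 1 (N m)| ≤ S := by
    rw [hS]
    exact single_le_sum (f := fun q => ∑ m ∈ I, |Tq g q (N m)|) (fun q _ => sum_nonneg fun _ _ => abs_nonneg _) (mem_Icc.2 ⟨le_rfl, hQ0⟩)
  have hφ : ∑ q ∈ Icc 1 Q, 1 / (Nat.totient q : ℝ) ≤ ((j + 4 : ℕ) * L) ^ 4 := by
    have hk := Pool.Agent.H398R2.BV.sum_card_pow_div 1 Q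
    have e2 : ∀ q ∈ Icc 1 Q, 1 / (Nat.totient q : ℝ) ≤ (q.divisors.card : ℝ) ^ 1 / q := by
      intro q hq
      rw [mem_Icc] at hq
      refine (Pool.Agent.H398R2.BV.one_div_totient_le q hq.1).trans ?_
      have hq0 : (0 : ℝ) < q := by exact_mod_cast hq.1
      apply div_le_div_of_nonneg_right _ hq0.le
      rw [pow_one]
      exact_mod_cast Pool.Agent.H398R2.BV.two_pow_omega_le q (by omega)
    refine (sum_le_sum e2).trans (hk.trans ?_)
    rw [pow_one]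
    have hq0 : (0 : ℝ) < Q := by exact_mod_cast hQ0
    have e3 : Real.log (Q : ℝ) ≤ L := by rw [hL]; exact Real.log_le_log hq0 (by exact_mod_cast hQ)
    have e4 := Real.log_natCast_nonneg Q
    have e5 : 1 + Real.log (Q : ℝ) ≤ (j + 4 : ℕ) * L := by
      push_cast
      have : (0 : ℝ) ≤ j := Nat.cast_nonneg _
      nlinarith
    calc (1 + Real.log (Q : ℝ)) ^ 2 ≤ ((j + 4 : ℕ) * L) ^ 2 := pow_le_pow_left₀ (by linarith) e5 2
      _ ≤ ((j + 4 : ℕ) * L) ^ 4 := pow_le_pow_right₀ (by linarith) (by norm_num)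
  have hD : ∑ m ∈ I, D g (N m) (lev m) ≤ S + (∑ q ∈ Icc 1 Q, 1 / (Nat.totient q : ℝ)) * ∑ m ∈ I, |Tq g 1 (N m)| := by
    have h3 : ∀ m ∈ I, D g (N m) (lev m) ≤ ∑ q ∈ Icc 1 Q, (|Tq g q (N m)| + 1 / (Nat.totient q : ℝ) * |Tq g 1 (N m)|) := by
      intro m hm
      unfold D
      refine le_trans ?_ (sum_le_sum_of_subset_of_nonneg (s := (Icc 1 ⌊lev m⌋₊).filter (fun q => q.Coprime (N m))) ?_ ?_)
      · apply sum_le_sum
        intro q _
        refine (abs_sub _ _).trans ?_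
        rw [abs_mul, abs_of_nonneg (show 0 ≤ 1 / (Nat.totient q : ℝ) by positivity)]
      · refine (filter_subset _ _).trans (Icc_subset_Icc_right (hlev m hm))
      · intro q _ _
        positivity
    refine (sum_le_sum h3).trans (le_of_eq ?_)
    rw [sum_comm, hS, sum_mul, ← sum_add_distrib]
    apply sum_congr rfl
    intro q _
    rw [sum_add_distrib, mul_sum]
  refine hD.trans ?_
  have hS0 : 0 ≤ S := by rw [hS]; exact sum_nonneg fun _ _ => sum_nonneg fun _ _ => abs_nonneg _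
  calc S + (∑ q ∈ Icc 1 Q, 1 / (Nat.totient q : ℝ)) * ∑ m ∈ I, |Tq g 1 (N m)| ≤ S + ((j + 4 : ℕ) * L) ^ 4 * S := by
        apply add_le_add le_rfl
        exact mul_le_mul hφ hS1 (sum_nonneg fun _ _ => abs_nonneg _) (by positivity)
    _ ≤ L ^ 4 * S + ((j + 4 : ℕ) * L) ^ 4 * S := by
        apply add_le_add _ le_rfl
        exact le_mul_of_one_le_left hS0 (one_le_pow₀ hL1)
    _ = (1 + ((j + 4 : ℕ) : ℝ) ^ 4) * L ^ 4 * S := by rw [mul_pow]; ring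
    _ ≤ (1 + ((j + 4 : ℕ) : ℝ) ^ 4) * L ^ 4 * (X * x / L ^ (E + 5)) := mul_le_mul_of_nonneg_left c1 (by positivity)
    _ ≤ (1 + ((j + 4 : ℕ) : ℝ) ^ 4) * L ^ 4 * ((B * (x : ℝ) ^ (j + 2)) * x / L ^ (E + 5)) := by
        apply mul_le_mul_of_nonneg_left _ (by positivity)
        apply div_le_div_of_nonneg_right _ (by positivity)
        exact mul_le_mul_of_nonneg_right hX2 hx0.le
    _ = ((1 + ((j + 4 : ℕ) : ℝ) ^ 4) * B) / L * (x ^ (j + 2) * x / L ^ E) := by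
        rw [pow_add L E 5]
        field_simp
    _ ≤ 1 * (x ^ (j + 2) * x / L ^ E) := by
        apply mul_le_mul_of_nonneg_right _ (by positivity)
        rw [div_le_one hL0]
        exact k2
    _ = _ := one_mul _

end Pool.Agent.U856.DE
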