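import Pool.Agent.U856.DE.D5
import Pool.Agent.TH212.EH.A4

set_option autoImplicit false

/-! The number of solutions for polynomial values in residue classes: the final bound. -/

namespace Pool.Agent.U856.DE
open Finset Polynomial
open Pool.Agent.TH212.EH (tau_pow_div)

lemma tau_sum (m Y : ℕ) (Z : ℝ) (hZ : Real.log Y ≤ Z) :
    ∑ n ∈ Icc 1 Y, (n.divisors.card : ℝ) ^ m ≤ Y * (1 + Z) ^ (2 ^ m) := by
  have h0 : 0 ≤ Real.log (Y : ℝ) := Real.log_natCast_nonneg Y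
  have h1 : ∑ n ∈ Icc 1 Y, (n.divisors.card : ℝ) ^ m ≤ Y * ∑ n ∈ Icc 1 Y, (n.divisors.card : ℝ) ^ m / n := by
    rw [mul_sum]
    apply sum_le_sum
    intro n hn
    rw [mem_Icc] at hn
    have hn0 : (0 : ℝ) < n := by exact_mod_cast hn.1
    rw [← mul_div_assoc, le_div_iff₀ hn0]
    have h2 : (n : ℝ) ≤ Y := by exact_mod_cast hn.2
    have h3 : (0 : ℝ) ≤ (n.divisors.card : ℝ) ^ m := by positivity
    nlinarith
  refine h1.trans ?_
  apply mul_le_mul_of_nonneg_left _ (Nat.cast_nonneg _)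
  refine (tau_pow_div m Y).trans ?_
  exact pow_le_pow_left₀ (by linarith) (by linarith) _

lemma tau_mul (a b : ℕ) : (a * b).divisors.card ≤ a.divisors.card * b.divisors.card := by
  rcases Nat.eq_zero_or_pos a with h | h
  · subst h; simp
  rcases Nat.eq_zero_or_pos b with h' | h'
  · subst h'; simp
  rw [Nat.divisors_mul]
  exact Finset.card_mul_le

lemma sum_sq (x T q j : ℕ) (hq : 1 ≤ q) (f : ℤ[X]) (hf : f.natDegree = j + 2) (KB : ℕ) (Z : ℝ) (hZ : Real.log KB ≤ Z) :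
    ∑ k ∈ ((Icc (-(KB : ℤ)) (KB : ℤ)).erase 0).filter (fun k => (q : ℤ) ∣ k), (Cq x T q j f k : ℝ) ^ 2 ≤
      2 * ((2 * (q.divisors.card : ℝ)) ^ (2 * (j + 1)) * (KB / q * (1 + Z) ^ (2 ^ (2 * (j + 1))))) := by
  have hqp : (0 : ℤ) < q := by omega
  have hqr : (0 : ℝ) < q := by exact_mod_cast hq
  obtain ⟨Y, hY⟩ : ∃ Y, Y = KB / q := ⟨_, rfl⟩
  obtain ⟨S1, hS1⟩ : ∃ S1, S1 = (Icc 1 Y).image (fun k : ℕ => (q : ℤ) * (k : ℤ)) := ⟨_, rfl⟩
  obtain ⟨S2, hS2⟩ : ∃ S2, S2 = (Icc 1 Y).image (fun k : ℕ => -((q : ℤ) * (k : ℤ))) := ⟨_, rfl⟩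
  have hsub : ((Icc (-(KB : ℤ)) (KB : ℤ)).erase 0).filter (fun k => (q : ℤ) ∣ k) ⊆ S1 ∪ S2 := by
    intro k hk
    rw [mem_filter, mem_erase, mem_Icc] at hk
    obtain ⟨⟨h0, h1, h2⟩, w, hw⟩ := hk
    have hw0 : w ≠ 0 := by rintro rfl; exact h0 (by rw [hw, mul_zero])
    have h3 : |w| ≤ Y := by
      have h4 : q * w.natAbs ≤ KB := by
        have h5 : (q : ℤ) * |w| ≤ KB := by
          have h6 : |(q : ℤ) * w| = q * |w| := by rw [abs_mul, abs_of_pos hqp]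
          rw [← h6, ← hw, abs_le]
          exact ⟨h1, h2⟩
        rw [← Int.natCast_natAbs w] at h5
        exact_mod_cast h5
      have h5 : w.natAbs ≤ Y := by
        rw [hY, Nat.le_div_iff_mul_le hq, mul_comm]
        exact h4
      rw [← Int.natCast_natAbs]
      exact_mod_cast h5
    rw [mem_union, hS1, hS2, mem_image, mem_image]
    rcases lt_or_gt_of_ne hw0 with h4 | h4
    · right
      refine ⟨w.natAbs, ?_, ?_⟩
      · rw [mem_Icc]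
        have := (abs_le.1 h3).1
        omega
      · rw [hw, Int.natCast_natAbs, abs_of_neg h4]
        ring
    · left
      refine ⟨w.natAbs, ?_, ?_⟩
      · rw [mem_Icc]
        have := (abs_le.1 h3).2
        omega
      · rw [hw, Int.natCast_natAbs, abs_of_pos h4]
  obtain ⟨M, hM⟩ : ∃ M : ℝ, M = (2 * (q.divisors.card : ℝ)) ^ (2 * (j + 1)) * ∑ k ∈ Icc 1 Y, (k.divisors.card : ℝ) ^ (2 * (j + 1)) := ⟨_, rfl⟩
  have hterm : ∀ k ∈ Icc 1 Y, ∀ e : ℤ, e.natAbs = q * k → e ≠ 0 → (Cq x T q j f e : ℝ) ^ 2 ≤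
      (2 * (q.divisors.card : ℝ)) ^ (2 * (j + 1)) * (k.divisors.card : ℝ) ^ (2 * (j + 1)) := by
    intro k _ e he he0
    have h1 := Cq_bound x T q j hq f hf e he0
    have h2 : ((2 * e.natAbs.divisors.card : ℕ) : ℝ) ≤ 2 * q.divisors.card * k.divisors.card := by
      rw [he]
      have := tau_mul q k
      have h3 : ((q * k).divisors.card : ℝ) ≤ q.divisors.card * k.divisors.card := by exact_mod_cast this
      push_cast
      linarith
    calc (Cq x T q j f e : ℝ) ^ 2 ≤ (((2 * e.natAbs.divisors.card : ℕ) : ℝ) ^ (j + 1)) ^ 2 := by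
          apply pow_le_pow_left₀ (Nat.cast_nonneg _)
          exact_mod_cast h1
      _ = ((2 * e.natAbs.divisors.card : ℕ) : ℝ) ^ (2 * (j + 1)) := by rw [← pow_mul, mul_comm (j + 1) 2]
      _ ≤ (2 * q.divisors.card * k.divisors.card) ^ (2 * (j + 1)) := pow_le_pow_left₀ (Nat.cast_nonneg _) h2 _
      _ = _ := mul_pow _ _ _
  have hsum1 : ∑ k ∈ S1, (Cq x T q j f k : ℝ) ^ 2 ≤ M := by
    rw [hS1, sum_image, hM, mul_sum]
    · apply sum_le_sum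
      intro k hk
      have hk1 := (mem_Icc.1 hk).1
      apply hterm k hk
      · rw [Int.natAbs_mul]; simp
      · have : (0 : ℤ) < q * k := mul_pos hqp (by omega)
        omega
    · intro a _ b _ h
      simp only at h
      have := mul_left_cancel₀ hqp.ne' h
      omega
  have hsum2 : ∑ k ∈ S2, (Cq x T q j f k : ℝ) ^ 2 ≤ M := by
    rw [hS2, sum_image, hM, mul_sum]
    · apply sum_le_sum
      intro k hk
      have hk1 := (mem_Icc.1 hk).1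
      apply hterm k hk
      · rw [Int.natAbs_neg, Int.natAbs_mul]; simp
      · have : (0 : ℤ) < q * k := mul_pos hqp (by omega)
        omega
    · intro a _ b _ h
      simp only at h
      have := mul_left_cancel₀ hqp.ne' (neg_inj.1 h)
      omega
  have hMle : M ≤ (2 * (q.divisors.card : ℝ)) ^ (2 * (j + 1)) * (KB / q * (1 + Z) ^ (2 ^ (2 * (j + 1)))) := by
    rw [hM]
    apply mul_le_mul_of_nonneg_left _ (by positivity)
    have hlY : Real.log (Y : ℝ) ≤ Z := by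
      rcases Nat.eq_zero_or_pos Y with h0 | h0
      · rw [h0]
        simp only [Nat.cast_zero, Real.log_zero]
        exact (Real.log_natCast_nonneg KB).trans hZ
      · refine (Real.log_le_log (by exact_mod_cast h0) ?_).trans hZ
        rw [hY]
        exact_mod_cast Nat.div_le_self _ _
    refine (tau_sum (2 * (j + 1)) Y Z hlY).trans ?_
    have hZ0 : 0 ≤ Z := (Real.log_natCast_nonneg KB).trans hZ
    apply mul_le_mul_of_nonneg_right _ (by positivity)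
    rw [hY]
    exact Nat.cast_div_le
  calc _ ≤ ∑ k ∈ S1 ∪ S2, (Cq x T q j f k : ℝ) ^ 2 := sum_le_sum_of_subset_of_nonneg hsub (fun _ _ _ => by positivity)
    _ ≤ ∑ k ∈ S1, (Cq x T q j f k : ℝ) ^ 2 + ∑ k ∈ S2, (Cq x T q j f k : ℝ) ^ 2 := by
        have h1 := sum_union_inter (s₁ := S1) (s₂ := S2) (f := fun k => (Cq x T q j f k : ℝ) ^ 2)
        have h2 : 0 ≤ ∑ k ∈ S1 ∩ S2, (Cq x T q j f k : ℝ) ^ 2 := sum_nonneg fun _ _ => by positivity
        linarith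
    _ ≤ M + M := add_le_add hsum1 hsum2
    _ ≤ _ := by linarith

/-- the final bound for the number of solutions -/
theorem cnt_final (f : ℤ[X]) (j : ℕ) (hf : f.natDegree = j + 2) (A s : ℕ) (hA : 1 ≤ A) (hs : 2 ≤ s) : ∃ C : ℝ, 1 ≤ C ∧ ∀ (c : ℤ) (x q R : ℕ),
    1 ≤ q → q ≤ x → (∀ m ∈ Icc 1 (x : ℤ), |f.eval m| ≤ A * (x : ℤ) ^ (j + 2)) → 2 ^ (j + 2) * (A * x ^ (j + 2)) < R →
    (q : ℝ) ^ s * (x : ℝ) ^ (j + 2) ≤ (x : ℝ) ^ s →
    (cnt (prs (Icc 1 x) (fun m => m % q)) (ph f c q) R (2 ^ j * s) : ℝ) ≤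
      C * ((((x : ℝ) ^ 2 / q) ^ (2 ^ j * s) * (q / (x : ℝ) ^ (j + 2))) * ((q.divisors.card : ℝ) ^ (2 * (j + 1)) *
        (1 + Real.log ((2 ^ (j + 1) * (A * x ^ (j + 2)) : ℕ) : ℝ)) ^ (2 ^ (2 * (j + 1))))) := by
  obtain ⟨D, hD⟩ : ∃ D, D = 2 ^ j := ⟨_, rfl⟩
  have hDj : j + 1 ≤ D := by rw [hD]; exact Nat.lt_two_pow_self
  obtain ⟨C1, hC1⟩ : ∃ C1 : ℝ, C1 = (2 * ((j + 2) * 3 ^ (2 * D - 1))) ^ s := ⟨_, rfl⟩
  obtain ⟨C2, hC2⟩ : ∃ C2 : ℝ, C2 = 2 ^ s * ((3 ^ (2 * D - 1)) ^ s * (2 * (2 ^ (2 * (j + 1)) * (2 ^ (j + 1) * A)))) := ⟨_, rfl⟩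
  have hA0 : (1 : ℝ) ≤ A := by exact_mod_cast hA
  have hC1p : 1 ≤ C1 := by
    rw [hC1]
    apply one_le_pow₀
    have : (1 : ℝ) ≤ 3 ^ (2 * D - 1) := one_le_pow₀ (by norm_num)
    have hj0 : (0 : ℝ) ≤ j := Nat.cast_nonneg _
    nlinarith
  have hC2p : 0 ≤ C2 := by rw [hC2]; positivity
  refine ⟨C1 + C2, by linarith, fun c x q R hq hqx hB hR hsx => ?_⟩
  have hx1 : 1 ≤ x := hq.trans hqx
  have hx : (0 : ℝ) < x := by exact_mod_cast hx1
  have hqr : (0 : ℝ) < q := by exact_mod_cast hq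
  have hqxr : (q : ℝ) ≤ x := by exact_mod_cast hqx
  obtain ⟨KB, hKB⟩ : ∃ KB : ℕ, KB = 2 ^ (j + 1) * (A * x ^ (j + 2)) := ⟨_, rfl⟩
  have hcast : (2 : ℤ) ^ (j + 1) * ((A * x ^ (j + 2) : ℕ) : ℤ) = (KB : ℤ) := by rw [hKB]; push_cast; ring
  have h1 := cnt_poly f j c x q R hq (A * x ^ (j + 2)) (by
    intro m hm
    push_cast
    exact hB m hm) hR s hs
  rw [hcast] at h1
  have h2 := sum_sq x (x / q) q j hq f hf KB (Real.log KB) le_rfl
  rw [← hKB]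
  obtain ⟨Lg, hLg⟩ : ∃ Lg, Lg = (1 + Real.log (KB : ℝ)) ^ (2 ^ (2 * (j + 1))) := ⟨_, rfl⟩
  rw [← hLg] at h2 ⊢
  have hKB1 : 1 ≤ KB := by
    rw [hKB]
    have : 0 < 2 ^ (j + 1) * (A * x ^ (j + 2)) := by positivity
    omega
  have hLg1 : 1 ≤ Lg := by
    rw [hLg]
    apply one_le_pow₀
    have := Real.log_natCast_nonneg KB
    linarith
  obtain ⟨tq, htq⟩ : ∃ tq : ℝ, tq = q.divisors.card := ⟨_, rfl⟩
  rw [← htq] at h2 ⊢
  have htq1 : 1 ≤ tq := by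
    rw [htq]
    exact_mod_cast Finset.card_pos.2 ⟨1, Nat.one_mem_divisors.2 (by omega)⟩
  -- the simple bounds
  have hT : ((2 * (x / q) + 1 : ℕ) : ℝ) ≤ 3 * x / q := by
    have h3 : ((x / q : ℕ) : ℝ) ≤ x / q := Nat.cast_div_le
    have h4 : 1 ≤ (x : ℝ) / q := by rw [le_div_iff₀ hqr]; linarith
    push_cast
    calc 2 * ((x / q : ℕ) : ℝ) + 1 ≤ 2 * (x / q) + x / q := by linarith
      _ = 3 * x / q := by ring
  have hX : ((2 * x + 1 : ℕ) : ℝ) ≤ 3 * x := by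
    push_cast
    have : (1 : ℝ) ≤ x := by exact_mod_cast hx1
    linarith
  obtain ⟨a, ha⟩ : ∃ a : ℝ, a = (3 * x / q) ^ (D - 1) * (3 * x) ^ (D - j - 1) := ⟨_, rfl⟩
  obtain ⟨b, hb⟩ : ∃ b : ℝ, b = 3 ^ (j + 1) * (x : ℝ) ^ (j + 2) / q := ⟨_, rfl⟩
  have ha0 : 0 < a := by rw [ha]; positivity
  have hb0 : 0 < b := by rw [hb]; positivity
  have hab : a * b = 3 ^ (2 * D - 1) * ((x : ℝ) ^ 2 / q) ^ D := by
    rw [ha, hb, div_pow, div_pow, mul_pow, mul_pow]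
    have e1 : (3 : ℝ) ^ (2 * D - 1) = 3 ^ (D - 1) * 3 ^ (D - j - 1) * 3 ^ (j + 1) := by
      rw [← pow_add, ← pow_add]
      congr 1
      omega
    have e2 : ((x : ℝ) ^ 2) ^ D = x ^ (D - 1) * x ^ (D - j - 1) * x ^ (j + 2) := by
      rw [← pow_mul, ← pow_add, ← pow_add]
      congr 1
      omega
    have e3 : (q : ℝ) ^ D = q ^ (D - 1) * q := by
      rw [← pow_succ]
      congr 1
      omega
    rw [e1, e2, e3]
    field_simp
  have hK1 : ((2 * (x / q) + 1 : ℕ) : ℝ) ^ (2 ^ j - 1) * ((2 * x + 1 : ℕ) : ℝ) ^ (2 ^ j - j - 1) ≤ a := by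
    rw [ha, ← hD]
    apply mul_le_mul (pow_le_pow_left₀ (Nat.cast_nonneg _) hT _) (pow_le_pow_left₀ (Nat.cast_nonneg _) hX _) (by positivity) (by positivity)
  have hC0 : (Cq x (x / q) q j f 0 : ℝ) ≤ (j + 2) * (3 * x) ^ (j + 1) := by
    have h3 := Cq_zero x (x / q) q j (Nat.div_le_self _ _) hq f hf
    have h4 : (Cq x (x / q) q j f 0 : ℝ) ≤ (j + 2) * ((2 * x + 1 : ℕ) : ℝ) ^ (j + 1) := by exact_mod_cast h3
    refine h4.trans ?_
    apply mul_le_mul_of_nonneg_left _ (by positivity)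
    exact pow_le_pow_left₀ (Nat.cast_nonneg _) hX _
  have htot : (((2 * (x / q) + 1) * (x * (2 * x + 1) ^ j) : ℕ) : ℝ) ≤ b := by
    rw [Nat.cast_mul, Nat.cast_mul, Nat.cast_pow]
    calc ((2 * (x / q) + 1 : ℕ) : ℝ) * (x * ((2 * x + 1 : ℕ) : ℝ) ^ j) ≤ (3 * x / q) * (x * (3 * x) ^ j) := by
          apply mul_le_mul hT _ (by positivity) (by positivity)
          apply mul_le_mul_of_nonneg_left _ hx.le
          exact pow_le_pow_left₀ (Nat.cast_nonneg _) hX _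
      _ = b := by rw [hb, mul_pow]; ring
  have hS0 : 0 ≤ ∑ k ∈ ((Icc (-(KB : ℤ)) (KB : ℤ)).erase 0).filter (fun k => (q : ℤ) ∣ k), (Cq x (x / q) q j f k : ℝ) ^ 2 :=
    sum_nonneg fun _ _ => by positivity
  obtain ⟨S, hS⟩ : ∃ S, S = ∑ k ∈ ((Icc (-(KB : ℤ)) (KB : ℤ)).erase 0).filter (fun k => (q : ℤ) ∣ k), (Cq x (x / q) q j f k : ℝ) ^ 2 := ⟨_, rfl⟩
  rw [← hS] at h1 h2 hS0
  obtain ⟨P, hP⟩ : ∃ P : ℝ, P = ((x : ℝ) ^ 2 / q) ^ (2 ^ j * s) := ⟨_, rfl⟩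
  have hP0 : 0 < P := by rw [hP]; positivity
  rw [← hP]
  have hPD : (((x : ℝ) ^ 2 / q) ^ D) ^ s = P := by rw [hP, ← pow_mul, hD]
  -- the first term
  have t1 : a ^ s * (2 ^ s * ((j + 2) * (3 * x) ^ (j + 1)) ^ s) ≤ C1 * (P * (q / (x : ℝ) ^ (j + 2))) := by
    have e1 : a * ((3 : ℝ) * x) ^ (j + 1) = 3 ^ (2 * D - 1) * ((x : ℝ) ^ 2 / q) ^ D * (q / x) := by
      rw [ha, div_pow, div_pow, mul_pow, mul_pow, mul_pow]
      have e1 : (3 : ℝ) ^ (2 * D - 1) = 3 ^ (D - 1) * 3 ^ (D - j - 1) * 3 ^ (j + 1) := by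
        rw [← pow_add, ← pow_add]
        congr 1
        omega
      have e2 : ((x : ℝ) ^ 2) ^ D = x ^ (D - 1) * x ^ (D - j - 1) * x ^ (j + 1) * x := by
        rw [← pow_mul, ← pow_add, ← pow_add, ← pow_succ]
        congr 1
        omega
      have e3 : (q : ℝ) ^ D = q ^ (D - 1) * q := by
        rw [← pow_succ]
        congr 1
        omega
      rw [e1, e2, e3]
      field_simp
    have e2 : a ^ s * (2 ^ s * ((j + 2) * (3 * (x : ℝ)) ^ (j + 1)) ^ s) = C1 * (P * (q / x) ^ s) := by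
      rw [← mul_pow, ← mul_pow]
      have : a * (2 * ((j + 2) * (3 * (x : ℝ)) ^ (j + 1))) = 2 * (j + 2) * (a * (3 * (x : ℝ)) ^ (j + 1)) := by ring
      rw [this, e1, hC1, ← hPD, ← mul_pow, ← mul_pow]
      congr 1
      ring
    rw [e2]
    have hqs : ((q : ℝ) / x) ^ s ≤ q / (x : ℝ) ^ (j + 2) := by
      rw [div_pow, div_le_div_iff₀ (by positivity) (by positivity)]
      have : (1 : ℝ) ≤ q := by exact_mod_cast hq
      have hxs : (0 : ℝ) < (x : ℝ) ^ s := by positivity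
      nlinarith
    apply mul_le_mul_of_nonneg_left _ (by linarith)
    exact mul_le_mul_of_nonneg_left hqs hP0.le
  -- the second term
  have t2 : a ^ s * (2 ^ s * (b ^ (s - 2) * S)) ≤ C2 * (P * (q / (x : ℝ) ^ (j + 2)) * (tq ^ (2 * (j + 1)) * Lg)) := by
    have e1 : a ^ s * b ^ (s - 2) = (3 ^ (2 * D - 1)) ^ s * P / b ^ 2 := by
      rw [eq_div_iff (by positivity)]
      have : b ^ s = b ^ (s - 2) * b ^ 2 := by
        rw [← pow_add]
        congr 1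
        omega
      rw [mul_assoc, ← this, ← mul_pow, hab, mul_pow, hPD]
    have e2 : S / b ^ 2 ≤ 2 * (2 ^ (2 * (j + 1)) * (2 ^ (j + 1) * A)) * (q / (x : ℝ) ^ (j + 2)) * (tq ^ (2 * (j + 1)) * Lg) := by
      rw [div_le_iff₀ (by positivity)]
      refine h2.trans ?_
      have hKBr : (KB : ℝ) = 2 ^ (j + 1) * (A * (x : ℝ) ^ (j + 2)) := by rw [hKB]; push_cast; ring
      rw [hKBr, hb]
      have e3 : 2 * (2 ^ (2 * (j + 1)) * (2 ^ (j + 1) * (A : ℝ))) * (q / (x : ℝ) ^ (j + 2)) * (tq ^ (2 * (j + 1)) * Lg) *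
          (3 ^ (j + 1) * (x : ℝ) ^ (j + 2) / q) ^ 2 =
          (2 * ((2 * tq) ^ (2 * (j + 1)) * (2 ^ (j + 1) * (A * (x : ℝ) ^ (j + 2)) / q * Lg))) * (3 ^ (j + 1)) ^ 2 := by
        rw [mul_pow 2 tq]
        field_simp
      rw [e3]
      have h3 : (1 : ℝ) ≤ ((3 : ℝ) ^ (j + 1)) ^ 2 := one_le_pow₀ (one_le_pow₀ (by norm_num))
      exact le_mul_of_one_le_right (by positivity) h3
    calc a ^ s * (2 ^ s * (b ^ (s - 2) * S)) = 2 ^ s * ((a ^ s * b ^ (s - 2)) * S) := by ring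
      _ = 2 ^ s * ((3 ^ (2 * D - 1)) ^ s * P * (S / b ^ 2)) := by rw [e1]; ring
      _ ≤ 2 ^ s * ((3 ^ (2 * D - 1)) ^ s * P * (2 * (2 ^ (2 * (j + 1)) * (2 ^ (j + 1) * A)) * (q / (x : ℝ) ^ (j + 2)) * (tq ^ (2 * (j + 1)) * Lg))) := by
          apply mul_le_mul_of_nonneg_left _ (by positivity)
          exact mul_le_mul_of_nonneg_left e2 (by positivity)
      _ = _ := by rw [hC2]; ring
  have hfin : 1 ≤ tq ^ (2 * (j + 1)) * Lg := by
    have := one_le_pow₀ htq1 (n := 2 * (j + 1))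
    nlinarith
  refine h1.trans ?_
  calc _ ≤ a ^ s * (2 ^ s * (((j + 2) * (3 * x) ^ (j + 1)) ^ s + b ^ (s - 2) * S)) := by
        apply mul_le_mul (pow_le_pow_left₀ (by positivity) hK1 s) _ (by positivity) (by positivity)
        apply mul_le_mul_of_nonneg_left _ (by positivity)
        apply add_le_add (pow_le_pow_left₀ (Nat.cast_nonneg _) hC0 s)
        apply mul_le_mul_of_nonneg_right _ hS0
        exact pow_le_pow_left₀ (Nat.cast_nonneg _) htot _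
    _ = a ^ s * (2 ^ s * ((j + 2) * (3 * x) ^ (j + 1)) ^ s) + a ^ s * (2 ^ s * (b ^ (s - 2) * S)) := by ring
    _ ≤ C1 * (P * (q / (x : ℝ) ^ (j + 2))) + C2 * (P * (q / (x : ℝ) ^ (j + 2)) * (tq ^ (2 * (j + 1)) * Lg)) := add_le_add t1 t2
    _ ≤ C1 * (P * (q / (x : ℝ) ^ (j + 2)) * (tq ^ (2 * (j + 1)) * Lg)) + C2 * (P * (q / (x : ℝ) ^ (j + 2)) * (tq ^ (2 * (j + 1)) * Lg)) := by
        apply add_le_add _ le_rfl
        apply mul_le_mul_of_nonneg_left _ (by linarith)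
        exact le_mul_of_one_le_right (by positivity) hfin
    _ = _ := by ring

end Pool.Agent.U856.DE
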