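import Pool.Agent.U856.DE.D7
import Pool.Agent.U856.DE.D6

set_option autoImplicit false

/-! Weights fixed in advance: the exponential sum and the mean square of the twisted divisor sum. -/

namespace Pool.Agent.U856.DE
open Finset
open Pool.Agent.H807R2.Dav
open Pool.Agent.R311.DEH (g1 g2 dl dl_nonneg g_bound Tq sum_dl Qs ct KK' U_ex T_ex K_large level low_N)
open Pool.Agent.TH212.EH (tau_pow_div large)

/-- the twisted divisor sum -/
noncomputable def FF (g lam : ℕ → ℝ) (Q k : ℕ) : ℝ := g k * ∑ q ∈ (Icc 1 Q).filter (fun q => q ∣ k), lam q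

lemma FF_sum (g lam : ℕ → ℝ) (Q X : ℕ) (α : ℝ) :
    ∑ k ∈ Icc 1 X, (FF g lam Q k : ℂ) * ee ((k : ℝ) * α) =
      ∑ q ∈ Icc 1 Q, (lam q : ℂ) * ∑ k ∈ Icc 1 X, (if q ∣ k then (g k : ℂ) else 0) * ee ((k : ℝ) * α) := by
  simp only [mul_sum]
  rw [sum_comm]
  apply sum_congr rfl
  intro k _
  unfold FF
  rw [sum_filter]
  push_cast
  rw [mul_sum, sum_mul]
  apply sum_congr rfl
  intro q _
  split_ifs
  · ring
  · simp

lemma FF_abs (g lam : ℕ → ℝ) (hg : g = g1 ∨ g = g2) (Q X T k : ℕ) (hk : k ∈ Icc 1 X) (Bm : ℝ) (hBm : 0 ≤ Bm)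
    (hlam : ∀ q, |lam q| ≤ Bm * (q.divisors.card : ℝ) ^ T) :
    |FF g lam Q k| ≤ (1 + Real.log X) * (Bm * (k.divisors.card : ℝ) ^ (T + 1)) := by
  rw [mem_Icc] at hk
  have hX : 0 ≤ Real.log (X : ℝ) := Real.log_natCast_nonneg X
  unfold FF
  rw [abs_mul]
  apply mul_le_mul (g_abs g hg k X hk.2) _ (abs_nonneg _) (by positivity)
  refine (abs_sum_le_sum_abs _ _).trans ?_
  have h1 : ∀ q ∈ (Icc 1 Q).filter (fun q => q ∣ k), |lam q| ≤ Bm * (k.divisors.card : ℝ) ^ T := by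
    intro q hq
    rw [mem_filter] at hq
    refine (hlam q).trans ?_
    apply mul_le_mul_of_nonneg_left _ hBm
    apply pow_le_pow_left₀ (Nat.cast_nonneg _)
    exact_mod_cast card_le_card (Nat.divisors_subset_of_dvd (by omega) hq.2)
  refine (sum_le_sum h1).trans ?_
  rw [sum_const, nsmul_eq_mul]
  have h2 : ((Icc 1 Q).filter (fun q => q ∣ k)).card ≤ k.divisors.card := by
    apply card_le_card
    intro q hq
    rw [mem_filter] at hq
    rw [Nat.mem_divisors]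
    exact ⟨hq.2, by omega⟩
  have h3 : (((Icc 1 Q).filter (fun q => q ∣ k)).card : ℝ) ≤ k.divisors.card := by exact_mod_cast h2
  calc _ ≤ (k.divisors.card : ℝ) * (Bm * (k.divisors.card : ℝ) ^ T) := mul_le_mul_of_nonneg_right h3 (by positivity)
    _ = _ := by rw [pow_succ]; ring

lemma FF_sq (g lam : ℕ → ℝ) (hg : g = g1 ∨ g = g2) (Q X T : ℕ) (Bm : ℝ) (hBm : 0 ≤ Bm)
    (hlam : ∀ q, |lam q| ≤ Bm * (q.divisors.card : ℝ) ^ T) :
    ∑ k ∈ Icc 1 X, FF g lam Q k ^ 2 ≤ X * (Bm ^ 2 * (1 + Real.log X) ^ (2 + 2 ^ (2 * (T + 1)))) := by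
  have hX : 0 ≤ Real.log (X : ℝ) := Real.log_natCast_nonneg X
  have h1 : ∀ k ∈ Icc 1 X, FF g lam Q k ^ 2 ≤ (1 + Real.log X) ^ 2 * Bm ^ 2 * (k.divisors.card : ℝ) ^ (2 * (T + 1)) := by
    intro k hk
    rw [← sq_abs]
    refine (pow_le_pow_left₀ (abs_nonneg _) (FF_abs g lam hg Q X T k hk Bm hBm hlam) 2).trans (le_of_eq ?_)
    rw [mul_pow, mul_pow, ← pow_mul, mul_comm (T + 1) 2]
    ring
  refine (sum_le_sum h1).trans ?_
  rw [← mul_sum]
  have h2 := tau_sum (2 * (T + 1)) X (Real.log X) le_rfl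
  refine (mul_le_mul_of_nonneg_left h2 (by positivity)).trans (le_of_eq ?_)
  rw [pow_add (1 + Real.log (X : ℝ)) 2]
  ring

lemma triv_sup (g : ℕ → ℝ) (hg : g = g1 ∨ g = g2) (X q : ℕ) (hq : 1 ≤ q) (α : ℝ) :
    ‖∑ k ∈ Icc 1 X, (if q ∣ k then (g k : ℂ) else 0) * ee ((k : ℝ) * α)‖ ≤ X / q * (1 + Real.log X) := by
  have hX : 0 ≤ Real.log (X : ℝ) := Real.log_natCast_nonneg X
  have h1 : ∑ k ∈ Icc 1 X, (if q ∣ k then (g k : ℂ) else 0) * ee ((k : ℝ) * α) =
      ∑ k ∈ (Icc 1 X).filter (fun k => q ∣ k), (g k : ℂ) * ee ((k : ℝ) * α) := by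
    rw [sum_filter]
    apply sum_congr rfl
    intro m _
    split_ifs <;> simp
  rw [h1]
  refine (norm_sum_le _ _).trans ?_
  have h2 : ∀ k ∈ (Icc 1 X).filter (fun k => q ∣ k), ‖(g k : ℂ) * ee ((k : ℝ) * α)‖ ≤ 1 + Real.log X := by
    intro k hk
    rw [mem_filter, mem_Icc] at hk
    rw [norm_mul, norm_ee, mul_one, Complex.norm_real, Real.norm_eq_abs]
    exact g_abs g hg k X hk.1.2
  refine (sum_le_sum h2).trans ?_
  rw [sum_const, nsmul_eq_mul]
  apply mul_le_mul_of_nonneg_right _ (by positivity)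
  have h3 : ((Icc 1 X).filter (fun k => q ∣ k)).card = X / q := by
    have := Nat.Ioc_filter_dvd_card_eq_div X q
    have e : Ioc 0 X = Icc 1 X := by ext n; rw [mem_Ioc, mem_Icc]; omega
    rw [e] at this
    exact this
  rw [h3]
  exact Nat.cast_div_le

open Classical in
/-- the exponential sum of the twisted divisor sum is small -/
theorem FF_sup (c : ℝ) (hc : 0 < c) (hc1 : c ≤ 1) (B T E : ℕ) : ∃ N0 : ℕ, ∀ N : ℕ, N0 ≤ N → ∀ X : ℕ, N ≤ X → X ≤ B * N →
    ∀ lam : ℕ → ℝ, (∀ q, |lam q| ≤ Real.log N ^ T * (q.divisors.card : ℝ) ^ T) → ∀ Q : ℕ,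
    (Q : ℝ) ≤ N * Real.exp (-(Real.log N) ^ c) → ∀ g : ℕ → ℝ, (g = g1 ∨ g = g2) → ∀ α : ℝ,
    ‖∑ k ∈ Icc 1 X, (FF g lam Q k : ℂ) * ee ((k : ℝ) * α)‖ ≤ N / Real.log N ^ E := by
  obtain ⟨b, hb⟩ : ∃ b, b = T + 1 + 2 ^ (T + 1) + E + 1 := ⟨_, rfl⟩
  obtain ⟨E2, hE2⟩ : ∃ E2, E2 = T + b * T + 3 + E + 1 := ⟨_, rfl⟩
  obtain ⟨U, n1, hU⟩ := U_ex c hc E2
  obtain ⟨n2, hT⟩ := T_ex c hc E2
  obtain ⟨Y0, hY0, hgb⟩ := g_bound U
  obtain ⟨n3, hK⟩ := K_large c hc (Y0 + 4)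
  obtain ⟨n4, h4⟩ := large (max (17 * B) (Real.log B)) (n1 + n2 + n3 + 3)
  refine ⟨n4, fun N hN X hNX hXB lam hlam Q hQ g hg α => ?_⟩
  obtain ⟨hNn, hLK, hL1⟩ := h4 N hN
  have u1 := hU X (by omega)
  obtain ⟨T1, hT1, hT3, hTge⟩ := hT X (by omega)
  have u3 := hK X (by omega)
  have hN0 : (0 : ℝ) < N := by exact_mod_cast (by omega : 0 < N)
  have hX0 : (0 : ℝ) < X := by exact_mod_cast (by omega : 0 < X)
  have hNXr : (N : ℝ) ≤ X := by exact_mod_cast hNX
  have hXBr : (X : ℝ) ≤ B * N := by exact_mod_cast hXB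
  have hB0 : (0 : ℝ) < B := by
    by_contra hcon
    have : (B : ℝ) ≤ 0 := not_lt.1 hcon
    nlinarith
  obtain ⟨ℓ, hℓ⟩ : ∃ ℓ, ℓ = 1 + Real.log (X : ℝ) := ⟨_, rfl⟩
  rw [← hℓ] at u1 hTge
  obtain ⟨L, hL⟩ : ∃ L, L = Real.log (N : ℝ) := ⟨_, rfl⟩
  have hLX : Real.log (X : ℝ) ≤ 2 * L := by
    have e1 := Real.log_le_log hX0 hXBr
    rw [Real.log_mul hB0.ne' hN0.ne', ← hL] at e1
    have e2 : Real.log (B : ℝ) ≤ L := by rw [hL]; exact (le_max_right _ _).trans hLK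
    linarith
  have hexp : Real.exp (Real.log X / 2) ≤ N := by
    have e1 : Real.log (X : ℝ) / 2 ≤ L := by linarith
    calc Real.exp (Real.log X / 2) ≤ Real.exp L := Real.exp_le_exp.2 e1
      _ = N := by rw [hL]; exact Real.exp_log hN0
  have hlv : ∀ q ∈ Icc 1 Q, KK' c X ≤ X / q := by
    intro q hq
    rw [mem_Icc] at hq
    exact level c hc X N (by omega) hexp hNX q hq.1 ((by exact_mod_cast hq.2 : (q : ℝ) ≤ Q).trans hQ)
  rw [← hL] at hLK hL1 hlam ⊢
  have k1 : 17 * (B : ℝ) ≤ L := (le_max_left _ _).trans hLK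
  have hL0 : 0 < L := by linarith
  have hLℓ : L ≤ ℓ := by
    rw [hℓ, hL]
    have := Real.log_le_log hN0 hNXr
    linarith
  have hℓ1 : 1 ≤ ℓ := by linarith
  have hℓ0 : 0 < ℓ := by linarith
  have hX4 : 4 ≤ X := by
    rcases Nat.eq_zero_or_pos Q with h0 | h0
    · have h5 : KK' c X ≤ X := by
        by_contra hcon
        push Not at hcon
        have hKle : (KK' c X : ℝ) ≤ Real.exp (Pool.Agent.R311.DEH.yy c X) := Nat.floor_le (Real.exp_pos _).le
        have hy : Pool.Agent.R311.DEH.yy c X ≤ Real.log X := by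
          unfold Pool.Agent.R311.DEH.yy
          have hlx : 17 * (B : ℝ) - 1 ≤ Real.log X := by linarith
          have hB1 : (1 : ℝ) ≤ B := by
            have : 0 < B := by exact_mod_cast hB0
            exact_mod_cast this
          have hge : 1 ≤ Real.log (X : ℝ) / 2 := by linarith
          calc (Real.log (X : ℝ) / 2) ^ c ≤ (Real.log (X : ℝ) / 2) ^ (1 : ℝ) := Real.rpow_le_rpow_of_exponent_le hge hc1
            _ = Real.log X / 2 := Real.rpow_one _
            _ ≤ Real.log X := by linarith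
        have h6 : (KK' c X : ℝ) ≤ X := by
          refine hKle.trans ?_
          rw [← Real.le_log_iff_exp_le hX0]
          exact hy
        have h7 : KK' c X ≤ X := by exact_mod_cast h6
        omega
      omega
    · have h5 := hlv 1 (mem_Icc.2 ⟨le_rfl, h0⟩)
      rw [Nat.div_one] at h5
      omega
  have hdl : ∑ q ∈ Icc 1 Q, dl U X q (KK' c X) ≤ 8 * ℓ ^ 3 * X * (1 / ℓ ^ E2 + 1 / ℓ ^ E2) := by
    have e1 := sum_dl U X (KK' c X) T1 hX4 (by omega) hT1 hT3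
    rw [← hℓ] at e1
    have e2 : ∑ q ∈ Icc 1 Q, dl U X q (KK' c X) ≤ ∑ q ∈ Qs X (KK' c X), dl U X q (KK' c X) := by
      apply sum_le_sum_of_subset_of_nonneg
      · intro q hq
        have h5 := hlv q hq
        rw [mem_Icc] at hq
        rw [Qs, mem_filter, mem_Icc]
        refine ⟨⟨hq.1, ?_⟩, h5⟩
        by_contra hcon
        rw [Nat.div_eq_of_lt (by omega)] at h5
        omega
      · intro q _ _
        exact dl_nonneg U X q _ (by omega) (by omega)
    refine e2.trans (e1.trans ?_)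
    apply mul_le_mul_of_nonneg_left _ (by positivity)
    apply add_le_add u1
    exact one_div_le_one_div_of_le (by positivity) hTge
  rw [FF_sum]
  refine (norm_sum_le _ _).trans ?_
  have hterm : ∀ q ∈ Icc 1 Q, ‖(lam q : ℂ) * ∑ k ∈ Icc 1 X, (if q ∣ k then (g k : ℂ) else 0) * ee ((k : ℝ) * α)‖ ≤
      L ^ T * ℓ ^ (b * T) * dl U X q (KK' c X) + L ^ T * ℓ * X / ℓ ^ b * ((q.divisors.card : ℝ) ^ (T + 1) / q) := by
    intro q hq
    have hKq := hlv q hq
    rw [mem_Icc] at hq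
    have hq0 : (0 : ℝ) < q := by exact_mod_cast hq.1
    rw [norm_mul, Complex.norm_real, Real.norm_eq_abs]
    have a1 := hgb X q (KK' c X) hq.1 (by omega) hKq g hg α
    have a2 := triv_sup g hg X q hq.1 α
    rw [← hℓ] at a2
    have a3 : 0 ≤ dl U X q (KK' c X) := dl_nonneg U X q _ (by omega) (by omega)
    by_cases hτ : (q.divisors.card : ℝ) ≤ ℓ ^ b
    · have h5 : |lam q| ≤ L ^ T * ℓ ^ (b * T) := by
        refine (hlam q).trans ?_
        rw [pow_mul]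
        apply mul_le_mul_of_nonneg_left _ (by positivity)
        exact pow_le_pow_left₀ (Nat.cast_nonneg _) hτ _
      have h6 := mul_le_mul h5 a1 (norm_nonneg _) (by positivity)
      have h7 : 0 ≤ L ^ T * ℓ * X / ℓ ^ b * ((q.divisors.card : ℝ) ^ (T + 1) / q) := by positivity
      linarith
    · have h6 := mul_le_mul (hlam q) a2 (norm_nonneg _) (by positivity)
      have h7 : L ^ T * (q.divisors.card : ℝ) ^ T * (X / q * ℓ) ≤ L ^ T * ℓ * X / ℓ ^ b * ((q.divisors.card : ℝ) ^ (T + 1) / q) := by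
        have h8 : 1 ≤ (q.divisors.card : ℝ) / ℓ ^ b := by rw [one_le_div (by positivity)]; exact (not_le.1 hτ).le
        calc L ^ T * (q.divisors.card : ℝ) ^ T * (X / q * ℓ) = L ^ T * (q.divisors.card : ℝ) ^ T * (X / q * ℓ) * 1 := (mul_one _).symm
          _ ≤ L ^ T * (q.divisors.card : ℝ) ^ T * (X / q * ℓ) * ((q.divisors.card : ℝ) / ℓ ^ b) := mul_le_mul_of_nonneg_left h8 (by positivity)
          _ = _ := by rw [pow_succ]; field_simp
      have h9 : 0 ≤ L ^ T * ℓ ^ (b * T) * dl U X q (KK' c X) := by positivity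
      linarith
  refine (sum_le_sum hterm).trans ?_
  rw [sum_add_distrib, ← mul_sum, ← mul_sum]
  have htau : ∑ q ∈ Icc 1 Q, (q.divisors.card : ℝ) ^ (T + 1) / q ≤ ℓ ^ (2 ^ (T + 1)) := by
    refine (tau_pow_div (T + 1) Q).trans ?_
    have hQN : (Q : ℝ) ≤ X := by
      refine hQ.trans (le_trans ?_ hNXr)
      apply mul_le_of_le_one_right hN0.le
      rw [Real.exp_le_one_iff]
      have : 0 ≤ Real.log (N : ℝ) ^ c := Real.rpow_nonneg (Real.log_natCast_nonneg N) c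
      linarith
    have e2 : 1 + Real.log (Q : ℝ) ≤ ℓ := by
      rw [hℓ]
      rcases Nat.eq_zero_or_pos Q with h0 | h0
      · rw [h0]
        simp only [Nat.cast_zero, Real.log_zero]
        have := Real.log_natCast_nonneg X
        linarith
      · have := Real.log_le_log (by exact_mod_cast h0 : (0 : ℝ) < Q) hQN
        linarith
    have e3 := Real.log_natCast_nonneg Q
    exact pow_le_pow_left₀ (by linarith) e2 _
  have v1 : L ^ T * ℓ ^ (b * T) * ∑ q ∈ Icc 1 Q, dl U X q (KK' c X) ≤ X / ℓ ^ E * (16 / ℓ) := by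
    calc _ ≤ ℓ ^ T * ℓ ^ (b * T) * (8 * ℓ ^ 3 * X * (1 / ℓ ^ E2 + 1 / ℓ ^ E2)) := by
          have a0 : 0 ≤ ∑ q ∈ Icc 1 Q, dl U X q (KK' c X) := sum_nonneg fun q _ => dl_nonneg U X q _ (by omega) (by omega)
          apply mul_le_mul _ hdl a0 (by positivity)
          exact mul_le_mul_of_nonneg_right (pow_le_pow_left₀ hL0.le hLℓ _) (by positivity)
      _ = _ := by
          rw [hE2, show T + b * T + 3 + E + 1 = T + b * T + 3 + (E + 1) by ring, pow_add ℓ (T + b * T + 3), pow_add ℓ (T + b * T), pow_add ℓ T, pow_succ ℓ E]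
          field_simp
          ring
  have v2 : L ^ T * ℓ * X / ℓ ^ b * ∑ q ∈ Icc 1 Q, (q.divisors.card : ℝ) ^ (T + 1) / q ≤ X / ℓ ^ E * (1 / ℓ) := by
    calc _ ≤ ℓ ^ T * ℓ * X / ℓ ^ b * ℓ ^ (2 ^ (T + 1)) := by
          have a0 : 0 ≤ ∑ q ∈ Icc 1 Q, (q.divisors.card : ℝ) ^ (T + 1) / q := sum_nonneg fun q _ => by positivity
          apply mul_le_mul _ htau a0 (by positivity)
          apply div_le_div_of_nonneg_right _ (by positivity)
          apply mul_le_mul_of_nonneg_right _ hX0.le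
          exact mul_le_mul_of_nonneg_right (pow_le_pow_left₀ hL0.le hLℓ _) hℓ0.le
      _ = _ := by
          rw [hb, show T + 1 + 2 ^ (T + 1) + E + 1 = (T + 1) + 2 ^ (T + 1) + (E + 1) by ring, pow_add ℓ ((T + 1) + 2 ^ (T + 1)), pow_add ℓ (T + 1),
            pow_succ ℓ T, pow_succ ℓ E]
          field_simp
  calc _ ≤ X / ℓ ^ E * (16 / ℓ) + X / ℓ ^ E * (1 / ℓ) := add_le_add v1 v2
    _ = (X * (17 / ℓ)) / ℓ ^ E := by ring
    _ ≤ N / ℓ ^ E := by
        apply div_le_div_of_nonneg_right _ (by positivity)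
        calc X * (17 / ℓ) ≤ (B * N) * (17 / ℓ) := mul_le_mul_of_nonneg_right hXBr (by positivity)
          _ = N * ((17 * B) / ℓ) := by ring
          _ ≤ N * 1 := by
              apply mul_le_mul_of_nonneg_left _ hN0.le
              rw [div_le_one hℓ0]
              exact k1.trans hLℓ
          _ = N := mul_one _
    _ ≤ N / L ^ E := by
        apply div_le_div_of_nonneg_left hN0.le (by positivity)
        exact pow_le_pow_left₀ hL0.le hLℓ _

end Pool.Agent.U856.DE
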