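import Pool.Agent.U856.DE.D12
import Pool.Agent.TH212.EH.A6

set_option autoImplicit false

/-! Weights fixed in advance: the first moment along a family of nearly minimal energy. -/

namespace Pool.Agent.U856.DE
open Finset
open Pool.Agent.H807R2.Dav
open Pool.Agent.R311.DEH (g1 g2 Tq)
open Pool.Agent.TH212.EH (En large)

open Classical in
lemma cnt_En (p : ℕ) {ι : Type} [Fintype ι] (v : ι → ℤ) (τ : ℤ) (R M : ℕ) (hv : ∀ i, |v i| ≤ M) (hR : 2 * p * M < R) :
    cnt (prs (univ : Finset ι) (fun _ => 0)) (fun z => -((v z.1 + τ) / ((1 : ℕ) : ℤ)) + (v z.2 + τ) / ((1 : ℕ) : ℤ)) R p ≤ En p v := by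
  unfold cnt En
  rw [Nat.card_eq_fintype_card, Fintype.card_subtype]
  apply card_le_card_of_injOn (fun w => ((fun i => (w i).2), (fun i => (w i).1)))
  · intro w hw
    rw [mem_coe, mem_filter] at hw
    rw [mem_coe, mem_filter]
    refine ⟨mem_univ _, ?_⟩
    obtain ⟨_, hd⟩ := hw
    have e1 : ∑ i, (-((v (w i).1 + τ) / ((1 : ℕ) : ℤ)) + (v (w i).2 + τ) / ((1 : ℕ) : ℤ)) = ∑ i, v (w i).2 - ∑ i, v (w i).1 := by
      rw [← sum_sub_distrib]
      apply sum_congr rfl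
      intro i _
      rw [Nat.cast_one, Int.ediv_one, Int.ediv_one]
      ring
    rw [e1] at hd
    have hb : ∀ u : Fin p → ι, |∑ i, v (u i)| ≤ p * M := by
      intro u
      refine (abs_sum_le_sum_abs _ _).trans ((sum_le_sum fun i _ => hv (u i)).trans ?_)
      rw [sum_const, card_univ, Fintype.card_fin, nsmul_eq_mul]
    have h1 := abs_le.1 (hb (fun i => (w i).1))
    have h2 := abs_le.1 (hb (fun i => (w i).2))
    have h3 : |∑ i, v (w i).2 - ∑ i, v (w i).1| < R := by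
      have h4 : ((2 * p * M : ℕ) : ℤ) < R := by exact_mod_cast hR
      push_cast at h4
      rw [abs_lt]
      constructor <;> linarith [h1.1, h1.2, h2.1, h2.2]
    have h4 := Int.eq_zero_of_abs_lt_dvd hd h3
    simp only
    omega
  · intro w _ w' _ h
    simp only [Prod.mk.injEq] at h
    funext i
    exact Prod.ext (congrFun h.2 i) (congrFun h.1 i)

open Classical in
/-- the first moment along a family of nearly minimal energy -/
theorem fam_mean (c : ℝ) (hc : 0 < c) (hc1 : c ≤ 1) (p B C T E : ℕ) (hp : 1 ≤ p) : ∃ N0 : ℕ, ∀ N : ℕ, N0 ≤ N → ∀ X : ℕ, N ≤ X → X ≤ B * N →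
    ∀ (ι : Type) [Fintype ι] (v : ι → ℤ), (∀ i, |v i| ≤ B * N) → (En p v : ℝ) * N ≤ Real.log N ^ C * (Fintype.card ι : ℝ) ^ (2 * p) →
    ∀ lam : ℕ → ℝ, (∀ q, |lam q| ≤ Real.log N ^ T * (q.divisors.card : ℝ) ^ T) → ∀ Q : ℕ,
    (Q : ℝ) ≤ N * Real.exp (-(Real.log N) ^ c) → ∀ g : ℕ → ℝ, (g = g1 ∨ g = g2) →
    ∀ (τ : ℤ) (I : Finset ι) (Nn : ι → ℕ), (∀ i ∈ I, v i + τ = Nn i) → (∀ i ∈ I, Nn i ≤ X) →
    ∑ i ∈ I, |TT (fun n => ArithmeticFunction.vonMangoldt n) (FF g lam Q) 1 (Nn i)| ≤ N * Fintype.card ι / Real.log N ^ E := by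
  obtain ⟨m2, hm2⟩ : ∃ m2, m2 = 2 + 2 ^ (2 * (T + 1)) := ⟨_, rfl⟩
  obtain ⟨E', hE'⟩ : ∃ E', E' = p + (T + m2) * p + C + 1 + p * E := ⟨_, rfl⟩
  obtain ⟨n1, h1⟩ := FF_sup c hc hc1 B T E'
  obtain ⟨p', rfl⟩ : ∃ p', p = p' + 1 := ⟨p - 1, by omega⟩
  obtain ⟨n2, h2⟩ := large (max (max (Real.log B) 1) ((18 * B : ℝ) ^ (p' + 1) * (B * 3 ^ m2) ^ p')) (n1 + 3)
  refine ⟨n2, fun N hN X hNX hXB ι _ v hv hEn lam hlam Q hQ g hg τ I Nn hI hIX => ?_⟩
  obtain ⟨hNn, hLK, hL1⟩ := h2 N hN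
  have c1 := h1 N (by omega) X hNX hXB lam hlam Q hQ g hg
  have hN0 : (0 : ℝ) < N := by exact_mod_cast (by omega : 0 < N)
  have hX0 : (0 : ℝ) < X := by exact_mod_cast (by omega : 0 < X)
  have hNXr : (N : ℝ) ≤ X := by exact_mod_cast hNX
  have hXBr : (X : ℝ) ≤ B * N := by exact_mod_cast hXB
  have hB0 : (0 : ℝ) < B := by
    by_contra hcon
    have : (B : ℝ) ≤ 0 := not_lt.1 hcon
    nlinarith
  obtain ⟨ℓ, hℓ⟩ : ∃ ℓ, ℓ = 1 + Real.log (X : ℝ) := ⟨_, rfl⟩
  obtain ⟨L, hL⟩ : ∃ L, L = Real.log (N : ℝ) := ⟨_, rfl⟩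
  rw [← hL] at hLK hL1 hlam c1 hEn ⊢
  have k1 : Real.log (B : ℝ) ≤ L := ((le_max_left _ _).trans (le_max_left _ _)).trans hLK
  have k2 : (18 * B : ℝ) ^ (p' + 1) * (B * 3 ^ m2) ^ p' ≤ L := (le_max_right _ _).trans hLK
  have hL0 : 0 < L := by linarith
  have hℓL : ℓ ≤ 3 * L := by
    have e1 := Real.log_le_log hX0 hXBr
    rw [Real.log_mul hB0.ne' hN0.ne', ← hL] at e1
    rw [hℓ]
    linarith
  have hℓ0 : 0 < ℓ := by
    rw [hℓ]
    have := Real.log_natCast_nonneg X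
    linarith
  obtain ⟨R, hR⟩ : ∃ R : ℕ, R = 2 * (p' + 1) * (B * N) + 2 * X + 1 := ⟨_, rfl⟩
  have hJ := J_le I (fun i => if 0 ≤ TT (fun n => ArithmeticFunction.vonMangoldt n) (FF g lam Q) 1 (Nn i) then (1 : ℝ) else -1) (by
    intro m _
    split_ifs <;> simp) (fun i => v i + τ) (fun _ => 0) 1 (fun _ _ => Nat.zero_lt_one) 1 R (p' + 1) (by omega) univ (subset_univ _)
  have hcnt := cnt_En (p' + 1) v τ R (B * N) (by intro i; push_cast; exact hv i) (by rw [hR]; omega)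
  have hmain := conv_bound I (fun i => if 0 ≤ TT (fun n => ArithmeticFunction.vonMangoldt n) (FF g lam Q) 1 (Nn i) then (1 : ℝ) else -1)
    (fun i => v i + τ) Nn hI (fun _ => 0) 1 (fun _ _ => Nat.zero_lt_one) (fun _ => 0) 1 le_rfl (fun i _ => Nat.mod_one _) X hIX
    (fun n => ArithmeticFunction.vonMangoldt n) (FF g lam Q) (N / L ^ E') (2 * X * ℓ ^ 2) (X * ((L ^ T) ^ 2 * ℓ ^ m2)) (En (p' + 1) v)
    (by
      intro α
      have := c1 α
      simp only [Nat.div_one, one_mul]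
      exact this) (by rw [hℓ]; exact V_bound X 1 le_rfl (by omega) (fun _ => 0)) (by
      simp only [Nat.div_one, one_mul]
      rw [hℓ, hm2]
      exact FF_sq g lam hg Q X T (L ^ T) (by positivity) hlam) R (by rw [Nat.div_one, hR]; omega) (p' + 1) (by omega) (by
      refine hJ.trans ?_
      apply mul_le_mul_of_nonneg_left _ (Nat.cast_nonneg _)
      exact_mod_cast hcnt)
  have e1 : |∑ i ∈ I, (if 0 ≤ TT (fun n => ArithmeticFunction.vonMangoldt n) (FF g lam Q) 1 (Nn i) then (1 : ℝ) else -1) *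
      TT (fun n => ArithmeticFunction.vonMangoldt n) (FF g lam Q) 1 (Nn i)| =
      ∑ i ∈ I, |TT (fun n => ArithmeticFunction.vonMangoldt n) (FF g lam Q) 1 (Nn i)| := by
    have e2 : ∑ i ∈ I, (if 0 ≤ TT (fun n => ArithmeticFunction.vonMangoldt n) (FF g lam Q) 1 (Nn i) then (1 : ℝ) else -1) *
      TT (fun n => ArithmeticFunction.vonMangoldt n) (FF g lam Q) 1 (Nn i) =
        ∑ i ∈ I, |TT (fun n => ArithmeticFunction.vonMangoldt n) (FF g lam Q) 1 (Nn i)| := by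
      apply sum_congr rfl
      intro m _
      split_ifs with h
      · rw [one_mul, abs_of_nonneg h]
      · rw [abs_of_neg (not_le.1 h)]; ring
    rw [e2, abs_of_nonneg (sum_nonneg fun _ _ => abs_nonneg _)]
  rw [e1, Nat.add_sub_cancel] at hmain
  have hEn' : (En (p' + 1) v : ℝ) ≤ L ^ C * (Fintype.card ι : ℝ) ^ (2 * (p' + 1)) / N := by
    rw [le_div_iff₀ hN0]
    exact hEn
  obtain ⟨Z, hZ⟩ : ∃ Z : ℝ, Z = Fintype.card ι := ⟨_, rfl⟩
  have hZ0 : 0 ≤ Z := by rw [hZ]; exact Nat.cast_nonneg _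
  rw [← hZ] at hEn' ⊢
  apply (pow_le_pow_iff_left₀ (sum_nonneg fun _ _ => abs_nonneg _) (by positivity) (by omega : 2 * (p' + 1) ≠ 0)).1
  refine hmain.trans ?_
  calc (2 * X * ℓ ^ 2) ^ (p' + 1) * ((X * ((L ^ T) ^ 2 * ℓ ^ m2)) ^ p' * ((N / L ^ E') ^ 2 * (En (p' + 1) v : ℝ)))
      ≤ (2 * (B * N) * (3 * L) ^ 2) ^ (p' + 1) * (((B * N) * ((L ^ T) ^ 2 * (3 * L) ^ m2)) ^ p' *
        ((N / L ^ E') ^ 2 * (L ^ C * Z ^ (2 * (p' + 1)) / N))) := by
        apply mul_le_mul _ _ (by positivity) (by positivity)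
        · apply pow_le_pow_left₀ (by positivity)
          apply mul_le_mul _ (pow_le_pow_left₀ hℓ0.le hℓL 2) (by positivity) (by positivity)
          linarith
        · apply mul_le_mul _ _ (by positivity) (by positivity)
          · apply pow_le_pow_left₀ (by positivity)
            apply mul_le_mul hXBr _ (by positivity) (by positivity)
            apply mul_le_mul_of_nonneg_left _ (by positivity)
            exact pow_le_pow_left₀ hℓ0.le hℓL _
          · exact mul_le_mul_of_nonneg_left hEn' (by positivity)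
    _ = ((18 * B : ℝ) ^ (p' + 1) * (B * 3 ^ m2) ^ p') * (L ^ (2 * (p' + 1) + (2 * T + m2) * p' + C) / (L ^ E') ^ 2) * (N * Z) ^ (2 * (p' + 1)) := by
        have q1 : (2 * ((B : ℝ) * N) * (3 * L) ^ 2) ^ (p' + 1) = (18 * B : ℝ) ^ (p' + 1) * N ^ (p' + 1) * L ^ (2 * (p' + 1)) := by
          rw [pow_mul L 2, ← mul_pow, ← mul_pow]
          congr 1
          ring
        have q2 : (((B : ℝ) * N) * ((L ^ T) ^ 2 * (3 * L) ^ m2)) ^ p' = (B * 3 ^ m2) ^ p' * N ^ p' * L ^ ((2 * T + m2) * p') := by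
          rw [pow_mul L (2 * T + m2), ← mul_pow, ← mul_pow]
          congr 1
          rw [← pow_mul, mul_comm T 2, mul_pow, pow_add]
          ring
        rw [q1, q2, mul_pow (N : ℝ) Z, pow_add L (2 * (p' + 1) + (2 * T + m2) * p') C, pow_add L (2 * (p' + 1))]
        have q3 : (N : ℝ) ^ (2 * (p' + 1)) = N ^ (p' + 1) * N ^ p' * N := by
          rw [← pow_add, ← pow_succ]
          congr 1
          omega
        rw [q3]
        field_simp
    _ ≤ L * (L ^ (2 * (p' + 1) + (2 * T + m2) * p' + C) / (L ^ E') ^ 2) * (N * Z) ^ (2 * (p' + 1)) := by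
        apply mul_le_mul_of_nonneg_right _ (by positivity)
        exact mul_le_mul_of_nonneg_right k2 (by positivity)
    _ ≤ 1 / (L ^ E) ^ (2 * (p' + 1)) * (N * Z) ^ (2 * (p' + 1)) := by
        apply mul_le_mul_of_nonneg_right _ (by positivity)
        rw [← mul_div_assoc, div_le_div_iff₀ (by positivity) (by positivity), one_mul, ← pow_mul, ← pow_mul, ← pow_succ', ← pow_add]
        apply pow_le_pow_right₀ hL1
        rw [hE']
        have z1 : 0 ≤ T * p' := Nat.zero_le _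
        have z2 : 0 ≤ m2 * p' := Nat.zero_le _
        have z3 : (2 * T + m2) * p' ≤ 2 * ((T + m2) * (p' + 1)) := by nlinarith
        have z4 : E * (2 * (p' + 1)) = 2 * ((p' + 1) * E) := by ring
        rw [z4]
        omega
    _ = (N * Z / L ^ E) ^ (2 * (p' + 1)) := by rw [div_pow]; ring

end Pool.Agent.U856.DE
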