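import Pool.Agent.U856.DE.D1

set_option autoImplicit false

/-! The majorant property for the sums over classes. -/

namespace Pool.Agent.U856.DE
open Finset
open Pool.Agent.H807R2.Dav
open Pool.Agent.H373R2.T7

/-- the number of the tuples whose sum of phases is divisible by `R` -/
def cnt {γ : Type*} (P : Finset γ) (ψ : γ → ℤ) (R p : ℕ) : ℕ :=
  ((Fintype.piFinset fun _ : Fin p => P).filter (fun w => (R : ℤ) ∣ ∑ i, ψ (w i))).card

lemma pow_sum_ee {γ : Type*} (P : Finset γ) (C : γ → ℂ) (ψ : γ → ℤ) (R p : ℕ) (hR : 1 ≤ R) :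
    ∑ t ∈ range R, (∑ z ∈ P, C z * ee ((t : ℝ) * ((ψ z : ℝ) / R))) ^ p =
      ∑ w ∈ Fintype.piFinset (fun _ : Fin p => P), (∏ i, C (w i)) * (if (R : ℤ) ∣ ∑ i, ψ (w i) then (R : ℂ) else 0) := by
  have h1 : ∀ t ∈ range R, (∑ z ∈ P, C z * ee ((t : ℝ) * ((ψ z : ℝ) / R))) ^ p =
      ∑ w ∈ Fintype.piFinset (fun _ : Fin p => P), (∏ i, C (w i)) * ee ((t : ℝ) * (((∑ i, ψ (w i) : ℤ) : ℝ) / R)) := by
    intro t _
    have h2 : (∑ z ∈ P, C z * ee ((t : ℝ) * ((ψ z : ℝ) / R))) ^ p =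
        ∏ _i : Fin p, ∑ z ∈ P, C z * ee ((t : ℝ) * ((ψ z : ℝ) / R)) := by
      rw [prod_const, card_univ, Fintype.card_fin]
    rw [h2, prod_univ_sum]
    apply sum_congr rfl
    intro w _
    rw [prod_mul_distrib]
    congr 1
    have h3 : ∀ S : Finset (Fin p), ∏ i ∈ S, ee ((t : ℝ) * ((ψ (w i) : ℝ) / R)) = ee ((t : ℝ) * (((∑ i ∈ S, ψ (w i) : ℤ) : ℝ) / R)) := by
      intro S
      induction S using Finset.cons_induction with
      | empty => simp [ee_zero]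
      | cons a S ha ih =>
        rw [prod_cons, sum_cons, ih, ← ee_add]
        congr 1
        push_cast
        ring
    exact h3 univ
  rw [sum_congr rfl h1, sum_comm]
  apply sum_congr rfl
  intro w _
  rw [← mul_sum, orth R hR]

lemma full {γ : Type*} (P : Finset γ) (ψ : γ → ℤ) (R p : ℕ) (hR : 1 ≤ R) :
    ∑ t ∈ range R, (∑ z ∈ P, ee ((t : ℝ) * ((ψ z : ℝ) / R))) ^ p = ((R * cnt P ψ R p : ℝ) : ℂ) := by
  have h1 := pow_sum_ee P (fun _ => 1) ψ R p hR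
  simp only [one_mul, prod_const_one] at h1
  rw [h1, ← sum_filter, sum_const, nsmul_eq_mul]
  unfold cnt
  push_cast
  ring

lemma maj {γ : Type*} (P P' : Finset γ) (hP : P ⊆ P') (C : γ → ℂ) (hC : ∀ z ∈ P, ‖C z‖ ≤ 1) (ψ : γ → ℤ) (R p : ℕ) (hR : 1 ≤ R) :
    ‖∑ t ∈ range R, (∑ z ∈ P, C z * ee ((t : ℝ) * ((ψ z : ℝ) / R))) ^ p‖ ≤ R * cnt P' ψ R p := by
  rw [pow_sum_ee P C ψ R p hR]
  refine (norm_sum_le _ _).trans ?_
  have h1 : ∀ w ∈ Fintype.piFinset (fun _ : Fin p => P), ‖(∏ i, C (w i)) * (if (R : ℤ) ∣ ∑ i, ψ (w i) then (R : ℂ) else 0)‖ ≤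
      if (R : ℤ) ∣ ∑ i, ψ (w i) then (R : ℝ) else 0 := by
    intro w hw
    rw [Fintype.mem_piFinset] at hw
    rw [norm_mul, norm_prod]
    have h2 : ∏ i, ‖C (w i)‖ ≤ 1 := prod_le_one (fun _ _ => norm_nonneg _) (fun i _ => hC _ (hw i))
    have h3 : ‖(if (R : ℤ) ∣ ∑ i, ψ (w i) then (R : ℂ) else 0)‖ = if (R : ℤ) ∣ ∑ i, ψ (w i) then (R : ℝ) else 0 := by
      split_ifs <;> simp
    rw [h3]
    have h4 : (0 : ℝ) ≤ if (R : ℤ) ∣ ∑ i, ψ (w i) then (R : ℝ) else 0 := by split_ifs <;> positivity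
    calc _ ≤ 1 * (if (R : ℤ) ∣ ∑ i, ψ (w i) then (R : ℝ) else 0) := mul_le_mul_of_nonneg_right h2 h4
      _ = _ := one_mul _
  refine (sum_le_sum h1).trans ?_
  rw [← sum_filter, sum_const, nsmul_eq_mul, mul_comm]
  apply mul_le_mul_of_nonneg_left _ (Nat.cast_nonneg _)
  unfold cnt
  norm_cast
  apply card_le_card
  intro w hw
  rw [mem_filter, Fintype.mem_piFinset] at hw ⊢
  exact ⟨fun i => hP (hw.1 i), hw.2⟩

/-- the pairs in the same class -/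
def prs {σ : Type*} (s : Finset σ) (κ : σ → ℕ) : Finset (σ × σ) := (s ×ˢ s).filter (fun z => κ z.1 = κ z.2)

lemma SS_sq {σ : Type*} (s : Finset σ) (c : σ → ℝ) (v : σ → ℤ) (κ : σ → ℕ) (A : ℕ) (hκ : ∀ i ∈ s, κ i < A) (q R t : ℕ) :
    ((∑ a ∈ range A, ‖SS s c v κ q R a t‖ ^ 2 : ℝ) : ℂ) =
      ∑ z ∈ prs s κ, ((c z.1 : ℂ) * c z.2) * ee ((t : ℝ) * (((-(v z.1 / q) + v z.2 / q : ℤ) : ℝ) / R)) := by
  rw [Complex.ofReal_sum]
  simp only [Complex.ofReal_pow]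
  have h1 : ∀ a ∈ range A, ((‖SS s c v κ q R a t‖ : ℂ)) ^ 2 =
      ∑ z ∈ (prs s κ).filter (fun z => κ z.1 = a), ((c z.1 : ℂ) * c z.2) * ee ((t : ℝ) * (((-(v z.1 / q) + v z.2 / q : ℤ) : ℝ) / R)) := by
    intro a _
    rw [← Complex.mul_conj']
    unfold SS
    rw [map_sum, sum_mul_sum, ← sum_product']
    have h2 : (prs s κ).filter (fun z => κ z.1 = a) = s.filter (fun i => κ i = a) ×ˢ s.filter (fun i => κ i = a) := by
      ext z
      unfold prs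
      simp only [mem_filter, mem_product]
      constructor
      · rintro ⟨⟨⟨a1, a2⟩, a3⟩, a4⟩
        exact ⟨⟨a1, a4⟩, a2, a3 ▸ a4⟩
      · rintro ⟨⟨a1, a4⟩, a2, a5⟩
        exact ⟨⟨⟨a1, a2⟩, a4.trans a5.symm⟩, a4⟩
    rw [h2]
    apply sum_congr rfl
    intro z _
    rw [map_mul, Complex.conj_ofReal, conj_ee]
    have h3 : ee ((t : ℝ) * (((-(v z.1 / q) + v z.2 / q : ℤ) : ℝ) / R)) =
        ee ((t : ℝ) * (((-(v z.1 / q) : ℤ) : ℝ) / R)) * ee (-((t : ℝ) * (((-(v z.2 / q) : ℤ) : ℝ) / R))) := by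
      rw [← ee_add]
      congr 1
      push_cast
      ring
    rw [h3]
    ring
  rw [sum_congr rfl h1]
  apply sum_fiberwise_of_maps_to
  intro z hz
  unfold prs at hz
  rw [mem_filter, mem_product] at hz
  exact mem_range.2 (hκ _ hz.1.1)

/-- the moment of the sums over classes is at most the number of solutions -/
theorem J_le {σ : Type*} (s : Finset σ) (c : σ → ℝ) (hc : ∀ i ∈ s, |c i| ≤ 1) (v : σ → ℤ) (κ : σ → ℕ) (A : ℕ) (hκ : ∀ i ∈ s, κ i < A)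
    (q R p : ℕ) (hR : 1 ≤ R) (s' : Finset σ) (hs : s ⊆ s') :
    ∑ t ∈ range R, (∑ a ∈ range A, ‖SS s c v κ q R a t‖ ^ 2) ^ p ≤
      R * cnt (prs s' κ) (fun z => -(v z.1 / q) + v z.2 / q) R p := by
  have h0 : 0 ≤ ∑ t ∈ range R, (∑ a ∈ range A, ‖SS s c v κ q R a t‖ ^ 2) ^ p :=
    sum_nonneg fun _ _ => pow_nonneg (sum_nonneg fun _ _ => by positivity) _
  have h1 : ∑ t ∈ range R, (∑ a ∈ range A, ‖SS s c v κ q R a t‖ ^ 2) ^ p =
      ‖∑ t ∈ range R, (∑ z ∈ prs s κ, ((c z.1 : ℂ) * c z.2) * ee ((t : ℝ) * (((-(v z.1 / q) + v z.2 / q : ℤ) : ℝ) / R))) ^ p‖ := by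
    have h2 : ∑ t ∈ range R, (∑ z ∈ prs s κ, ((c z.1 : ℂ) * c z.2) * ee ((t : ℝ) * (((-(v z.1 / q) + v z.2 / q : ℤ) : ℝ) / R))) ^ p =
        ((∑ t ∈ range R, (∑ a ∈ range A, ‖SS s c v κ q R a t‖ ^ 2) ^ p : ℝ) : ℂ) := by
      rw [Complex.ofReal_sum]
      apply sum_congr rfl
      intro t _
      rw [Complex.ofReal_pow, SS_sq s c v κ A hκ q R t]
    rw [h2, Complex.norm_real, Real.norm_of_nonneg h0]
  rw [h1]
  apply maj (prs s κ) (prs s' κ) _ (fun z => (c z.1 : ℂ) * c z.2) _ (fun z => -(v z.1 / q) + v z.2 / q) R p hR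
  · intro z hz
    unfold prs at hz ⊢
    rw [mem_filter, mem_product] at hz ⊢
    exact ⟨⟨hs hz.1.1, hs hz.1.2⟩, hz.2⟩
  · intro z hz
    unfold prs at hz
    rw [mem_filter, mem_product] at hz
    rw [norm_mul, Complex.norm_real, Complex.norm_real, Real.norm_eq_abs, Real.norm_eq_abs]
    exact mul_le_one₀ (hc _ hz.1.1) (abs_nonneg _) (hc _ hz.1.2)

end Pool.Agent.U856.DE
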