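import Pool.Agent.U856.DE.D2

set_option autoImplicit false

/-! Weyl differencing for integer polynomials, with counting functions of the differences. -/

namespace Pool.Agent.U856.DE
open Finset Polynomial
open Pool.Agent.H807R2.Dav
open Pool.Agent.H373R2.T7

/-- the difference of a polynomial -/
noncomputable def Dl (h : ℤ) (F : ℤ[X]) : ℤ[X] := taylor h F - F

lemma Dl_eval (h : ℤ) (F : ℤ[X]) (m : ℤ) : (Dl h F).eval m = F.eval (m + h) - F.eval m := by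
  unfold Dl
  rw [eval_sub, taylor_eval]

lemma Dl_zero (F : ℤ[X]) : Dl 0 F = 0 := by
  unfold Dl
  simp

lemma Dl_natDegree (F : ℤ[X]) (n : ℕ) (hn : F.natDegree = n + 1) (h : ℤ) (hh : h ≠ 0) : (Dl h F).natDegree = n := by
  have hlc : F.coeff (n + 1) ≠ 0 := by
    rw [← hn]
    intro h0
    have : F = 0 := leadingCoeff_eq_zero.1 h0
    rw [this] at hn
    simp at hn
  have e1 : (taylor h F).coeff (n + 1) = F.coeff (n + 1) := by
    rw [taylor_coeff]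
    have h1 : (hasseDeriv (n + 1) F).natDegree < 1 := by
      have := natDegree_hasseDeriv_le F (n + 1)
      omega
    rw [eval_eq_sum_range' h1, sum_range_one, hasseDeriv_coeff]
    simp
  have e2 : (taylor h F).coeff n = F.coeff n + (n + 1) * F.coeff (n + 1) * h := by
    rw [taylor_coeff]
    have h1 : (hasseDeriv n F).natDegree < 2 := by
      have := natDegree_hasseDeriv_le F n
      omega
    rw [eval_eq_sum_range' h1, sum_range_succ, sum_range_one, hasseDeriv_coeff, hasseDeriv_coeff]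
    simp [add_comm]
  apply le_antisymm
  · rw [natDegree_le_iff_coeff_eq_zero]
    intro N hN
    unfold Dl
    rw [coeff_sub]
    rcases Nat.lt_or_ge (n + 1) N with h1 | h1
    · rw [coeff_eq_zero_of_natDegree_lt (by rw [natDegree_taylor]; omega), coeff_eq_zero_of_natDegree_lt (by omega), sub_zero]
    · have h2 : N = n + 1 := by omega
      rw [h2, e1, sub_self]
  · apply le_natDegree_of_ne_zero
    unfold Dl
    rw [coeff_sub, e2]
    have h1 : F.coeff n + (n + 1) * F.coeff (n + 1) * h - F.coeff n = (n + 1) * F.coeff (n + 1) * h := by ring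
    rw [h1]
    exact mul_ne_zero (mul_ne_zero (by positivity) hlc) hh

lemma Dl_dvd (h : ℤ) (F : ℤ[X]) (m : ℤ) : h ∣ (Dl h F).eval m := by
  rw [Dl_eval]
  have := F.sub_dvd_eval_sub (m + h) m
  simpa using this

/-- the iterated differences of an exponential sum -/
noncomputable def AA (x : ℕ) (β : ℝ) : ℕ → ℤ[X] → Finset ℤ → ℂ
  | 0, F, I => ∑ m ∈ I, ee (β * ((F.eval m : ℤ) : ℝ))
  | j + 1, F, I => ∑ h ∈ Icc (-(x : ℤ)) x, AA x β j (Dl h F) (I.filter (fun m => m + h ∈ I))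

/-- the number of the representations by the iterated differences -/
noncomputable def cc (x : ℕ) : ℕ → ℤ[X] → Finset ℤ → ℤ → ℕ
  | 0, F, I, k => (I.filter (fun m => F.eval m = k)).card
  | j + 1, F, I, k => ∑ h ∈ Icc (-(x : ℤ)) x, cc x j (Dl h F) (I.filter (fun m => m + h ∈ I)) k

lemma cc_zero' (x : ℕ) (F : ℤ[X]) (I : Finset ℤ) (k : ℤ) : cc x 0 F I k = (I.filter (fun m => F.eval m = k)).card := rfl

lemma cc_succ (x j : ℕ) (F : ℤ[X]) (I : Finset ℤ) (k : ℤ) :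
    cc x (j + 1) F I k = ∑ h ∈ Icc (-(x : ℤ)) x, cc x j (Dl h F) (I.filter (fun m => m + h ∈ I)) k := rfl

lemma sq_diff (x : ℕ) (β : ℝ) (F : ℤ[X]) (I : Finset ℤ) (hI : I ⊆ Icc 1 (x : ℤ)) :
    AA x β 1 F I = ((‖AA x β 0 F I‖ ^ 2 : ℝ) : ℂ) := by
  have h0 : AA x β 0 F I = ∑ m ∈ I, ee (β * ((F.eval m : ℤ) : ℝ)) := rfl
  have h1 : AA x β 1 F I = ∑ h ∈ Icc (-(x : ℤ)) x, ∑ m ∈ I.filter (fun m => m + h ∈ I), ee (β * (((Dl h F).eval m : ℤ) : ℝ)) := rfl
  rw [h1, Complex.ofReal_pow, ← Complex.conj_mul', h0, map_sum, sum_mul_sum]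
  have h2 : ∀ h ∈ Icc (-(x : ℤ)) x, ∑ m ∈ I.filter (fun m => m + h ∈ I), ee (β * (((Dl h F).eval m : ℤ) : ℝ)) =
      ∑ m ∈ I, if m + h ∈ I then ee (β * (((Dl h F).eval m : ℤ) : ℝ)) else 0 := by
    intro h _
    rw [sum_filter]
  rw [sum_congr rfl h2, sum_comm]
  apply sum_congr rfl
  intro m hm
  rw [← sum_filter]
  apply sum_bij (fun h _ => m + h)
  · intro h hh
    exact (mem_filter.1 hh).2
  · intro h _ h' _ e
    exact add_left_cancel e
  · intro m' hm'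
    refine ⟨m' - m, ?_, by ring⟩
    have a1 := mem_Icc.1 (hI hm)
    have a2 := mem_Icc.1 (hI hm')
    rw [mem_filter, mem_Icc]
    refine ⟨⟨by omega, by omega⟩, ?_⟩
    rw [add_sub_cancel]
    exact hm'
  · intro h _
    rw [conj_ee, ← ee_add, Dl_eval]
    congr 1
    push_cast
    ring

lemma AA_nonneg (x : ℕ) (β : ℝ) (j : ℕ) : ∀ (F : ℤ[X]) (I : Finset ℤ), I ⊆ Icc 1 (x : ℤ) →
    AA x β (j + 1) F I = ((‖AA x β (j + 1) F I‖ : ℝ) : ℂ) := by
  induction j with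
  | zero =>
    intro F I hI
    rw [zero_add, sq_diff x β F I hI, Complex.norm_real, Real.norm_of_nonneg (by positivity)]
  | succ j ih =>
    intro F I hI
    have h1 : AA x β (j + 1 + 1) F I = ∑ h ∈ Icc (-(x : ℤ)) x, AA x β (j + 1) (Dl h F) (I.filter (fun m => m + h ∈ I)) := rfl
    have h2 : ∑ h ∈ Icc (-(x : ℤ)) x, AA x β (j + 1) (Dl h F) (I.filter (fun m => m + h ∈ I)) =
        ((∑ h ∈ Icc (-(x : ℤ)) x, ‖AA x β (j + 1) (Dl h F) (I.filter (fun m => m + h ∈ I))‖ : ℝ) : ℂ) := by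
      rw [Complex.ofReal_sum]
      apply sum_congr rfl
      intro h _
      exact ih _ _ ((filter_subset _ _).trans hI)
    rw [h1, h2, Complex.norm_real, Real.norm_of_nonneg (sum_nonneg fun _ _ => norm_nonneg _)]

lemma AA_norm_succ (x : ℕ) (β : ℝ) (j : ℕ) (F : ℤ[X]) (I : Finset ℤ) (hI : I ⊆ Icc 1 (x : ℤ)) :
    ‖AA x β (j + 2) F I‖ = ∑ h ∈ Icc (-(x : ℤ)) x, ‖AA x β (j + 1) (Dl h F) (I.filter (fun m => m + h ∈ I))‖ := by
  have h1 : AA x β (j + 2) F I = ∑ h ∈ Icc (-(x : ℤ)) x, AA x β (j + 1) (Dl h F) (I.filter (fun m => m + h ∈ I)) := rfl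
  have h2 : ∑ h ∈ Icc (-(x : ℤ)) x, AA x β (j + 1) (Dl h F) (I.filter (fun m => m + h ∈ I)) =
      ((∑ h ∈ Icc (-(x : ℤ)) x, ‖AA x β (j + 1) (Dl h F) (I.filter (fun m => m + h ∈ I))‖ : ℝ) : ℂ) := by
    rw [Complex.ofReal_sum]
    apply sum_congr rfl
    intro h _
    exact AA_nonneg x β j _ _ ((filter_subset _ _).trans hI)
  rw [h1, h2, Complex.norm_real, Real.norm_of_nonneg (sum_nonneg fun _ _ => norm_nonneg _)]

/-- power means of finite sums -/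
lemma pm {ι : Type*} (s : Finset ι) (f : ι → ℝ) (hf : ∀ i ∈ s, 0 ≤ f i) (n : ℕ) (hn : 1 ≤ n) :
    (∑ i ∈ s, f i) ^ n ≤ (s.card : ℝ) ^ (n - 1) * ∑ i ∈ s, f i ^ n := by
  obtain ⟨k, rfl⟩ : ∃ k, n = k + 1 := ⟨n - 1, by omega⟩
  rw [Nat.add_sub_cancel]
  rcases s.eq_empty_or_nonempty with h0 | h0
  · subst h0
    simp
  have h1 := pow_sum_div_card_le_sum_pow hf k
  have hc : (0 : ℝ) < (s.card : ℝ) ^ k := by
    have := Finset.card_pos.2 h0
    positivity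
  rw [div_le_iff₀ hc] at h1
  linarith

lemma cardI (x : ℕ) : (Icc (-(x : ℤ)) x).card = 2 * x + 1 := by
  rw [Int.card_Icc]
  omega

/-- the inequality of Weyl -/
theorem weyl (x : ℕ) (β : ℝ) (j : ℕ) : ∀ (F : ℤ[X]) (I : Finset ℤ), I ⊆ Icc 1 (x : ℤ) →
    ‖AA x β 0 F I‖ ^ (2 ^ j) ≤ ((2 * x + 1 : ℕ) : ℝ) ^ (2 ^ j - j - 1) * ‖AA x β j F I‖ := by
  induction j with
  | zero => intro F I _; simp
  | succ j ih =>
    intro F I hI
    have hj : j + 1 ≤ 2 ^ j := Nat.lt_two_pow_self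
    have h1 : ‖AA x β 0 F I‖ ^ 2 = ‖AA x β 1 F I‖ := by
      rw [sq_diff x β F I hI, Complex.norm_real, Real.norm_of_nonneg (by positivity)]
    have h2 : ‖AA x β 1 F I‖ ≤ ∑ h ∈ Icc (-(x : ℤ)) x, ‖AA x β 0 (Dl h F) (I.filter (fun m => m + h ∈ I))‖ := norm_sum_le _ _
    rcases Nat.eq_zero_or_pos j with h0 | h0
    · subst h0
      rw [zero_add, pow_one, h1]
      simp
    obtain ⟨i, rfl⟩ : ∃ i, j = i + 1 := ⟨j - 1, by omega⟩
    rw [pow_succ 2 (i + 1), mul_comm (2 ^ (i + 1)) 2, pow_mul, h1]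
    calc ‖AA x β 1 F I‖ ^ 2 ^ (i + 1) ≤ (∑ h ∈ Icc (-(x : ℤ)) x, ‖AA x β 0 (Dl h F) (I.filter (fun m => m + h ∈ I))‖) ^ 2 ^ (i + 1) :=
          pow_le_pow_left₀ (norm_nonneg _) h2 _
      _ ≤ ((2 * x + 1 : ℕ) : ℝ) ^ (2 ^ (i + 1) - 1) * ∑ h ∈ Icc (-(x : ℤ)) x, ‖AA x β 0 (Dl h F) (I.filter (fun m => m + h ∈ I))‖ ^ 2 ^ (i + 1) := by
          have := pm (Icc (-(x : ℤ)) x) (fun h => ‖AA x β 0 (Dl h F) (I.filter (fun m => m + h ∈ I))‖) (fun _ _ => norm_nonneg _)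
            (2 ^ (i + 1)) (Nat.one_le_two_pow)
          rw [cardI] at this
          exact this
      _ ≤ ((2 * x + 1 : ℕ) : ℝ) ^ (2 ^ (i + 1) - 1) * ∑ h ∈ Icc (-(x : ℤ)) x, ((2 * x + 1 : ℕ) : ℝ) ^ (2 ^ (i + 1) - (i + 1) - 1) *
            ‖AA x β (i + 1) (Dl h F) (I.filter (fun m => m + h ∈ I))‖ := by
          apply mul_le_mul_of_nonneg_left _ (by positivity)
          exact sum_le_sum fun h _ => ih _ _ ((filter_subset _ _).trans hI)
      _ = _ := by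
          rw [← mul_sum, ← AA_norm_succ x β i F I hI, ← mul_assoc, ← pow_add]
          congr 2
          have h3 : 2 ^ (i + 1) * 2 = 2 ^ (i + 1) + 2 ^ (i + 1) := by ring
          rw [mul_comm 2, h3]
          omega

end Pool.Agent.U856.DE
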