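import Pool.Agent.U856.DE.D3

set_option autoImplicit false

/-! The counting functions of the iterated differences. -/

namespace Pool.Agent.U856.DE
open Finset Polynomial
open Pool.Agent.H807R2.Dav
open Pool.Agent.H373R2.T7

lemma cc_dvd (x j : ℕ) : ∀ (F : ℤ[X]) (I : Finset ℤ) (k e : ℤ), (∀ m : ℤ, e ∣ F.eval m) → cc x j F I k ≠ 0 → e ∣ k := by
  induction j with
  | zero =>
    intro F I k e he h
    rw [cc_zero'] at h
    obtain ⟨m, hm⟩ := Finset.card_ne_zero.1 h
    rw [← (mem_filter.1 hm).2]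
    exact he m
  | succ j ih =>
    intro F I k e he h
    rw [cc_succ] at h
    obtain ⟨h', _, hne⟩ := exists_ne_zero_of_sum_ne_zero h
    refine ih _ _ k e (fun m => ?_) hne
    rw [Dl_eval]
    exact dvd_sub (he _) (he _)

lemma cc_range (x j : ℕ) : ∀ (F : ℤ[X]) (I : Finset ℤ) (B k : ℤ), (∀ m ∈ I, |F.eval m| ≤ B) → cc x j F I k ≠ 0 → |k| ≤ 2 ^ j * B := by
  induction j with
  | zero =>
    intro F I B k hB h
    rw [cc_zero'] at h
    obtain ⟨m, hm⟩ := Finset.card_ne_zero.1 h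
    rw [mem_filter] at hm
    rw [← hm.2, pow_zero, one_mul]
    exact hB m hm.1
  | succ j ih =>
    intro F I B k hB h
    rw [cc_succ] at h
    obtain ⟨h', _, hne⟩ := exists_ne_zero_of_sum_ne_zero h
    have h1 := ih (Dl h' F) (I.filter (fun m => m + h' ∈ I)) (2 * B) k (fun m hm => by
      rw [mem_filter] at hm
      rw [Dl_eval]
      refine (abs_sub _ _).trans ?_
      have a1 := hB _ hm.1
      have a2 := hB _ hm.2
      linarith) hne
    rw [pow_succ]
    linarith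

lemma AA_eq (x : ℕ) (β : ℝ) (j : ℕ) : ∀ (F : ℤ[X]) (I : Finset ℤ) (K : Finset ℤ), (∀ k, cc x j F I k ≠ 0 → k ∈ K) →
    AA x β j F I = ∑ k ∈ K, (cc x j F I k : ℂ) * ee (β * (k : ℝ)) := by
  induction j with
  | zero =>
    intro F I K hK
    have h0 : AA x β 0 F I = ∑ m ∈ I, ee (β * ((F.eval m : ℤ) : ℝ)) := rfl
    rw [h0, ← sum_fiberwise_of_maps_to (s := I) (t := K) (g := fun m => F.eval m)]
    · apply sum_congr rfl
      intro k _
      rw [cc_zero', ← nsmul_eq_mul, ← sum_const]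
      apply sum_congr rfl
      intro m hm
      rw [(mem_filter.1 hm).2]
    · intro m hm
      apply hK
      rw [cc_zero']
      apply Finset.card_ne_zero.2
      exact ⟨m, mem_filter.2 ⟨hm, rfl⟩⟩
  | succ j ih =>
    intro F I K hK
    have h0 : AA x β (j + 1) F I = ∑ h ∈ Icc (-(x : ℤ)) x, AA x β j (Dl h F) (I.filter (fun m => m + h ∈ I)) := rfl
    rw [h0]
    have h1 : ∀ h ∈ Icc (-(x : ℤ)) x, AA x β j (Dl h F) (I.filter (fun m => m + h ∈ I)) =
        ∑ k ∈ K, (cc x j (Dl h F) (I.filter (fun m => m + h ∈ I)) k : ℂ) * ee (β * (k : ℝ)) := by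
      intro h hh
      apply ih
      intro k hk
      apply hK
      rw [cc_succ]
      intro h2
      rw [sum_eq_zero_iff] at h2
      exact hk (h2 h hh)
    rw [sum_congr rfl h1, sum_comm]
    apply sum_congr rfl
    intro k _
    rw [← sum_mul, cc_succ]
    push_cast
    rfl

lemma numdiv (S : Finset ℤ) (k : ℤ) (hk : k ≠ 0) (hS : ∀ h ∈ S, h ∣ k) : S.card ≤ 2 * (k.natAbs.divisors.card) := by
  have h1 : S.card ≤ ((k.natAbs.divisors) ×ˢ (univ : Finset Bool)).card := by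
    apply card_le_card_of_injOn (fun h => (h.natAbs, decide (0 ≤ h)))
    · intro h hh
      rw [mem_coe, mem_product, Nat.mem_divisors]
      exact ⟨⟨Int.natAbs_dvd_natAbs.2 (hS h hh), by omega⟩, mem_univ _⟩
    · intro h _ h' _ e
      simp only [Prod.mk.injEq, decide_eq_decide] at e
      omega
  rw [card_product, card_univ, Fintype.card_bool] at h1
  omega

lemma lin_count (F : ℤ[X]) (hF : F.natDegree = 1) (I : Finset ℤ) (k : ℤ) : (I.filter (fun m => F.eval m = k)).card ≤ 1 := by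
  rw [card_le_one]
  intro a ha b hb
  rw [mem_filter] at ha hb
  have h1 := eq_X_add_C_of_natDegree_le_one hF.le
  have h2 : F.coeff 1 ≠ 0 := by
    intro h0
    have : F.leadingCoeff = 0 := by rw [leadingCoeff, hF, h0]
    rw [leadingCoeff_eq_zero] at this
    rw [this] at hF
    simp at hF
  have e : F.eval a = F.eval b := by rw [ha.2, hb.2]
  rw [h1] at e
  simp only [eval_add, eval_mul, eval_C, eval_X] at e
  have e2 : F.coeff 1 * a = F.coeff 1 * b := by linarith
  exact mul_left_cancel₀ h2 e2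

lemma cc_bound (x j : ℕ) : ∀ (F : ℤ[X]) (I : Finset ℤ) (k : ℤ), F.natDegree = j + 1 → k ≠ 0 →
    cc x j F I k ≤ (2 * k.natAbs.divisors.card) ^ j := by
  induction j with
  | zero =>
    intro F I k hF _
    rw [cc_zero', pow_zero]
    exact lin_count F hF I k
  | succ j ih =>
    intro F I k hF hk
    obtain ⟨S, hS⟩ : ∃ S, S = (Icc (-(x : ℤ)) x).filter (fun h => h ∣ k) := ⟨_, rfl⟩
    have h1 : cc x (j + 1) F I k = ∑ h ∈ S, cc x j (Dl h F) (I.filter (fun m => m + h ∈ I)) k := by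
      rw [cc_succ, hS]
      symm
      apply sum_subset (filter_subset _ _)
      intro h hh hn
      by_contra hne
      apply hn
      rw [mem_filter]
      exact ⟨hh, cc_dvd x j _ _ k h (Dl_dvd h F) hne⟩
    rw [h1]
    have h2 : ∀ h ∈ S, cc x j (Dl h F) (I.filter (fun m => m + h ∈ I)) k ≤ (2 * k.natAbs.divisors.card) ^ j := by
      intro h hh
      rw [hS, mem_filter] at hh
      have hne : h ≠ 0 := by
        rintro rfl
        exact hk (zero_dvd_iff.1 hh.2)
      exact ih _ _ k (Dl_natDegree F (j + 1) hF h hne) hk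
    refine (sum_le_sum h2).trans ?_
    rw [sum_const, smul_eq_mul, pow_succ']
    apply Nat.mul_le_mul_right
    apply numdiv S k hk
    intro h hh
    rw [hS, mem_filter] at hh
    exact hh.2

lemma cc_tot (x j : ℕ) : ∀ (F : ℤ[X]) (I : Finset ℤ) (K : Finset ℤ), ∑ k ∈ K, cc x j F I k ≤ I.card * (2 * x + 1) ^ j := by
  induction j with
  | zero =>
    intro F I K
    rw [pow_zero, mul_one]
    simp only [cc_zero']
    have h1 : ∑ k ∈ K, (I.filter (fun m => F.eval m = k)).card = (I.filter (fun m => F.eval m ∈ K)).card := by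
      rw [card_eq_sum_card_fiberwise (f := fun m => F.eval m) (t := K)]
      · apply sum_congr rfl
        intro k hk
        rw [filter_filter]
        congr 1
        ext m
        simp only [mem_filter]
        constructor
        · rintro ⟨a1, a2⟩
          exact ⟨a1, by rw [a2]; exact hk, a2⟩
        · rintro ⟨a1, _, a3⟩
          exact ⟨a1, a3⟩
      · intro m hm
        exact (mem_filter.1 (mem_coe.1 hm)).2
    rw [h1]
    exact card_le_card (filter_subset _ _)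
  | succ j ih =>
    intro F I K
    simp only [cc_succ]
    rw [sum_comm]
    have h1 : ∀ h ∈ Icc (-(x : ℤ)) x, ∑ k ∈ K, cc x j (Dl h F) (I.filter (fun m => m + h ∈ I)) k ≤ I.card * (2 * x + 1) ^ j := by
      intro h _
      refine (ih _ _ K).trans ?_
      exact Nat.mul_le_mul_right _ (card_le_card (filter_subset _ _))
    refine (sum_le_sum h1).trans ?_
    rw [sum_const, cardI, smul_eq_mul, pow_succ]
    apply le_of_eq
    ring

lemma cc_zero_bound (x j : ℕ) : ∀ (F : ℤ[X]) (I : Finset ℤ), I ⊆ Icc 1 (x : ℤ) → F.natDegree = j + 1 →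
    cc x j F I 0 ≤ (j + 1) * (2 * x + 1) ^ j := by
  induction j with
  | zero =>
    intro F I _ hF
    rw [cc_zero', pow_zero]
    exact lin_count F hF I 0
  | succ j ih =>
    intro F I hI hF
    rw [cc_succ, ← add_sum_erase _ _ (show (0 : ℤ) ∈ Icc (-(x : ℤ)) x by rw [mem_Icc]; omega)]
    have hIc : I.card ≤ x := by
      refine (card_le_card hI).trans ?_
      rw [Int.card_Icc]
      omega
    have h1 : cc x j (Dl 0 F) (I.filter (fun m => m + 0 ∈ I)) 0 ≤ (2 * x + 1) ^ (j + 1) := by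
      have h2 := cc_tot x j (Dl 0 F) (I.filter (fun m => m + 0 ∈ I)) {0}
      rw [sum_singleton] at h2
      refine h2.trans ?_
      rw [pow_succ']
      apply Nat.mul_le_mul_right
      refine (card_le_card (filter_subset _ _)).trans (hIc.trans (by omega))
    have h2 : ∑ h ∈ (Icc (-(x : ℤ)) x).erase 0, cc x j (Dl h F) (I.filter (fun m => m + h ∈ I)) 0 ≤ (2 * x + 1) * ((j + 1) * (2 * x + 1) ^ j) := by
      have h3 : ∀ h ∈ (Icc (-(x : ℤ)) x).erase 0, cc x j (Dl h F) (I.filter (fun m => m + h ∈ I)) 0 ≤ (j + 1) * (2 * x + 1) ^ j := by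
        intro h hh
        rw [mem_erase] at hh
        exact ih _ _ ((filter_subset _ _).trans hI) (Dl_natDegree F (j + 1) hF h hh.1)
      refine (sum_le_sum h3).trans ?_
      rw [sum_const, smul_eq_mul]
      apply Nat.mul_le_mul_right
      refine (card_le_card (erase_subset _ _)).trans ?_
      rw [cardI]
    calc _ ≤ (2 * x + 1) ^ (j + 1) + (2 * x + 1) * ((j + 1) * (2 * x + 1) ^ j) := add_le_add h1 h2
      _ = _ := by ring

/-- the differences with respect to multiples of `q` -/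
noncomputable def Cq (x T : ℕ) (q j : ℕ) (f : ℤ[X]) (k : ℤ) : ℕ :=
  ∑ u ∈ Icc (-(T : ℤ)) T, cc x j (Dl (q * u) f) ((Icc 1 (x : ℤ)).filter (fun m => m + q * u ∈ Icc 1 (x : ℤ))) k

lemma Cq_dvd (x T q j : ℕ) (f : ℤ[X]) (k : ℤ) (h : Cq x T q j f k ≠ 0) : (q : ℤ) ∣ k := by
  unfold Cq at h
  obtain ⟨u, _, hne⟩ := exists_ne_zero_of_sum_ne_zero h
  exact cc_dvd x j _ _ k q (fun m => (Dvd.intro u rfl).trans (Dl_dvd _ f m)) hne

lemma Cq_range (x T q j : ℕ) (f : ℤ[X]) (B k : ℤ) (hB : ∀ m ∈ Icc 1 (x : ℤ), |f.eval m| ≤ B) (h : Cq x T q j f k ≠ 0) :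
    |k| ≤ 2 ^ (j + 1) * B := by
  unfold Cq at h
  obtain ⟨u, _, hne⟩ := exists_ne_zero_of_sum_ne_zero h
  have h1 := cc_range x j (Dl (q * u) f) ((Icc 1 (x : ℤ)).filter (fun m => m + q * u ∈ Icc 1 (x : ℤ))) (2 * B) k (fun m hm => by
    rw [mem_filter] at hm
    rw [Dl_eval]
    refine (abs_sub _ _).trans ?_
    have a1 := hB _ hm.1
    have a2 := hB _ hm.2
    linarith) hne
  rw [pow_succ]
  linarith

lemma Cq_bound (x T q j : ℕ) (hq : 1 ≤ q) (f : ℤ[X]) (hf : f.natDegree = j + 2) (k : ℤ) (hk : k ≠ 0) :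
    Cq x T q j f k ≤ (2 * k.natAbs.divisors.card) ^ (j + 1) := by
  obtain ⟨S, hS⟩ : ∃ S, S = (Icc (-(T : ℤ)) T).filter (fun u => u ∣ k) := ⟨_, rfl⟩
  have hq0 : (q : ℤ) ≠ 0 := by omega
  have h1 : Cq x T q j f k = ∑ u ∈ S, cc x j (Dl (q * u) f) ((Icc 1 (x : ℤ)).filter (fun m => m + q * u ∈ Icc 1 (x : ℤ))) k := by
    unfold Cq
    rw [hS]
    symm
    apply sum_subset (filter_subset _ _)
    intro h hh hn
    by_contra hne
    apply hn
    rw [mem_filter]
    exact ⟨hh, cc_dvd x j _ _ k h (fun m => (Dvd.intro_left (q : ℤ) rfl).trans (Dl_dvd _ f m)) hne⟩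
  rw [h1]
  have h2 : ∀ u ∈ S, cc x j (Dl (q * u) f) ((Icc 1 (x : ℤ)).filter (fun m => m + q * u ∈ Icc 1 (x : ℤ))) k ≤ (2 * k.natAbs.divisors.card) ^ j := by
    intro h hh
    rw [hS, mem_filter] at hh
    have hne : h ≠ 0 := by
      rintro rfl
      exact hk (zero_dvd_iff.1 hh.2)
    exact cc_bound x j _ _ k (Dl_natDegree f (j + 1) hf _ (mul_ne_zero hq0 hne)) hk
  refine (sum_le_sum h2).trans ?_
  rw [sum_const, smul_eq_mul, pow_succ']
  apply Nat.mul_le_mul_right
  apply numdiv S k hk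
  intro h hh
  rw [hS, mem_filter] at hh
  exact hh.2

lemma Icc_card (x : ℕ) (P : ℤ → Prop) [DecidablePred P] : ((Icc 1 (x : ℤ)).filter P).card ≤ x := by
  refine (card_le_card (filter_subset _ _)).trans ?_
  rw [Int.card_Icc]
  omega

lemma cardI' (T : ℕ) : (Icc (-(T : ℤ)) T).card = 2 * T + 1 := by
  rw [Int.card_Icc]
  omega

lemma Cq_tot (x T q j : ℕ) (f : ℤ[X]) (K : Finset ℤ) : ∑ k ∈ K, Cq x T q j f k ≤ (2 * T + 1) * (x * (2 * x + 1) ^ j) := by
  unfold Cq
  rw [sum_comm]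
  have h1 : ∀ u ∈ Icc (-(T : ℤ)) T, ∑ k ∈ K, cc x j (Dl (q * u) f) ((Icc 1 (x : ℤ)).filter (fun m => m + q * u ∈ Icc 1 (x : ℤ))) k ≤
      x * (2 * x + 1) ^ j := by
    intro u _
    refine (cc_tot x j _ _ K).trans ?_
    exact Nat.mul_le_mul_right _ (Icc_card x _)
  refine (sum_le_sum h1).trans ?_
  rw [sum_const, cardI', smul_eq_mul]

lemma Cq_zero (x T q j : ℕ) (hT : T ≤ x) (hq : 1 ≤ q) (f : ℤ[X]) (hf : f.natDegree = j + 2) :
    Cq x T q j f 0 ≤ (j + 2) * (2 * x + 1) ^ (j + 1) := by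
  unfold Cq
  have hq0 : (q : ℤ) ≠ 0 := by omega
  rw [← add_sum_erase _ _ (show (0 : ℤ) ∈ Icc (-(T : ℤ)) T by rw [mem_Icc]; omega)]
  have h1 : cc x j (Dl (q * 0) f) ((Icc 1 (x : ℤ)).filter (fun m => m + q * 0 ∈ Icc 1 (x : ℤ))) 0 ≤ (2 * x + 1) ^ (j + 1) := by
    have h2 := cc_tot x j (Dl (q * 0) f) ((Icc 1 (x : ℤ)).filter (fun m => m + q * 0 ∈ Icc 1 (x : ℤ))) {0}
    rw [sum_singleton] at h2
    refine h2.trans ?_
    rw [pow_succ']
    apply Nat.mul_le_mul_right
    refine (Icc_card x _).trans (by omega)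
  have h2 : ∑ h ∈ (Icc (-(T : ℤ)) T).erase 0, cc x j (Dl (q * h) f) ((Icc 1 (x : ℤ)).filter (fun m => m + q * h ∈ Icc 1 (x : ℤ))) 0 ≤
      (2 * x + 1) * ((j + 1) * (2 * x + 1) ^ j) := by
    have h3 : ∀ h ∈ (Icc (-(T : ℤ)) T).erase 0, cc x j (Dl (q * h) f) ((Icc 1 (x : ℤ)).filter (fun m => m + q * h ∈ Icc 1 (x : ℤ))) 0 ≤
        (j + 1) * (2 * x + 1) ^ j := by
      intro h hh
      rw [mem_erase] at hh
      exact cc_zero_bound x j _ _ (filter_subset _ _) (Dl_natDegree f (j + 1) hf _ (mul_ne_zero hq0 hh.1))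
    refine (sum_le_sum h3).trans ?_
    rw [sum_const, smul_eq_mul]
    apply Nat.mul_le_mul_right
    refine (card_le_card (erase_subset _ _)).trans ?_
    rw [cardI']
    omega
  calc _ ≤ (2 * x + 1) ^ (j + 1) + (2 * x + 1) * ((j + 1) * (2 * x + 1) ^ j) := add_le_add h1 h2
    _ = _ := by ring

end Pool.Agent.U856.DE
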