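import Pool.Agent.U856.DE.D4

set_option autoImplicit false

/-! The number of solutions for polynomial values in residue classes. -/

namespace Pool.Agent.U856.DE
open Finset Polynomial
open Pool.Agent.H807R2.Dav
open Pool.Agent.H373R2.T7

lemma W_le (x : ℕ) (β : ℝ) (j : ℕ) (U : Finset ℤ) (F : ℤ → ℤ[X]) (I : ℤ → Finset ℤ) (hI : ∀ u, I u ⊆ Icc 1 (x : ℤ)) :
    ‖∑ u ∈ U, AA x β 0 (F u) (I u)‖ ^ (2 ^ j) ≤
      (U.card : ℝ) ^ (2 ^ j - 1) * (((2 * x + 1 : ℕ) : ℝ) ^ (2 ^ j - j - 1) * ‖∑ u ∈ U, AA x β j (F u) (I u)‖) := by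
  rcases Nat.eq_zero_or_pos j with h0 | h0
  · subst h0
    simp
  obtain ⟨i, rfl⟩ : ∃ i, j = i + 1 := ⟨j - 1, by omega⟩
  have h1 : ‖∑ u ∈ U, AA x β (i + 1) (F u) (I u)‖ = ∑ u ∈ U, ‖AA x β (i + 1) (F u) (I u)‖ := by
    have h2 : ∑ u ∈ U, AA x β (i + 1) (F u) (I u) = ((∑ u ∈ U, ‖AA x β (i + 1) (F u) (I u)‖ : ℝ) : ℂ) := by
      rw [Complex.ofReal_sum]
      exact sum_congr rfl fun u _ => AA_nonneg x β i _ _ (hI u)
    rw [h2, Complex.norm_real, Real.norm_of_nonneg (sum_nonneg fun _ _ => norm_nonneg _)]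
  rw [h1]
  calc ‖∑ u ∈ U, AA x β 0 (F u) (I u)‖ ^ 2 ^ (i + 1) ≤ (∑ u ∈ U, ‖AA x β 0 (F u) (I u)‖) ^ 2 ^ (i + 1) :=
        pow_le_pow_left₀ (norm_nonneg _) (norm_sum_le _ _) _
    _ ≤ (U.card : ℝ) ^ (2 ^ (i + 1) - 1) * ∑ u ∈ U, ‖AA x β 0 (F u) (I u)‖ ^ 2 ^ (i + 1) :=
        pm U _ (fun _ _ => norm_nonneg _) _ Nat.one_le_two_pow
    _ ≤ (U.card : ℝ) ^ (2 ^ (i + 1) - 1) * ∑ u ∈ U, ((2 * x + 1 : ℕ) : ℝ) ^ (2 ^ (i + 1) - (i + 1) - 1) * ‖AA x β (i + 1) (F u) (I u)‖ := by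
        apply mul_le_mul_of_nonneg_left _ (by positivity)
        exact sum_le_sum fun u _ => weyl x β (i + 1) _ _ (hI u)
    _ = _ := by rw [← mul_sum]

/-- the phases of the values of the polynomial -/
def ph (f : ℤ[X]) (c : ℤ) (q : ℕ) (z : ℕ × ℕ) : ℤ :=
  -((c + f.eval (z.1 : ℤ)) / q) + (c + f.eval (z.2 : ℤ)) / q

lemma ph_eq (f : ℤ[X]) (c : ℤ) (q : ℕ) (hq : 1 ≤ q) (z : ℕ × ℕ) (hz : z.1 % q = z.2 % q) :
    (q : ℤ) * ph f c q z = f.eval (z.2 : ℤ) - f.eval (z.1 : ℤ) := by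
  have hq0 : (q : ℤ) ≠ 0 := by omega
  have h1 : (q : ℤ) ∣ (z.2 : ℤ) - z.1 := by
    have h2 : z.1 ≡ z.2 [MOD q] := hz
    exact (Nat.modEq_iff_dvd.1 h2)
  have h2 : (q : ℤ) ∣ f.eval (z.2 : ℤ) - f.eval (z.1 : ℤ) := h1.trans (sub_dvd_eval_sub _ _ _)
  obtain ⟨w, hw⟩ := h2
  have h3 : c + f.eval (z.2 : ℤ) = c + f.eval (z.1 : ℤ) + q * w := by rw [← hw]; ring
  unfold ph
  rw [h3, Int.add_mul_ediv_left _ _ hq0, hw]
  ring

lemma W_eq (f : ℤ[X]) (c : ℤ) (x q R t : ℕ) (hq : 1 ≤ q) :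
    ∑ z ∈ prs (Icc 1 x) (fun m => m % q), ee ((t : ℝ) * ((ph f c q z : ℝ) / R)) =
      ∑ u ∈ Icc (-((x / q : ℕ) : ℤ)) ((x / q : ℕ) : ℤ),
        AA x ((t : ℝ) / (q * R)) 0 (Dl (q * u) f) ((Icc 1 (x : ℤ)).filter (fun m => m + q * u ∈ Icc 1 (x : ℤ))) := by
  have hq0 : (q : ℤ) ≠ 0 := by omega
  have hqp : (0 : ℤ) < q := by omega
  have hqr : (q : ℝ) ≠ 0 := by positivity
  have h0 : ∀ u : ℤ, AA x ((t : ℝ) / (q * R)) 0 (Dl (q * u) f) ((Icc 1 (x : ℤ)).filter (fun m => m + q * u ∈ Icc 1 (x : ℤ))) =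
      ∑ m ∈ (Icc 1 (x : ℤ)).filter (fun m => m + q * u ∈ Icc 1 (x : ℤ)), ee ((t : ℝ) / (q * R) * (((Dl (q * u) f).eval m : ℤ) : ℝ)) := fun _ => rfl
  simp only [h0]
  rw [sum_sigma']
  apply sum_bij' (fun (z : ℕ × ℕ) _ => (⟨((z.2 : ℤ) - z.1) / q, (z.1 : ℤ)⟩ : (_ : ℤ) × ℤ))
    (fun (w : (_ : ℤ) × ℤ) _ => ((w.2.toNat, (w.2 + q * w.1).toNat) : ℕ × ℕ))
  · intro z hz
    unfold prs at hz
    rw [mem_filter, mem_product, mem_Icc, mem_Icc] at hz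
    have h1 : (q : ℤ) ∣ (z.2 : ℤ) - z.1 := by
      have h2 : z.1 ≡ z.2 [MOD q] := hz.2
      exact (Nat.modEq_iff_dvd.1 h2)
    obtain ⟨w, hw⟩ := h1
    have h2 : ((z.2 : ℤ) - z.1) / q = w := by rw [hw, Int.mul_ediv_cancel_left _ hq0]
    rw [mem_sigma]
    simp only
    rw [h2, mem_Icc, mem_filter, mem_Icc, mem_Icc]
    have h3 : |w| ≤ ((x / q : ℕ) : ℤ) := by
      have h4 : q * w.natAbs ≤ x := by
        have h5 : (q : ℤ) * |w| ≤ x := by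
          have h6 : |(q : ℤ) * w| = q * |w| := by rw [abs_mul, abs_of_pos hqp]
          rw [← h6, ← hw, abs_le]
          constructor <;> omega
        have h7 : ((w.natAbs : ℕ) : ℤ) = |w| := Int.natCast_natAbs w
        rw [← h7] at h5
        exact_mod_cast h5
      have h5 : w.natAbs ≤ x / q := by
        rw [Nat.le_div_iff_mul_le hq, mul_comm]
        exact h4
      rw [← Int.natCast_natAbs]
      exact_mod_cast h5
    have h4 := abs_le.1 h3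
    have h5 : (z.1 : ℤ) + q * w = z.2 := by rw [← hw]; ring
    refine ⟨⟨h4.1, h4.2⟩, ⟨by omega, by omega⟩, ?_⟩
    rw [h5]
    constructor <;> omega
  · intro w hw
    rw [mem_sigma, mem_Icc, mem_filter, mem_Icc, mem_Icc] at hw
    unfold prs
    rw [mem_filter, mem_product, mem_Icc, mem_Icc]
    obtain ⟨_, ⟨a1, a2⟩, a3, a4⟩ := hw
    refine ⟨⟨⟨by omega, by omega⟩, by omega, by omega⟩, ?_⟩
    simp only
    show w.2.toNat ≡ (w.2 + q * w.1).toNat [MOD q]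
    rw [← Int.natCast_modEq_iff, Int.toNat_of_nonneg (by omega), Int.toNat_of_nonneg (by omega)]
    exact (Int.modEq_iff_dvd.2 ⟨w.1, by ring⟩)
  · intro z hz
    unfold prs at hz
    rw [mem_filter, mem_product, mem_Icc, mem_Icc] at hz
    have h1 : (q : ℤ) ∣ (z.2 : ℤ) - z.1 := by
      have h2 : z.1 ≡ z.2 [MOD q] := hz.2
      exact (Nat.modEq_iff_dvd.1 h2)
    have h2 : (z.1 : ℤ) + q * (((z.2 : ℤ) - z.1) / q) = z.2 := by
      rw [Int.mul_ediv_cancel' h1]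
      ring
    simp only [h2, Int.toNat_natCast]
  · intro w hw
    rw [mem_sigma, mem_Icc, mem_filter, mem_Icc, mem_Icc] at hw
    obtain ⟨_, ⟨a1, a2⟩, a3, a4⟩ := hw
    have e1 : ((w.2.toNat : ℕ) : ℤ) = w.2 := Int.toNat_of_nonneg (by omega)
    have e2 : (((w.2 + q * w.1).toNat : ℕ) : ℤ) = w.2 + q * w.1 := Int.toNat_of_nonneg (by omega)
    simp only [e1, e2, add_sub_cancel_left, Int.mul_ediv_cancel_left _ hq0]
  · intro z hz
    unfold prs at hz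
    rw [mem_filter, mem_product, mem_Icc, mem_Icc] at hz
    have h1 : (q : ℤ) ∣ (z.2 : ℤ) - z.1 := by
      have h2 : z.1 ≡ z.2 [MOD q] := hz.2
      exact (Nat.modEq_iff_dvd.1 h2)
    have h2 : (z.1 : ℤ) + q * (((z.2 : ℤ) - z.1) / q) = z.2 := by
      rw [Int.mul_ediv_cancel' h1]
      ring
    simp only
    rw [Dl_eval, h2, ← ph_eq f c q hq z hz.2]
    congr 1
    push_cast
    rcases eq_or_ne (R : ℝ) 0 with hR | hR
    · rw [hR]; simp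
    · field_simp

/-- the exponential polynomial of the differences -/
lemma Z_eq (f : ℤ[X]) (x q R t j : ℕ) (T : ℕ) (B : ℤ) (hB : ∀ m ∈ Icc 1 (x : ℤ), |f.eval m| ≤ B) :
    ∑ u ∈ Icc (-(T : ℤ)) T, AA x ((t : ℝ) / (q * R)) j (Dl (q * u) f) ((Icc 1 (x : ℤ)).filter (fun m => m + q * u ∈ Icc 1 (x : ℤ))) =
      ∑ k ∈ Icc (-(2 ^ (j + 1) * B)) (2 ^ (j + 1) * B), (Cq x T q j f k : ℂ) * ee ((t : ℝ) / (q * R) * (k : ℝ)) := by
  have h1 : ∀ u ∈ Icc (-(T : ℤ)) T, AA x ((t : ℝ) / (q * R)) j (Dl (q * u) f) ((Icc 1 (x : ℤ)).filter (fun m => m + q * u ∈ Icc 1 (x : ℤ))) =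
      ∑ k ∈ Icc (-(2 ^ (j + 1) * B)) (2 ^ (j + 1) * B),
        (cc x j (Dl (q * u) f) ((Icc 1 (x : ℤ)).filter (fun m => m + q * u ∈ Icc 1 (x : ℤ))) k : ℂ) * ee ((t : ℝ) / (q * R) * (k : ℝ)) := by
    intro u _
    apply AA_eq
    intro k hk
    have h2 := cc_range x j (Dl (q * u) f) ((Icc 1 (x : ℤ)).filter (fun m => m + q * u ∈ Icc 1 (x : ℤ))) (2 * B) k (fun m hm => by
      rw [mem_filter] at hm
      rw [Dl_eval]
      refine (abs_sub _ _).trans ?_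
      have a1 := hB _ hm.1
      have a2 := hB _ hm.2
      linarith) hk
    rw [mem_Icc, ← abs_le]
    rw [pow_succ]
    linarith
  rw [sum_congr rfl h1, sum_comm]
  apply sum_congr rfl
  intro k _
  unfold Cq
  rw [← sum_mul]
  push_cast
  rfl

/-- the moments of the exponential polynomial of the differences -/
lemma Z_moment (f : ℤ[X]) (x q R j : ℕ) (T : ℕ) (hq : 1 ≤ q) (B : ℕ) (hR : 2 ^ (j + 2) * B < R) (s : ℕ) (hs : 2 ≤ s) :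
    ∑ t ∈ range R, ‖∑ k ∈ Icc (-(2 ^ (j + 1) * (B : ℤ))) (2 ^ (j + 1) * (B : ℤ)), (Cq x T q j f k : ℂ) * ee ((t : ℝ) / (q * R) * (k : ℝ))‖ ^ s ≤
      R * (2 ^ s * ((Cq x T q j f 0 : ℝ) ^ s + (((2 * T + 1) * (x * (2 * x + 1) ^ j) : ℕ) : ℝ) ^ (s - 2) *
        ∑ k ∈ ((Icc (-(2 ^ (j + 1) * (B : ℤ))) (2 ^ (j + 1) * (B : ℤ))).erase 0).filter (fun k => (q : ℤ) ∣ k), (Cq x T q j f k : ℝ) ^ 2)) := by
  obtain ⟨K, hK⟩ : ∃ K, K = Icc (-(2 ^ (j + 1) * (B : ℤ))) (2 ^ (j + 1) * (B : ℤ)) := ⟨_, rfl⟩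
  rw [← hK]
  obtain ⟨K', hK'⟩ : ∃ K', K' = (K.erase 0).filter (fun k => (q : ℤ) ∣ k) := ⟨_, rfl⟩
  rw [← hK']
  obtain ⟨tot, htot⟩ : ∃ tot : ℕ, tot = (2 * T + 1) * (x * (2 * x + 1) ^ j) := ⟨_, rfl⟩
  rw [← htot]
  have hq0 : (q : ℤ) ≠ 0 := by omega
  have hqr : (0 : ℝ) < q := by exact_mod_cast hq
  have hR1 : 1 ≤ R := by omega
  have hRr : (0 : ℝ) < R := by exact_mod_cast hR1
  obtain ⟨E, hE⟩ : ∃ E : ℕ → ℂ, E = fun t : ℕ => ∑ k ∈ K', (Cq x T q j f k : ℂ) * ee ((t : ℝ) * (((k / q : ℤ) : ℝ) / R)) := ⟨_, rfl⟩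
  have h0K : (0 : ℤ) ∈ K := by
    rw [hK, mem_Icc]
    constructor <;> simp
  have hsplit : ∀ t : ℕ, ∑ k ∈ K, (Cq x T q j f k : ℂ) * ee ((t : ℝ) / (q * R) * (k : ℝ)) = (Cq x T q j f 0 : ℂ) + E t := by
    intro t
    rw [← add_sum_erase _ _ h0K]
    congr 1
    · simp [ee_zero]
    · rw [hE]
      simp only
      rw [hK']
      symm
      have h1 : ∀ k ∈ (K.erase 0).filter (fun k => (q : ℤ) ∣ k), (Cq x T q j f k : ℂ) * ee ((t : ℝ) * (((k / q : ℤ) : ℝ) / R)) =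
          (Cq x T q j f k : ℂ) * ee ((t : ℝ) / (q * R) * (k : ℝ)) := by
        intro k hk
        rw [mem_filter] at hk
        obtain ⟨w, hw⟩ := hk.2
        rw [hw, Int.mul_ediv_cancel_left _ hq0]
        congr 2
        push_cast
        field_simp
      rw [sum_congr rfl h1]
      apply sum_subset (filter_subset _ _)
      intro k hk hn
      have h2 : Cq x T q j f k = 0 := by
        by_contra hne
        exact hn (mem_filter.2 ⟨hk, Cq_dvd x T q j f k hne⟩)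
      rw [h2]
      simp
  have hEb : ∀ t, ‖E t‖ ≤ tot := by
    intro t
    rw [hE]
    refine (norm_sum_le _ _).trans ?_
    have h1 : ∀ k ∈ K', ‖(Cq x T q j f k : ℂ) * ee ((t : ℝ) * (((k / q : ℤ) : ℝ) / R))‖ = (Cq x T q j f k : ℝ) := by
      intro k _
      rw [norm_mul, norm_ee, mul_one, Complex.norm_natCast]
    rw [sum_congr rfl h1, htot]
    exact_mod_cast Cq_tot x T q j f K'
  have hE2 : ∑ t ∈ range R, ‖E t‖ ^ 2 = R * ∑ k ∈ K', (Cq x T q j f k : ℝ) ^ 2 := by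
    rw [hE]
    rw [pars K' (fun k => (Cq x T q j f k : ℂ)) (fun k => k / q) R hR1]
    · congr 1
      apply sum_congr rfl
      intro k _
      rw [Complex.norm_natCast]
    · intro k hk k' hk' hd
      rw [hK', mem_filter, mem_erase, hK, mem_Icc] at hk hk'
      obtain ⟨⟨_, a1, a2⟩, w, hw⟩ := hk
      obtain ⟨⟨_, b1, b2⟩, w', hw'⟩ := hk'
      rw [hw, hw', Int.mul_ediv_cancel_left _ hq0, Int.mul_ediv_cancel_left _ hq0] at hd
      have h1 : ∀ y : ℤ, |(q : ℤ) * y| ≤ 2 ^ (j + 1) * (B : ℤ) → |y| ≤ 2 ^ (j + 1) * (B : ℤ) := by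
        intro y hy
        refine le_trans ?_ hy
        rw [abs_mul]
        have : (1 : ℤ) ≤ |(q : ℤ)| := by rw [abs_of_nonneg (by positivity)]; omega
        nlinarith [abs_nonneg y]
      have h2 := h1 w (by rw [← hw, abs_le]; exact ⟨a1, a2⟩)
      have h3 := h1 w' (by rw [← hw', abs_le]; exact ⟨b1, b2⟩)
      have h4 : |w - w'| < R := by
        refine lt_of_le_of_lt (abs_sub _ _) ?_
        have h5 : ((2 ^ (j + 2) * B : ℕ) : ℤ) < R := by exact_mod_cast hR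
        push_cast at h5
        have h6 : (2 : ℤ) ^ (j + 2) = 2 * 2 ^ (j + 1) := by ring
        rw [h6] at h5
        linarith
      have h5 := Int.eq_zero_of_abs_lt_dvd hd h4
      have h6 : w = w' := by omega
      rw [hw, hw', h6]
  have hterm : ∀ t ∈ range R, ‖∑ k ∈ K, (Cq x T q j f k : ℂ) * ee ((t : ℝ) / (q * R) * (k : ℝ))‖ ^ s ≤
      2 ^ s * ((Cq x T q j f 0 : ℝ) ^ s + (tot : ℝ) ^ (s - 2) * ‖E t‖ ^ 2) := by
    intro t _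
    rw [hsplit t]
    have h1 : ‖(Cq x T q j f 0 : ℂ) + E t‖ ≤ (Cq x T q j f 0 : ℝ) + ‖E t‖ := by
      refine (norm_add_le _ _).trans ?_
      rw [Complex.norm_natCast]
    have h2 : ((Cq x T q j f 0 : ℝ) + ‖E t‖) ^ s ≤ 2 ^ s * ((Cq x T q j f 0 : ℝ) ^ s + ‖E t‖ ^ s) := by
      have h3 := add_pow_le (Nat.cast_nonneg (Cq x T q j f 0)) (norm_nonneg (E t)) s
      refine h3.trans ?_
      apply mul_le_mul_of_nonneg_right _ (by positivity)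
      exact pow_le_pow_right₀ (by norm_num) (by omega)
    refine (pow_le_pow_left₀ (norm_nonneg _) h1 s).trans (h2.trans ?_)
    apply mul_le_mul_of_nonneg_left _ (by positivity)
    apply add_le_add le_rfl
    have h4 : ‖E t‖ ^ s = ‖E t‖ ^ (s - 2) * ‖E t‖ ^ 2 := by
      rw [← pow_add]
      congr 1
      omega
    rw [h4]
    apply mul_le_mul_of_nonneg_right _ (by positivity)
    exact pow_le_pow_left₀ (norm_nonneg _) (hEb t) _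
  refine (sum_le_sum hterm).trans ?_
  rw [← mul_sum, sum_add_distrib, ← mul_sum, hE2, sum_const, card_range, nsmul_eq_mul]
  apply le_of_eq
  ring

/-- the number of solutions in residue classes -/
theorem cnt_poly (f : ℤ[X]) (j : ℕ) (c : ℤ) (x q R : ℕ) (hq : 1 ≤ q) (B : ℕ)
    (hB : ∀ m ∈ Icc 1 (x : ℤ), |f.eval m| ≤ B) (hR : 2 ^ (j + 2) * B < R) (s : ℕ) (hs : 2 ≤ s) :
    (cnt (prs (Icc 1 x) (fun m => m % q)) (ph f c q) R (2 ^ j * s) : ℝ) ≤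
      (((2 * (x / q) + 1 : ℕ) : ℝ) ^ (2 ^ j - 1) * ((2 * x + 1 : ℕ) : ℝ) ^ (2 ^ j - j - 1)) ^ s *
      (2 ^ s * ((Cq x (x / q) q j f 0 : ℝ) ^ s + (((2 * (x / q) + 1) * (x * (2 * x + 1) ^ j) : ℕ) : ℝ) ^ (s - 2) *
        ∑ k ∈ ((Icc (-(2 ^ (j + 1) * (B : ℤ))) (2 ^ (j + 1) * (B : ℤ))).erase 0).filter (fun k => (q : ℤ) ∣ k), (Cq x (x / q) q j f k : ℝ) ^ 2)) := by
  have hR1 : 1 ≤ R := by omega
  have hRr : (0 : ℝ) < R := by exact_mod_cast hR1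
  obtain ⟨T, hT⟩ : ∃ T, T = x / q := ⟨_, rfl⟩
  have h1 := full (prs (Icc 1 x) (fun m => m % q)) (ph f c q) R (2 ^ j * s) hR1
  have h2 : (R : ℝ) * cnt (prs (Icc 1 x) (fun m => m % q)) (ph f c q) R (2 ^ j * s) ≤
      ∑ t ∈ range R, (‖∑ z ∈ prs (Icc 1 x) (fun m => m % q), ee ((t : ℝ) * ((ph f c q z : ℝ) / R))‖ ^ (2 ^ j)) ^ s := by
    have h3 : (R : ℝ) * cnt (prs (Icc 1 x) (fun m => m % q)) (ph f c q) R (2 ^ j * s) =
        ‖∑ t ∈ range R, (∑ z ∈ prs (Icc 1 x) (fun m => m % q), ee ((t : ℝ) * ((ph f c q z : ℝ) / R))) ^ (2 ^ j * s)‖ := by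
      rw [h1, Complex.norm_real, Real.norm_of_nonneg (by positivity)]
    rw [h3]
    refine (norm_sum_le _ _).trans (le_of_eq ?_)
    apply sum_congr rfl
    intro t _
    rw [norm_pow, pow_mul]
  have h4 : ∀ t ∈ range R, (‖∑ z ∈ prs (Icc 1 x) (fun m => m % q), ee ((t : ℝ) * ((ph f c q z : ℝ) / R))‖ ^ (2 ^ j)) ^ s ≤
      (((2 * (x / q) + 1 : ℕ) : ℝ) ^ (2 ^ j - 1) * ((2 * x + 1 : ℕ) : ℝ) ^ (2 ^ j - j - 1)) ^ s *
      ‖∑ k ∈ Icc (-(2 ^ (j + 1) * (B : ℤ))) (2 ^ (j + 1) * (B : ℤ)), (Cq x (x / q) q j f k : ℂ) * ee ((t : ℝ) / (q * R) * (k : ℝ))‖ ^ s := by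
    intro t _
    rw [← mul_pow]
    apply pow_le_pow_left₀ (by positivity)
    rw [W_eq f c x q R t hq, ← Z_eq f x q R t j (x / q) B hB]
    have h5 := W_le x ((t : ℝ) / (q * R)) j (Icc (-((x / q : ℕ) : ℤ)) ((x / q : ℕ) : ℤ)) (fun u => Dl (q * u) f)
      (fun u => (Icc 1 (x : ℤ)).filter (fun m => m + q * u ∈ Icc 1 (x : ℤ))) (fun u => filter_subset _ _)
    rw [cardI'] at h5
    refine h5.trans (le_of_eq ?_)
    ring
  have h5 := Z_moment f x q R j (x / q) hq B hR s hs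
  have h6 : (R : ℝ) * cnt (prs (Icc 1 x) (fun m => m % q)) (ph f c q) R (2 ^ j * s) ≤
      R * ((((2 * (x / q) + 1 : ℕ) : ℝ) ^ (2 ^ j - 1) * ((2 * x + 1 : ℕ) : ℝ) ^ (2 ^ j - j - 1)) ^ s *
      (2 ^ s * ((Cq x (x / q) q j f 0 : ℝ) ^ s + (((2 * (x / q) + 1) * (x * (2 * x + 1) ^ j) : ℕ) : ℝ) ^ (s - 2) *
        ∑ k ∈ ((Icc (-(2 ^ (j + 1) * (B : ℤ))) (2 ^ (j + 1) * (B : ℤ))).erase 0).filter (fun k => (q : ℤ) ∣ k), (Cq x (x / q) q j f k : ℝ) ^ 2))) := by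
    refine h2.trans ((sum_le_sum h4).trans ?_)
    rw [← mul_sum]
    refine (mul_le_mul_of_nonneg_left h5 (by positivity)).trans (le_of_eq ?_)
    ring
  exact le_of_mul_le_mul_left h6 hRr

end Pool.Agent.U856.DE
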