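import Pool.Agent.U856.DE.D6
import Pool.Agent.R311.DEH.A7

set_option autoImplicit false

/-! The twisted sums along polynomial values, for one modulus. -/

namespace Pool.Agent.U856.DE
open Finset Polynomial
open Pool.Agent.H807R2.Dav
open Pool.Agent.H373R2.T7
open Pool.Agent.R311.DEH (g1 g2 dl dl_nonneg g_bound Tq)

lemma TT_eq (g : ℕ → ℝ) (q N : ℕ) : TT (fun n => ArithmeticFunction.vonMangoldt n) g q N = Tq g q N := rfl

lemma g_abs (g : ℕ → ℝ) (hg : g = g1 ∨ g = g2) (m X : ℕ) (hm : m ≤ X) : |g m| ≤ 1 + Real.log X := by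
  have h1 : |((ArithmeticFunction.moebius m : ℤ) : ℝ)| ≤ 1 := by
    rw [← Int.cast_abs]
    exact_mod_cast ArithmeticFunction.abs_moebius_le_one
  have hX : 0 ≤ Real.log (X : ℝ) := Real.log_natCast_nonneg X
  rcases hg with rfl | rfl
  · unfold g1
    linarith
  · unfold g2
    have hm0 : 0 ≤ Real.log (m : ℝ) := Real.log_natCast_nonneg m
    have h2 : Real.log (m : ℝ) ≤ Real.log X := by
      rcases Nat.eq_zero_or_pos m with h | h
      · rw [h]; simpa using hX
      · exact Real.log_le_log (by exact_mod_cast h) (by exact_mod_cast hm)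
    rw [abs_mul, abs_of_nonneg hm0]
    nlinarith [abs_nonneg ((ArithmeticFunction.moebius m : ℤ) : ℝ)]

lemma lam_le (n X : ℕ) (hn : n ≤ X) : ArithmeticFunction.vonMangoldt n ≤ 1 + Real.log X := by
  have hX : 0 ≤ Real.log (X : ℝ) := Real.log_natCast_nonneg X
  have h2 : ArithmeticFunction.vonMangoldt n ≤ Real.log n := ArithmeticFunction.vonMangoldt_le_log
  rcases Nat.eq_zero_or_pos n with h | h
  · rw [h]; simp; linarith
  · have := Real.log_le_log (by exact_mod_cast h : (0 : ℝ) < n) (by exact_mod_cast hn : (n : ℝ) ≤ X)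
    linarith

/-- the trivial bound -/
lemma T_triv (g : ℕ → ℝ) (hg : g = g1 ∨ g = g2) (q N X : ℕ) (hq : 1 ≤ q) (hqX : q ≤ X) (hN : N ≤ X) :
    |Tq g q N| ≤ 2 * (X / q) * (1 + Real.log X) ^ 2 := by
  have hq0 : (0 : ℝ) < q := by exact_mod_cast hq
  have hX : 0 ≤ Real.log (X : ℝ) := Real.log_natCast_nonneg X
  have h1 : ((Ico 1 N).filter (fun n => n ≡ N [MOD q])).card ≤ X / q + 1 := by

    have h3 : ((Ico 1 N).filter (fun n => n ≡ N [MOD q])).card ≤ ((range (X / q + 1))).card := by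
      apply card_le_card_of_injOn (fun n => (N - n) / q)
      · intro n hn
        rw [mem_coe, mem_range]
        have : (N - n) / q ≤ X / q := Nat.div_le_div_right (by omega)
        exact Nat.lt_succ_of_le this
      · intro a ha b hb h
        rw [mem_coe, mem_filter, mem_Ico] at ha hb
        have e1 : q ∣ N - a := (Nat.modEq_iff_dvd' ha.1.2.le).1 ha.2
        have e2 : q ∣ N - b := (Nat.modEq_iff_dvd' hb.1.2.le).1 hb.2
        simp only at h
        obtain ⟨w, hw⟩ := e1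
        obtain ⟨w', hw'⟩ := e2
        rw [hw, hw', Nat.mul_div_cancel_left _ hq, Nat.mul_div_cancel_left _ hq] at h
        rw [← h] at hw'
        omega
    rwa [card_range] at h3
  unfold Tq
  refine (abs_sum_le_sum_abs _ _).trans ?_
  have h2 : ∀ n ∈ (Ico 1 N).filter (fun n => n ≡ N [MOD q]), |ArithmeticFunction.vonMangoldt n * g (N - n)| ≤ (1 + Real.log X) ^ 2 := by
    intro n hn
    rw [mem_filter, mem_Ico] at hn
    rw [abs_mul, abs_of_nonneg ArithmeticFunction.vonMangoldt_nonneg, sq]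
    exact mul_le_mul (lam_le n X (by omega)) (g_abs g hg _ X (by omega)) (abs_nonneg _) (by positivity)
  refine (sum_le_sum h2).trans ?_
  rw [sum_const, nsmul_eq_mul]
  apply mul_le_mul_of_nonneg_right _ (by positivity)
  have h3 : (((Ico 1 N).filter (fun n => n ≡ N [MOD q])).card : ℝ) ≤ ((X / q : ℕ) : ℝ) + 1 := by exact_mod_cast h1
  have h4 : ((X / q : ℕ) : ℝ) ≤ X / q := Nat.cast_div_le
  have h5 : (1 : ℝ) ≤ X / q := by rw [le_div_iff₀ hq0]; have : (q : ℝ) ≤ X := by exact_mod_cast hqX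
                                  linarith
  linarith

lemma V_bound (X q : ℕ) (hq : 1 ≤ q) (hqX : q ≤ X) (β : ℕ → ℕ) :
    ∑ a ∈ range q, ∑ n ∈ (Icc 1 X).filter (fun n => n % q = β a), ArithmeticFunction.vonMangoldt n ^ 2 ≤ 2 * X * (1 + Real.log X) ^ 2 := by
  have hX : 0 ≤ Real.log (X : ℝ) := Real.log_natCast_nonneg X
  have hq0 : (0 : ℝ) < q := by exact_mod_cast hq
  have h1 : ∀ a ∈ range q, ∑ n ∈ (Icc 1 X).filter (fun n => n % q = β a), ArithmeticFunction.vonMangoldt n ^ 2 ≤ 2 * (X / q) * (1 + Real.log X) ^ 2 := by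
    intro a _
    have hc : ((Icc 1 X).filter (fun n => n % q = β a)).card ≤ X / q + 1 := by
      have h3 : ((Icc 1 X).filter (fun n => n % q = β a)).card ≤ ((range (X / q + 1))).card := by
        apply card_le_card_of_injOn (fun n => n / q)
        · intro n hn
          rw [mem_coe, mem_filter, mem_Icc] at hn
          rw [mem_coe, mem_range]
          have : n / q ≤ X / q := Nat.div_le_div_right (by omega)
          exact Nat.lt_succ_of_le this
        · intro i hi j hj h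
          rw [mem_coe, mem_filter, mem_Icc] at hi hj
          simp only at h
          have e1 := Nat.div_add_mod i q
          have e2 := Nat.div_add_mod j q
          rw [hi.2, h] at e1
          rw [hj.2] at e2
          omega
      rwa [card_range] at h3
    have h2 : ∀ n ∈ (Icc 1 X).filter (fun n => n % q = β a), ArithmeticFunction.vonMangoldt n ^ 2 ≤ (1 + Real.log X) ^ 2 := by
      intro n hn
      rw [mem_filter, mem_Icc] at hn
      exact pow_le_pow_left₀ ArithmeticFunction.vonMangoldt_nonneg (lam_le n X hn.1.2) 2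
    refine (sum_le_sum h2).trans ?_
    rw [sum_const, nsmul_eq_mul]
    apply mul_le_mul_of_nonneg_right _ (by positivity)
    have h3 : (((Icc 1 X).filter (fun n => n % q = β a)).card : ℝ) ≤ ((X / q : ℕ) : ℝ) + 1 := by exact_mod_cast hc
    have h4 : ((X / q : ℕ) : ℝ) ≤ X / q := Nat.cast_div_le
    have h5 : (1 : ℝ) ≤ X / q := by rw [le_div_iff₀ hq0]; have : (q : ℝ) ≤ X := by exact_mod_cast hqX
                                    linarith
    linarith
  refine (sum_le_sum h1).trans ?_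
  rw [sum_const, card_range, nsmul_eq_mul]
  apply le_of_eq
  field_simp

/-- the exponential sum over the multiples of `q` in terms of the quotient -/
lemma delta_bound (g : ℕ → ℝ) (X q : ℕ) (hq : 1 ≤ q) (δ : ℝ)
    (h : ∀ α : ℝ, ‖∑ m ∈ Icc 1 X, (if q ∣ m then (g m : ℂ) else 0) * ee ((m : ℝ) * α)‖ ≤ δ) (α : ℝ) :
    ‖∑ r ∈ Icc 1 (X / q), (g (q * r) : ℂ) * ee ((r : ℝ) * α)‖ ≤ δ := by
  have hq0 : (q : ℝ) ≠ 0 := by positivity
  have h1 := h (α / q)
  refine le_trans (le_of_eq ?_) h1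
  congr 1
  have h2 : ∑ m ∈ Icc 1 X, (if q ∣ m then (g m : ℂ) else 0) * ee ((m : ℝ) * (α / q)) =
      ∑ m ∈ (Icc 1 X).filter (fun m => q ∣ m), (g m : ℂ) * ee ((m : ℝ) * (α / q)) := by
    rw [sum_filter]
    apply sum_congr rfl
    intro m _
    split_ifs <;> simp
  rw [h2]
  apply sum_bij' (fun k _ => q * k) (fun m _ => m / q)
  · intro k hk
    rw [mem_Icc] at hk
    rw [mem_filter, mem_Icc]
    refine ⟨⟨Nat.mul_pos hq hk.1, ?_⟩, Dvd.intro _ rfl⟩
    calc q * k ≤ q * (X / q) := Nat.mul_le_mul_left _ hk.2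
      _ ≤ X := Nat.mul_div_le _ _
  · intro m hm
    rw [mem_filter, mem_Icc] at hm
    rw [mem_Icc]
    exact ⟨Nat.div_pos (Nat.le_of_dvd hm.1.1 hm.2) hq, Nat.div_le_div_right hm.1.2⟩
  · intro k _
    exact Nat.mul_div_cancel_left _ hq
  · intro m hm
    rw [mem_filter] at hm
    exact Nat.mul_div_cancel' hm.2
  · intro k _
    congr 2
    push_cast
    field_simp

lemma G_bound (g : ℕ → ℝ) (hg : g = g1 ∨ g = g2) (X q : ℕ) (hq : 1 ≤ q) :
    ∑ r ∈ Icc 1 (X / q), g (q * r) ^ 2 ≤ X / q * (1 + Real.log X) ^ 2 := by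
  have hX : 0 ≤ Real.log (X : ℝ) := Real.log_natCast_nonneg X
  have h1 : ∀ r ∈ Icc 1 (X / q), g (q * r) ^ 2 ≤ (1 + Real.log X) ^ 2 := by
    intro r hr
    rw [mem_Icc] at hr
    rw [← sq_abs]
    apply pow_le_pow_left₀ (abs_nonneg _)
    apply g_abs g hg
    calc q * r ≤ q * (X / q) := Nat.mul_le_mul_left _ hr.2
      _ ≤ X := Nat.mul_div_le _ _
  refine (sum_le_sum h1).trans ?_
  rw [sum_const, Nat.card_Icc, nsmul_eq_mul, Nat.add_sub_cancel]
  apply mul_le_mul_of_nonneg_right _ (by positivity)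
  exact Nat.cast_div_le

open Classical in
/-- the first moment for one modulus -/
theorem one_q (U : ℕ) (f : ℤ[X]) (j : ℕ) (hf : f.natDegree = j + 2) (A s : ℕ) (hA : 1 ≤ A) (hs : 2 ≤ s) :
    ∃ C : ℝ, 1 ≤ C ∧ ∃ Y0 : ℕ, 4 ≤ Y0 ∧ ∀ (c : ℤ) (x q X K : ℕ), 1 ≤ q → q ≤ x → (x : ℝ) ^ (j + 2) ≤ X → Y0 ≤ K → K ≤ X / q →
    (∀ m ∈ Icc 1 (x : ℤ), |f.eval m| ≤ A * (x : ℤ) ^ (j + 2)) →
    (q : ℝ) ^ s * (x : ℝ) ^ (j + 2) ≤ (x : ℝ) ^ s → ∀ g : ℕ → ℝ, (g = g1 ∨ g = g2) →
    ∀ (I : Finset ℕ) (N : ℕ → ℕ), I ⊆ Icc 1 x → (∀ m ∈ I, c + f.eval (m : ℤ) = N m) → (∀ m ∈ I, N m ≤ X) →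
    (∑ m ∈ I, |Tq g q (N m)|) ^ (2 * (2 ^ j * s)) ≤
      (2 * X * (1 + Real.log X) ^ 2) ^ (2 ^ j * s) * ((X / q * (1 + Real.log X) ^ 2) ^ (2 ^ j * s - 1) * (dl U X q K ^ 2 *
      (C * ((((x : ℝ) ^ 2 / q) ^ (2 ^ j * s) * (q / (x : ℝ) ^ (j + 2))) * ((q.divisors.card : ℝ) ^ (2 * (j + 1)) *
        (1 + Real.log ((2 ^ (j + 1) * (A * x ^ (j + 2)) : ℕ) : ℝ)) ^ (2 ^ (2 * (j + 1)))))))) := by
  obtain ⟨C, hC1, hC⟩ := cnt_final f j hf A s hA hs
  obtain ⟨Y0, hY0, hg0⟩ := g_bound U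
  refine ⟨C, hC1, Y0, hY0, fun c x q X K hq hqx hxX hK hKX hB hsx g hg I N hI hv hN => ?_⟩
  have hx1 : 1 ≤ x := hq.trans hqx
  have hX4 : 4 ≤ X := ((hY0.trans hK).trans hKX).trans (Nat.div_le_self _ _)
  have hqX : q ≤ X := by
    have h1 : (q : ℝ) ≤ X := by
      refine le_trans ?_ hxX
      calc (q : ℝ) ≤ x := by exact_mod_cast hqx
        _ ≤ (x : ℝ) ^ (j + 2) := by
            apply le_self_pow₀ (by exact_mod_cast hx1) (by omega)
    exact_mod_cast h1
  obtain ⟨R, hR⟩ : ∃ R : ℕ, R = 2 ^ (j + 2) * (A * x ^ (j + 2)) + 2 * (X / q) + 1 := ⟨_, rfl⟩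
  have hc1 := hC c x q R hq hqx hB (by rw [hR]; omega) hsx
  have hJ := J_le I (fun m => if 0 ≤ Tq g q (N m) then (1 : ℝ) else -1) (by
    intro m _
    split_ifs <;> simp) (fun m => c + f.eval (m : ℤ)) (fun m => m % q) q (fun m _ => Nat.mod_lt _ hq) q R (2 ^ j * s) (by omega) (Icc 1 x) hI
  have hmain := conv_bound I (fun m => if 0 ≤ Tq g q (N m) then (1 : ℝ) else -1) (fun m => c + f.eval (m : ℤ)) N hv (fun m => m % q) q
    (fun m _ => Nat.mod_lt _ hq) (fun a => ((c + f.eval (a : ℤ)) % q).toNat) q hq (by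
      intro m hm
      have h1 : (c + f.eval ((m % q : ℕ) : ℤ)) % (q : ℤ) = (N m : ℤ) % q := by
        rw [← hv m hm]
        apply Int.ModEq.add_left
        have h2 : ((m % q : ℕ) : ℤ) ≡ (m : ℤ) [ZMOD q] := by
          push_cast
          exact Int.mod_modEq _ _
        obtain ⟨w, hw⟩ := (Int.modEq_iff_dvd.1 h2)
        apply (Int.modEq_iff_dvd.2)
        have h3 := sub_dvd_eval_sub (m : ℤ) ((m % q : ℕ) : ℤ) f
        exact dvd_trans ⟨w, hw⟩ h3
      have h2 : ((N m : ℤ) % q) = ((N m % q : ℕ) : ℤ) := by push_cast; rfl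
      show N m % q = ((c + f.eval ((m % q : ℕ) : ℤ)) % (q : ℤ)).toNat
      rw [h1, h2, Int.toNat_natCast]) X hN (fun n => ArithmeticFunction.vonMangoldt n) g (dl U X q K) (2 * X * (1 + Real.log X) ^ 2)
    (X / q * (1 + Real.log X) ^ 2)
    (cnt (prs (Icc 1 x) (fun m => m % q)) (fun z => -((c + f.eval (z.1 : ℤ)) / q) + (c + f.eval (z.2 : ℤ)) / q) R (2 ^ j * s))
    (delta_bound g X q hq _ (hg0 X q K hq hK hKX g hg)) (V_bound X q hq hqX _) (G_bound g hg X q hq) R (by rw [hR]; omega) (2 ^ j * s)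
    (by
      have : 0 < 2 ^ j * s := Nat.mul_pos (by positivity) (by omega)
      omega) hJ
  have e1 : |∑ m ∈ I, (if 0 ≤ Tq g q (N m) then (1 : ℝ) else -1) * TT (fun n => ArithmeticFunction.vonMangoldt n) g q (N m)| =
      ∑ m ∈ I, |Tq g q (N m)| := by
    have e2 : ∑ m ∈ I, (if 0 ≤ Tq g q (N m) then (1 : ℝ) else -1) * TT (fun n => ArithmeticFunction.vonMangoldt n) g q (N m) =
        ∑ m ∈ I, |Tq g q (N m)| := by
      apply sum_congr rfl
      intro m _
      rw [TT_eq]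
      split_ifs with h
      · rw [one_mul, abs_of_nonneg h]
      · rw [abs_of_neg (not_le.1 h)]; ring
    rw [e2, abs_of_nonneg (sum_nonneg fun _ _ => abs_nonneg _)]
  rw [e1] at hmain
  refine hmain.trans ?_
  have hX0 : 0 ≤ Real.log (X : ℝ) := Real.log_natCast_nonneg X
  apply mul_le_mul_of_nonneg_left _ (by positivity)
  apply mul_le_mul_of_nonneg_left _ (by positivity)
  exact mul_le_mul_of_nonneg_left hc1 (by positivity)

end Pool.Agent.U856.DE
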