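import Pool.Agent.U856.DE.D7
import Pool.Agent.TH823.Fam.Fam1

set_option autoImplicit false

/-! The sum over the moduli. -/

namespace Pool.Agent.U856.DE
open Finset Polynomial
open Pool.Agent.R311.DEH (g1 g2 dl dl_nonneg g_bound Tq sum_dl Qs ct harm_le)
open Pool.Agent.TH212.EH (tau_pow_div large)

/-- the numerical step for one good modulus -/
lemma good_num (p' m M A1 E1 b1 : ℕ) (hA1 : A1 = 2 * (p' + 1) + b1 * m + M + (p' + 1) * E1 + 1) (a y r ℓ δ C τ Lg B S : ℝ) (d : ℕ)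
    (ha : 0 < a) (hy : 0 < y) (hr : 0 < r) (hℓ : 1 ≤ ℓ) (hδ0 : 0 ≤ δ) (hδ : δ ≤ a / r / ℓ ^ A1) (hC : 1 ≤ C) (hτ0 : 0 ≤ τ) (hτ : τ ≤ ℓ ^ b1)
    (hLg0 : 0 ≤ Lg) (hLg : Lg ≤ (2 * ℓ) ^ M) (hB : 0 ≤ B) (haB : a ≤ B * y ^ d) (hℓB : 2 ^ (p' + 1) * C * 2 ^ M * B ≤ ℓ) (hS0 : 0 ≤ S)
    (hS : S ^ (2 * (p' + 1)) ≤ (2 * a * ℓ ^ 2) ^ (p' + 1) * ((a / r * ℓ ^ 2) ^ (p' + 1 - 1) * (δ ^ 2 *
      (C * (((y ^ 2 / r) ^ (p' + 1) * (r / y ^ d)) * (τ ^ m * Lg)))))) :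
    S ≤ a * y / r / ℓ ^ E1 := by
  have hℓ0 : 0 < ℓ := by linarith
  apply le_of_sq_pow_le _ _ (2 * (p' + 1)) (by omega) hS0 (by positivity)
  refine hS.trans ?_
  rw [Nat.add_sub_cancel]
  have e0 : (y ^ 2 / r) ^ (p' + 1) * (r / y ^ d) = (y ^ 2 / r) ^ p' * (y ^ 2 / y ^ d) := by
    rw [pow_succ, mul_assoc]
    congr 1
    field_simp
  rw [e0]
  have h1 : (2 * a * ℓ ^ 2) ^ (p' + 1) * ((a / r * ℓ ^ 2) ^ p' * (δ ^ 2 * (C * (((y ^ 2 / r) ^ p' * (y ^ 2 / y ^ d)) * (τ ^ m * Lg))))) ≤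
      (2 * a * ℓ ^ 2) ^ (p' + 1) * ((a / r * ℓ ^ 2) ^ p' * ((a / r / ℓ ^ A1) ^ 2 * (C * (((y ^ 2 / r) ^ p' * (y ^ 2 / y ^ d)) *
        ((ℓ ^ b1) ^ m * (2 * ℓ) ^ M))))) := by
    apply mul_le_mul_of_nonneg_left _ (by positivity)
    apply mul_le_mul_of_nonneg_left _ (by positivity)
    apply mul_le_mul (pow_le_pow_left₀ hδ0 hδ 2) _ (by positivity) (by positivity)
    apply mul_le_mul_of_nonneg_left _ (by positivity)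
    apply mul_le_mul_of_nonneg_left _ (by positivity)
    exact mul_le_mul (pow_le_pow_left₀ hτ0 hτ m) hLg hLg0 (by positivity)
  refine h1.trans ?_
  have h2 : (2 * a * ℓ ^ 2) ^ (p' + 1) * ((a / r * ℓ ^ 2) ^ p' * ((a / r / ℓ ^ A1) ^ 2 * (C * (((y ^ 2 / r) ^ p' * (y ^ 2 / y ^ d)) *
        ((ℓ ^ b1) ^ m * (2 * ℓ) ^ M))))) =
      (a * y / r) ^ (2 * (p' + 1)) * ((2 ^ (p' + 1) * C * 2 ^ M * (a / y ^ d)) * ℓ ^ (2 * (p' + 1) + 2 * p' + b1 * m + M) / (ℓ ^ A1) ^ 2) := by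
    have e1 : ℓ ^ (2 * (p' + 1) + 2 * p' + b1 * m + M) = (ℓ ^ 2) ^ (p' + 1) * (ℓ ^ 2) ^ p' * (ℓ ^ b1) ^ m * ℓ ^ M := by
      rw [← pow_mul, ← pow_mul, ← pow_mul, ← pow_add, ← pow_add, ← pow_add]
    rw [e1, mul_pow 2 ℓ M]
    ring
  rw [h2, div_pow (a * y / r), div_eq_mul_inv ((a * y / r) ^ (2 * (p' + 1)))]
  apply mul_le_mul_of_nonneg_left _ (by positivity)
  rw [← one_div, div_le_div_iff₀ (by positivity) (by positivity), one_mul]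
  have h3 : a / y ^ d ≤ B := by
    rw [div_le_iff₀ (by positivity)]
    exact haB
  calc 2 ^ (p' + 1) * C * 2 ^ M * (a / y ^ d) * ℓ ^ (2 * (p' + 1) + 2 * p' + b1 * m + M) * (ℓ ^ E1) ^ (2 * (p' + 1))
      ≤ 2 ^ (p' + 1) * C * 2 ^ M * B * ℓ ^ (2 * (p' + 1) + 2 * p' + b1 * m + M) * (ℓ ^ E1) ^ (2 * (p' + 1)) := by
        apply mul_le_mul_of_nonneg_right _ (by positivity)
        apply mul_le_mul_of_nonneg_right _ (by positivity)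
        exact mul_le_mul_of_nonneg_left h3 (by positivity)
    _ ≤ ℓ * ℓ ^ (2 * (p' + 1) + 2 * p' + b1 * m + M) * (ℓ ^ E1) ^ (2 * (p' + 1)) := by
        apply mul_le_mul_of_nonneg_right _ (by positivity)
        exact mul_le_mul_of_nonneg_right hℓB (by positivity)
    _ = ℓ ^ (1 + (2 * (p' + 1) + 2 * p' + b1 * m + M) + E1 * (2 * (p' + 1))) := by
        rw [← pow_mul, ← pow_succ', ← pow_add]
        congr 1
        ring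
    _ ≤ ℓ ^ (A1 * 2) := by
        apply pow_le_pow_right₀ hℓ
        rw [hA1]
        ring_nf
        have : 0 ≤ b1 * m := Nat.zero_le _
        omega
    _ = (ℓ ^ A1) ^ 2 := pow_mul _ _ _
  where le_of_sq_pow_le (a b : ℝ) (n : ℕ) (hn : n ≠ 0) (ha : 0 ≤ a) (hb : 0 ≤ b) (h : a ^ n ≤ b ^ n) : a ≤ b :=
    (pow_le_pow_iff_left₀ ha hb hn).1 h

end Pool.Agent.U856.DE
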