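import Pool.Agent.U856.DE.D8

set_option autoImplicit false

/-! The sum over the moduli. -/

namespace Pool.Agent.U856.DE
open Finset Polynomial
open Pool.Agent.R311.DEH (g1 g2 dl dl_nonneg g_bound Tq sum_dl Qs ct harm_le)
open Pool.Agent.TH212.EH (tau_pow_div large)

open Classical in
theorem sum_q (f : ℤ[X]) (j : ℕ) (hf : f.natDegree = j + 2) (A s B E : ℕ) (hA : 1 ≤ A) (hs : 2 ≤ s) :
    ∃ x0 : ℕ, ∀ x : ℕ, x0 ≤ x → ∀ X : ℕ, (x : ℝ) ^ (j + 2) ≤ X → (X : ℝ) ≤ B * (x : ℝ) ^ (j + 2) →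
    (∀ m ∈ Icc 1 (x : ℤ), |f.eval m| ≤ A * (x : ℤ) ^ (j + 2)) → ∀ Q : ℕ, Q ≤ x →
    (Q : ℝ) ^ s * (x : ℝ) ^ (j + 2) ≤ (x : ℝ) ^ s → ∀ g : ℕ → ℝ, (g = g1 ∨ g = g2) →
    ∀ (c : ℤ) (I : Finset ℕ) (N : ℕ → ℕ), I ⊆ Icc 1 x → (∀ m ∈ I, c + f.eval (m : ℤ) = N m) → (∀ m ∈ I, N m ≤ X) →
    ∑ q ∈ Icc 1 Q, ∑ m ∈ I, |Tq g q (N m)| ≤ X * x / Real.log x ^ E := by
  -- the parameters
  obtain ⟨p', hp'⟩ : ∃ p', 2 ^ j * s = p' + 1 := ⟨2 ^ j * s - 1, by
    have : 0 < 2 ^ j * s := Nat.mul_pos (by positivity) (by omega)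
    omega⟩
  obtain ⟨m, hm⟩ : ∃ m, m = 2 * (j + 1) := ⟨_, rfl⟩
  obtain ⟨M, hM⟩ : ∃ M, M = 2 ^ (2 * (j + 1)) := ⟨_, rfl⟩
  obtain ⟨E1, hE1⟩ : ∃ E1, E1 = E + 2 := ⟨_, rfl⟩
  obtain ⟨b1, hb1⟩ : ∃ b1, b1 = E + 5 := ⟨_, rfl⟩
  obtain ⟨A1, hA1⟩ : ∃ A1, A1 = 2 * (p' + 1) + b1 * m + M + (p' + 1) * E1 + 1 := ⟨_, rfl⟩
  obtain ⟨E2, hE2⟩ : ∃ E2, E2 = A1 + E + 6 := ⟨_, rfl⟩
  obtain ⟨U, hU⟩ : ∃ U, U = E2 + 1 := ⟨_, rfl⟩
  obtain ⟨C, hC1, Y0, hY0, hone⟩ := one_q U f j hf A s hA hs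
  obtain ⟨W, hW⟩ : ∃ W : ℕ, W = j + 4 := ⟨_, rfl⟩
  obtain ⟨n1, h1⟩ := Pool.Agent.TH823.Fam.log_pow_small (12 * E2 + 1)
  obtain ⟨n2, h2⟩ := large (max (max (1 + Real.log B) (2 ^ (p' + 1) * C * 2 ^ M * B)) (max (max 35 (Real.log (2 ^ (j + 1) * A : ℝ))) (max ((2 : ℝ) ^ 12 * W ^ (12 * E2)) ((2 : ℝ) ^ U * W ^ E2)))) (max n1 (Y0 + 4))
  refine ⟨n2, fun x hx X hX1 hX2 hB Q hQ hQs g hg c I N hI hv hN => ?_⟩
  obtain ⟨hxn, hLK, hL1⟩ := h2 x hx
  have hxn1 : n1 ≤ x := (le_max_left _ _).trans hxn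
  have hxY : Y0 + 4 ≤ x := (le_max_right _ _).trans hxn
  have hlog := h1 x hxn1
  have hx0 : (0 : ℝ) < x := by exact_mod_cast (by omega : 0 < x)
  have hx1r : (1 : ℝ) ≤ x := by exact_mod_cast (by omega : 1 ≤ x)
  obtain ⟨L, hL⟩ : ∃ L, L = Real.log (x : ℝ) := ⟨_, rfl⟩
  rw [← hL] at hLK hL1 hlog ⊢
  have k1 : 1 + Real.log (B : ℝ) ≤ L := ((le_max_left _ _).trans (le_max_left _ _)).trans hLK
  have k2 : 2 ^ (p' + 1) * C * 2 ^ M * B ≤ L := ((le_max_right _ _).trans (le_max_left _ _)).trans hLK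
  have k3 : 35 ≤ L := ((le_max_left _ _).trans ((le_max_left _ _).trans (le_max_right _ _))).trans hLK
  have k4 : Real.log (2 ^ (j + 1) * A : ℝ) ≤ L := ((le_max_right _ _).trans ((le_max_left _ _).trans (le_max_right _ _))).trans hLK
  have k5 : (2 : ℝ) ^ 12 * W ^ (12 * E2) ≤ L := ((le_max_left _ _).trans ((le_max_right _ _).trans (le_max_right _ _))).trans hLK
  have k6 : (2 : ℝ) ^ U * W ^ E2 ≤ L := ((le_max_right _ _).trans ((le_max_right _ _).trans (le_max_right _ _))).trans hLK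
  clear hLK
  have hL0 : 0 < L := by linarith
  have hxd0 : (0 : ℝ) < (x : ℝ) ^ (j + 2) := by positivity
  have hX0 : (0 : ℝ) < X := hxd0.trans_le hX1
  have hB0 : (0 : ℝ) < B := by
    by_contra hcon
    have : (B : ℝ) ≤ 0 := not_lt.1 hcon
    nlinarith
  obtain ⟨ℓ, hℓ⟩ : ∃ ℓ, ℓ = 1 + Real.log (X : ℝ) := ⟨_, rfl⟩
  have hxX : (x : ℝ) ≤ X := by
    refine le_trans ?_ hX1
    exact le_self_pow₀ hx1r (by omega)
  have hLℓ : L ≤ ℓ := by
    rw [hℓ, hL]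
    have := Real.log_le_log hx0 hxX
    linarith
  have hℓW : ℓ ≤ W * L := by
    rw [hℓ]
    have e1 : Real.log (X : ℝ) ≤ Real.log B + (j + 2 : ℕ) * L := by
      rw [hL, ← Real.log_pow, ← Real.log_mul hB0.ne' hxd0.ne']
      exact Real.log_le_log hX0 hX2
    rw [hW]
    push_cast at e1 ⊢
    linarith
  have hℓ1 : 1 ≤ ℓ := by linarith
  have hℓ0 : 0 < ℓ := by linarith
  have hsq : x * x ≤ X := by
    have e1 : ((x * x : ℕ) : ℝ) ≤ X := by
      refine le_trans ?_ hX1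
      push_cast
      rw [← sq]
      exact pow_le_pow_right₀ hx1r (by omega)
    exact_mod_cast e1
  -- the choice of `T`
  obtain ⟨T, hT⟩ : ∃ T, T = ⌈ℓ ^ E2⌉₊ := ⟨_, rfl⟩
  have hTge : ℓ ^ E2 ≤ T := by rw [hT]; exact Nat.le_ceil _
  have hTle : (T : ℝ) ≤ 2 * ℓ ^ E2 := by
    have h7 := (Nat.ceil_lt_add_one (show 0 ≤ ℓ ^ E2 by positivity)).le
    have h8 : 1 ≤ ℓ ^ E2 := one_le_pow₀ hℓ1
    rw [hT]
    linarith
  have hT1 : 1 ≤ T := by
    have : (1 : ℝ) ≤ T := (one_le_pow₀ hℓ1).trans hTge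
    exact_mod_cast this
  have hT3 : T ^ 3 ≤ ct x := by
    have h7 : (T : ℝ) ^ 12 ≤ x := by
      calc (T : ℝ) ^ 12 ≤ (2 * ℓ ^ E2) ^ 12 := pow_le_pow_left₀ (by positivity) hTle _
        _ = 2 ^ 12 * ℓ ^ (12 * E2) := by rw [mul_pow, ← pow_mul, mul_comm E2 12]
        _ ≤ 2 ^ 12 * (W * L) ^ (12 * E2) := by
            apply mul_le_mul_of_nonneg_left _ (by positivity)
            exact pow_le_pow_left₀ hℓ0.le hℓW _
        _ = 2 ^ 12 * W ^ (12 * E2) * L ^ (12 * E2) := by rw [mul_pow]; ring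
        _ ≤ L * L ^ (12 * E2) := mul_le_mul_of_nonneg_right k5 (by positivity)
        _ = L ^ (12 * E2 + 1) := by rw [pow_succ]; ring
        _ ≤ x := by
            have : 0 ≤ L ^ (12 * E2 + 1) := by positivity
            linarith
    have h8 : T ^ 12 ≤ x := by exact_mod_cast h7
    unfold ct
    rw [Nat.le_sqrt, Nat.le_sqrt]
    calc T ^ 3 * T ^ 3 * (T ^ 3 * T ^ 3) = T ^ 12 := by ring
      _ ≤ x := h8
  have hUb : 2 ^ U / L ^ U ≤ 1 / ℓ ^ E2 := by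
    rw [div_le_div_iff₀ (by positivity) (by positivity), one_mul]
    calc 2 ^ U * ℓ ^ E2 ≤ 2 ^ U * (W * L) ^ E2 := by
          apply mul_le_mul_of_nonneg_left _ (by positivity)
          exact pow_le_pow_left₀ hℓ0.le hℓW _
      _ = (2 ^ U * W ^ E2) * L ^ E2 := by rw [mul_pow]; ring
      _ ≤ L * L ^ E2 := mul_le_mul_of_nonneg_right k6 (by positivity)
      _ = L ^ U := by rw [hU, pow_succ]; ring
  have hdlsum : ∑ q ∈ Icc 1 Q, dl U X q x ≤ 8 * ℓ ^ 3 * X * (1 / ℓ ^ E2 + 1 / ℓ ^ E2) := by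
    have e1 := sum_dl U X x T (by nlinarith) (by omega) hT1 hT3
    rw [← hℓ, ← hL] at e1
    have e2 : ∑ q ∈ Icc 1 Q, dl U X q x ≤ ∑ q ∈ Qs X x, dl U X q x := by
      apply sum_le_sum_of_subset_of_nonneg
      · intro q hq
        rw [mem_Icc] at hq
        rw [Qs, mem_filter, mem_Icc]
        refine ⟨⟨hq.1, ?_⟩, ?_⟩
        · have : x ≤ X := by exact_mod_cast hxX
          omega
        · rw [Nat.le_div_iff_mul_le hq.1]
          exact (Nat.mul_le_mul_left _ (hq.2.trans hQ)).trans hsq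
      · intro q _ _
        exact dl_nonneg U X q x (by nlinarith) (by omega)
    refine e2.trans (e1.trans ?_)
    apply mul_le_mul_of_nonneg_left _ (by positivity)
    apply add_le_add hUb
    exact one_div_le_one_div_of_le (by positivity) hTge
  -- one modulus
  have hIx : (I.card : ℝ) ≤ x := by
    have := card_le_card hI
    rw [Nat.card_Icc, Nat.add_sub_cancel] at this
    exact_mod_cast this
  have hq1 : ∀ q ∈ Icc 1 Q, ∑ m ∈ I, |Tq g q (N m)| ≤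
      X * x / ℓ ^ E1 * (1 / q) + 2 * x * X * ℓ ^ 2 * ((q.divisors.card : ℝ) ^ 1 / q / ℓ ^ b1 + ℓ ^ A1 / X * dl U X q x) := by
    intro q hq
    rw [mem_Icc] at hq
    have hq0 : (0 : ℝ) < q := by exact_mod_cast hq.1
    have hqx : q ≤ x := hq.2.trans hQ
    have hdl0 : 0 ≤ dl U X q x := dl_nonneg U X q x (by nlinarith) (by omega)
    have hxXq : x ≤ X / q := by
      rw [Nat.le_div_iff_mul_le hq.1]
      exact (Nat.mul_le_mul_left _ hqx).trans hsq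
    by_cases hgood : (q.divisors.card : ℝ) ≤ ℓ ^ b1 ∧ dl U X q x ≤ X / q / ℓ ^ A1
    · have hmain := hone c x q X x hq.1 hqx hX1 (by omega) hxXq hB (by
        refine le_trans ?_ hQs
        apply mul_le_mul_of_nonneg_right _ (by positivity)
        exact pow_le_pow_left₀ hq0.le (by exact_mod_cast hq.2) _) g hg I N hI hv hN
      rw [hp', ← hℓ, ← hM, ← hm] at hmain
      have hKBlog : 1 + Real.log ((2 ^ (j + 1) * (A * x ^ (j + 2)) : ℕ) : ℝ) ≤ 2 * ℓ := by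
        push_cast
        have e1 : (2 : ℝ) ^ (j + 1) * (A * (x : ℝ) ^ (j + 2)) = (2 ^ (j + 1) * A) * (x : ℝ) ^ (j + 2) := by ring
        have hA0 : (0 : ℝ) < A := by exact_mod_cast hA
        rw [e1, Real.log_mul (by positivity) hxd0.ne']
        have e2 : Real.log ((x : ℝ) ^ (j + 2)) ≤ Real.log X := Real.log_le_log hxd0 hX1
        rw [hℓ] at hLℓ ⊢
        linarith
      have h3 := good_num p' m M A1 E1 b1 hA1 X x q ℓ (dl U X q x) C q.divisors.card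
        ((1 + Real.log ((2 ^ (j + 1) * (A * x ^ (j + 2)) : ℕ) : ℝ)) ^ M) B (∑ m ∈ I, |Tq g q (N m)|) (j + 2) hX0 hx0 hq0 hℓ1 hdl0 hgood.2 hC1
        (Nat.cast_nonneg _) hgood.1 (by
          have := Real.log_natCast_nonneg (2 ^ (j + 1) * (A * x ^ (j + 2)))
          positivity) (by
          have := Real.log_natCast_nonneg (2 ^ (j + 1) * (A * x ^ (j + 2)))
          exact pow_le_pow_left₀ (by linarith) hKBlog _) hB0.le hX2 (k2.trans hLℓ) (sum_nonneg fun _ _ => abs_nonneg _) hmain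
      have h4 : (X : ℝ) * x / q / ℓ ^ E1 = X * x / ℓ ^ E1 * (1 / q) := by ring
      rw [h4] at h3
      have h5 : 0 ≤ 2 * x * X * ℓ ^ 2 * ((q.divisors.card : ℝ) ^ 1 / q / ℓ ^ b1 + ℓ ^ A1 / X * dl U X q x) := by positivity
      linarith
    · have htriv : ∑ m ∈ I, |Tq g q (N m)| ≤ x * (2 * (X / q) * ℓ ^ 2) := by
        have h3 : ∀ m ∈ I, |Tq g q (N m)| ≤ 2 * (X / q) * ℓ ^ 2 := by
          intro m hm'
          rw [hℓ]
          apply T_triv g hg q (N m) X hq.1 _ (hN m hm')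
          have : x ≤ X := by exact_mod_cast hxX
          omega
        refine (sum_le_sum h3).trans ?_
        rw [sum_const, nsmul_eq_mul]
        exact mul_le_mul_of_nonneg_right hIx (by positivity)
      refine htriv.trans ?_
      have h3 : 1 / (q : ℝ) ≤ (q.divisors.card : ℝ) ^ 1 / q / ℓ ^ b1 + ℓ ^ A1 / X * dl U X q x := by
        rw [not_and_or, not_le, not_le] at hgood
        rcases hgood with h4 | h4
        · have h5 : 1 / (q : ℝ) ≤ (q.divisors.card : ℝ) ^ 1 / q / ℓ ^ b1 := by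
            rw [pow_one, div_div, div_le_div_iff₀ hq0 (by positivity)]
            nlinarith
          have h6 : 0 ≤ ℓ ^ A1 / X * dl U X q x := by positivity
          linarith
        · have h5 : 1 / (q : ℝ) ≤ ℓ ^ A1 / X * dl U X q x := by
            calc 1 / (q : ℝ) = ℓ ^ A1 / X * (X / q / ℓ ^ A1) := by field_simp
              _ ≤ _ := mul_le_mul_of_nonneg_left h4.le (by positivity)
          have h6 : 0 ≤ (q.divisors.card : ℝ) ^ 1 / q / ℓ ^ b1 := by positivity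
          linarith
      calc (x : ℝ) * (2 * (X / q) * ℓ ^ 2) = 2 * x * X * ℓ ^ 2 * (1 / q) := by ring
        _ ≤ 2 * x * X * ℓ ^ 2 * ((q.divisors.card : ℝ) ^ 1 / q / ℓ ^ b1 + ℓ ^ A1 / X * dl U X q x) :=
            mul_le_mul_of_nonneg_left h3 (by positivity)
        _ ≤ _ := by
            have : 0 ≤ (X : ℝ) * x / ℓ ^ E1 * (1 / q) := by positivity
            linarith
  refine (sum_le_sum hq1).trans ?_
  rw [sum_add_distrib, ← mul_sum, ← mul_sum, sum_add_distrib, ← sum_div, ← mul_sum]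
  have hharm : ∑ q ∈ Icc 1 Q, 1 / (q : ℝ) ≤ ℓ := by
    have e1 := harm_le Q
    refine e1.trans ?_
    rw [hℓ]
    rcases Nat.eq_zero_or_pos Q with h0 | h0
    · rw [h0]
      simp only [Nat.cast_zero, Real.log_zero]
      have := Real.log_natCast_nonneg X
      linarith
    · have := Real.log_le_log (by exact_mod_cast h0 : (0 : ℝ) < Q) ((by exact_mod_cast hQ : (Q : ℝ) ≤ x).trans hxX)
      linarith
  have htau : ∑ q ∈ Icc 1 Q, (q.divisors.card : ℝ) ^ 1 / q ≤ ℓ ^ 2 := by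
    have e1 := tau_pow_div 1 Q
    refine e1.trans ?_
    have e2 : 1 + Real.log (Q : ℝ) ≤ ℓ := by
      rw [hℓ]
      rcases Nat.eq_zero_or_pos Q with h0 | h0
      · rw [h0]
        simp only [Nat.cast_zero, Real.log_zero]
        have := Real.log_natCast_nonneg X
        linarith
      · have := Real.log_le_log (by exact_mod_cast h0 : (0 : ℝ) < Q) ((by exact_mod_cast hQ : (Q : ℝ) ≤ x).trans hxX)
        linarith
    have e3 := Real.log_natCast_nonneg Q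
    rw [pow_one]
    exact pow_le_pow_left₀ (by linarith) e2 2
  have hfin : (X : ℝ) * x / ℓ ^ E1 * ∑ q ∈ Icc 1 Q, 1 / (q : ℝ) +
      2 * x * X * ℓ ^ 2 * ((∑ q ∈ Icc 1 Q, (q.divisors.card : ℝ) ^ 1 / q) / ℓ ^ b1 + ℓ ^ A1 / X * ∑ q ∈ Icc 1 Q, dl U X q x) ≤
      X * x / ℓ ^ E := by
    have u1 : (X : ℝ) * x / ℓ ^ E1 * ∑ q ∈ Icc 1 Q, 1 / (q : ℝ) ≤ X * x / ℓ ^ E * (1 / ℓ) := by
      refine (mul_le_mul_of_nonneg_left hharm (by positivity)).trans (le_of_eq ?_)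
      rw [hE1, pow_add]
      field_simp
    have u2 : (∑ q ∈ Icc 1 Q, (q.divisors.card : ℝ) ^ 1 / q) / ℓ ^ b1 ≤ 1 / ℓ ^ (E + 3) := by
      refine (div_le_div_of_nonneg_right htau (by positivity)).trans (le_of_eq ?_)
      rw [hb1, show E + 5 = E + 3 + 2 by ring, pow_add ℓ (E + 3) 2]
      field_simp
    have u3 : ℓ ^ A1 / X * ∑ q ∈ Icc 1 Q, dl U X q x ≤ 16 / ℓ ^ (E + 3) := by
      refine (mul_le_mul_of_nonneg_left hdlsum (by positivity)).trans (le_of_eq ?_)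
      rw [hE2, show A1 + E + 6 = A1 + (E + 3) + 3 by ring, pow_add ℓ (A1 + (E + 3)) 3, pow_add ℓ A1 (E + 3)]
      field_simp
      ring
    have u4 : 2 * x * X * ℓ ^ 2 * ((∑ q ∈ Icc 1 Q, (q.divisors.card : ℝ) ^ 1 / q) / ℓ ^ b1 + ℓ ^ A1 / X * ∑ q ∈ Icc 1 Q, dl U X q x) ≤
        X * x / ℓ ^ E * (34 / ℓ) := by
      refine (mul_le_mul_of_nonneg_left (add_le_add u2 u3) (by positivity)).trans (le_of_eq ?_)
      rw [pow_add ℓ E 3]
      field_simp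
      ring
    have u5 : 1 / ℓ + 34 / ℓ ≤ 1 := by
      rw [← add_div, div_le_one hℓ0]
      linarith
    calc _ ≤ (X : ℝ) * x / ℓ ^ E * (1 / ℓ) + X * x / ℓ ^ E * (34 / ℓ) := add_le_add u1 u4
      _ = X * x / ℓ ^ E * (1 / ℓ + 34 / ℓ) := by ring
      _ ≤ X * x / ℓ ^ E * 1 := mul_le_mul_of_nonneg_left u5 (by positivity)
      _ = _ := mul_one _
  refine hfin.trans ?_
  apply div_le_div_of_nonneg_left (by positivity) (by positivity)
  exact pow_le_pow_left₀ hL0.le hLℓ _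

end Pool.Agent.U856.DE
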